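import Pool.Agent.Run7.h418.TorDefs
import Pool.Agent.N155.L.SDefs

/-!
Special sets of a projective variety given by complex tori and by entire curves of bounded
derivative, and pseudo-hyperbolic subvarieties.
-/

set_option autoImplicit false

open Pool.Agent.TH182.TC Pool.Agent.W602.GT Pool.Agent.N155

namespace Run7.h418

variable {n : ℕ} {ι : Type}

/-- The Zariski closure (as a cone) of the union of the images of all nonconstant holomorphic maps
`g` from complex tori `ℂ^q / Λ` to `X = {F = 0}`. The lattice `Λ` is generated by a basis `b` of the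
real vector space `ℂ^q`. -/
def SpTor (F : ι → MvPolynomial (Fin (n + 1)) ℂ) : Set (Fin (n + 1) → ℂ) :=
  {x | x ∈ Cone F ∧ ∀ G : MvPolynomial (Fin (n + 1)) ℂ, IsForm G →
    (∀ (q : ℕ) (b : Module.Basis (Fin (2 * q)) ℝ (Fin q → ℂ)) (g : (Fin q → ℂ) → PS n), Holo g →
      (∀ t, OnX F (g t)) → (∀ t i, g (t + b i) = g t) → (∃ t t', g t ≠ g t') →
        ∀ t, MvPolynomial.eval (g t).rep G = 0) → val x G = 0}

/-- The Zariski closure (as a cone) of the union of the images of all holomorphic immersions `g` of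
complex tori `ℂ^q / Λ` of positive dimension into `X = {F = 0}`. -/
def SpImm (F : ι → MvPolynomial (Fin (n + 1)) ℂ) : Set (Fin (n + 1) → ℂ) :=
  {x | x ∈ Cone F ∧ ∀ G : MvPolynomial (Fin (n + 1)) ℂ, IsForm G →
    (∀ (q : ℕ) (b : Module.Basis (Fin (2 * q)) ℝ (Fin q → ℂ)) (g : (Fin q → ℂ) → PS n), 0 < q →
      (∀ t, ImmAt g t) → (∀ t, OnX F (g t)) → (∀ t i, g (t + b i) = g t) →
        ∀ t, MvPolynomial.eval (g t).rep G = 0) → val x G = 0}

/-- The Zariski closure (as a cone) of the union of the images of all nonconstant holomorphic maps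
`p` of bounded derivative from the complex plane to `X = {F = 0}`. -/
def SpBrody (F : ι → MvPolynomial (Fin (n + 1)) ℂ) : Set (Fin (n + 1) → ℂ) :=
  {x | x ∈ Cone F ∧ ∀ G : MvPolynomial (Fin (n + 1)) ℂ, IsForm G →
    (∀ p : ℂ → PS n, HolMap p → BoundedDer p → (∀ z, (p z).rep ∈ Cone F) →
      (∃ z w, p z ≠ p w) → ∀ z, MvPolynomial.eval (p z).rep G = 0) → val x G = 0}

variable {K : Type} [Field K] [Algebra ℂ K]

/-- The projective variety `V` with generic point `y` is pseudo-Brody hyperbolic: some form `G`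
which does not vanish on `V` vanishes on the images of all nonconstant holomorphic maps `p` from the
complex plane to `V`. -/
def PseudoBrody (y : Fin (n + 1) → K) : Prop :=
  ∃ G : MvPolynomial (Fin (n + 1)) ℂ, IsForm G ∧ val y G ≠ 0 ∧
    ∀ p : ℂ → PS n, HolMap p → (∀ z, (p z).rep ∈ VarPts ℂ y) → (∃ z w, p z ≠ p w) →
      ∀ z, MvPolynomial.eval (p z).rep G = 0

/-- The same for the nonconstant holomorphic maps `p` of bounded derivative. -/
def PseudoBounded (y : Fin (n + 1) → K) : Prop :=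
  ∃ G : MvPolynomial (Fin (n + 1)) ℂ, IsForm G ∧ val y G ≠ 0 ∧
    ∀ p : ℂ → PS n, HolMap p → BoundedDer p → (∀ z, (p z).rep ∈ VarPts ℂ y) →
      (∃ z w, p z ≠ p w) → ∀ z, MvPolynomial.eval (p z).rep G = 0

/-- The same for the nonconstant holomorphic maps `g` from complex tori `ℂ^q / Λ`. -/
def PseudoTorus (y : Fin (n + 1) → K) : Prop :=
  ∃ G : MvPolynomial (Fin (n + 1)) ℂ, IsForm G ∧ val y G ≠ 0 ∧
    ∀ (q : ℕ) (b : Module.Basis (Fin (2 * q)) ℝ (Fin q → ℂ)) (g : (Fin q → ℂ) → PS n), Holo g →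
      (∀ t, (g t).rep ∈ VarPts ℂ y) → (∀ t i, g (t + b i) = g t) → (∃ t t', g t ≠ g t') →
        ∀ t, MvPolynomial.eval (g t).rep G = 0

end Run7.h418
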