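import Pool.Agent.Run7.h418.R.Cov
import Pool.Agent.Run7.h418.R.SpDefs

/-!
The special sets of varieties whose symmetric differentials generate a symmetric power of the
cotangent sheaf.
-/

set_option autoImplicit false

open MvPolynomial Metric Set Filter Topology LinearAlgebra.Projectivization

namespace Run7.h418.R

open Pool.Agent.Y190.OP Pool.Agent.W602.GT Pool.Agent.N155 Pool.Agent.TH182.TC

section spe

variable {n : ℕ} {ι κ : Type} {F : ι → MvPolynomial (Fin (n + 1)) ℂ} {m : ℕ}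
  {σ : κ → (Fin (n + 1) → ℂ) → (Fin (n + 1) → ℂ) → ℂ} {G : MvPolynomial (Fin (n + 1)) ℂ}

theorem immAt_ne {q : ℕ} (hq : 0 < q) {g : (Fin q → ℂ) → PS n} (himm : ∀ t, ImmAt g t) :
    ∃ t t', g t ≠ g t' := by
  by_contra hcon
  push Not at hcon
  obtain ⟨φ, h1, h2, h3⟩ := himm 0
  obtain ⟨h0, -⟩ := h2.self_of_nhds
  obtain ⟨i, hi⟩ := Function.ne_iff.1 h0
  have hi' : φ 0 i ≠ 0 := hi
  have hd : ∀ l, DifferentiableAt ℂ (fun t => φ t l) 0 := fun l =>
    (analyticAt_pi_iff.1 h1 l).differentiableAt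
  have hmin : ∀ l, (fun t => φ t l * φ 0 i) =ᶠ[𝓝 0] fun t => φ t i * φ 0 l := by
    intro l
    filter_upwards [h2] with t ht
    obtain ⟨ht0, ht1⟩ := ht
    obtain ⟨h00, h01⟩ := h2.self_of_nhds
    have h4 : Projectivization.mk ℂ (φ t) ht0 = Projectivization.mk ℂ (φ 0) h00 := by
      rw [← ht1, ← h01]
      exact hcon t 0
    exact (mk_eq_mk_iff_minors ht0 h00).1 h4 l i
  set e : Fin q → ℂ := fun _ => 1 with he
  have he0 : e ≠ 0 := by
    intro h4
    have := congrFun h4 ⟨0, hq⟩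
    exact one_ne_zero this
  refine h3 e he0 (fderiv ℂ φ 0 e i / φ 0 i) ?_
  funext l
  rw [Pi.smul_apply, smul_eq_mul, fderiv_comp_apply h1.differentiableAt,
    fderiv_comp_apply h1.differentiableAt]
  have h4 := Filter.EventuallyEq.fderiv_eq (𝕜 := ℂ) (hmin l)
  rw [fderiv_mul_const (hd l), fderiv_mul_const (hd i)] at h4
  have h5 := congrArg (fun A : (Fin q → ℂ) →L[ℂ] ℂ => A e) h4
  simp only [ContinuousLinearMap.smul_apply, smul_eq_mul] at h5
  field_simp
  linear_combination h5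

theorem holo_of_imm {q : ℕ} {g : (Fin q → ℂ) → PS n} (himm : ∀ t, ImmAt g t) : Holo g := by
  intro z
  obtain ⟨φ, h1, h2, -⟩ := himm z
  exact ⟨φ, h1, h2⟩

theorem van_brody [Finite κ] (hF : ∀ i, IsForm (F i)) {m : κ → ℕ} (hm : ∀ j, 0 < m j)
    (hσ : ∀ j, SymForm F (m j) (σ j)) (him : Immersive F σ) (hG : IsForm G)
    (hA : ∀ (K : Type) [Field K] [Algebra ℂ K] (w : ℕ) (y : Fin (n + 1) → K), 1 ≤ w →
      SubVar F K w y → ¬ GeneralType ℂ K w → val y G = 0)
    {p : ℂ → PS n} (hp : HolMap p) (hb : BoundedDer p) (hpF : ∀ z, (p z).rep ∈ Cone F)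
    (hne : ∃ z w, p z ≠ p w) (z : ℂ) : eval (p z).rep G = 0 := by
  obtain ⟨w, hw, -, ⟨K, hK1, hK2, y, hy⟩, h7⟩ := Z.thm_torus hF hm hσ him hp hpF hb hne
  obtain ⟨-, h8⟩ := h7 K w y hy
  exact (hy.2 G hG).1 (hA K w y hw hy.1 h8) z

theorem van_torus (hB : ∀ p : ℂ → PS n, HolMap p → BoundedDer p → (∀ z, (p z).rep ∈ Cone F) →
      (∃ z w, p z ≠ p w) → ∀ z, eval (p z).rep G = 0)
    {q : ℕ} {b : Module.Basis (Fin (2 * q)) ℝ (Fin q → ℂ)} {g : (Fin q → ℂ) → PS n}
    (hg : Holo g) (hX : ∀ t, OnX F (g t)) (hper : ∀ t i, g (t + b i) = g t)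
    (hne : ∃ t t', g t ≠ g t') (t : Fin q → ℂ) : eval (g t).rep G = 0 := by
  obtain ⟨t', ht'⟩ : ∃ t', g t' ≠ g t := by
    by_contra hcon
    push Not at hcon
    obtain ⟨a, a', ha⟩ := hne
    exact ha ((hcon a).trans (hcon a').symm)
  have h1 := hB (fun s => g (t + s • (t' - t))) (holMap_line hg _ _) (bounded_line hg hper _ _)
    (fun z => mem_cone.2 ⟨(g _).rep_nonzero, hX _⟩) ⟨1, 0, by
      simp only [one_smul, zero_smul, add_zero, add_sub_cancel]
      exact ht'⟩ 0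
  simp only [zero_smul, add_zero] at h1
  exact h1

theorem van_alg [Fintype κ] (hF : ∀ i, IsForm (F i)) (hm : 0 < m) (hσ : ∀ j, SymForm F m (σ j))
    (hgen : Generates F m σ) (hG : IsForm G)
    (hI : ∀ (q : ℕ) (b : Module.Basis (Fin (2 * q)) ℝ (Fin q → ℂ)) (g : (Fin q → ℂ) → PS n),
      0 < q → (∀ t, ImmAt g t) → (∀ t, OnX F (g t)) → (∀ t i, g (t + b i) = g t) →
        ∀ t, eval (g t).rep G = 0)
    {K : Type} [Field K] [Algebra ℂ K] {w : ℕ} {y : Fin (n + 1) → K} (hw : 1 ≤ w)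
    (hy : SubVar F K w y) (hgt : ¬ GeneralType ℂ K w) : val y G = 0 := by
  by_contra h0
  obtain ⟨q, b, g, h1, h2, h3, h4, t, ht⟩ :=
    exists_torus hm hσ hgen hy hF hw hgt hG h0
  refine ht (hI q b g h1 h2 (fun t i => ?_) h4 t)
  have h5 := (h3 t).2 (F i) (hF i) (hy.mem i)
  rwa [val_ev] at h5

variable [Fintype κ]

theorem spTor_eq (hF : ∀ i, IsForm (F i)) (hm : 0 < m) (hσ : ∀ j, SymForm F m (σ j))
    (hgen : Generates F m σ) : SpTor F = SpAlg F := by
  ext x
  refine and_congr_right fun _ => forall_congr' fun G => forall_congr' fun hG => ?_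
  refine imp_congr_left ⟨fun h K _ _ w y hw hy hgt => ?_, fun h q b g hg hX hper hne t => ?_⟩
  · exact van_alg hF hm hσ hgen hG (fun q b g hq h1 h2 h3 => h q b g (holo_of_imm h1) h2 h3
      (immAt_ne hq h1)) hw hy hgt
  · exact van_torus (fun p => van_brody hF (fun _ => hm) hσ (immersive_of_generates hm hσ hgen) hG h)
      hg hX hper hne t

theorem spImm_eq (hF : ∀ i, IsForm (F i)) (hm : 0 < m) (hσ : ∀ j, SymForm F m (σ j))
    (hgen : Generates F m σ) : SpImm F = SpAlg F := by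
  ext x
  refine and_congr_right fun _ => forall_congr' fun G => forall_congr' fun hG => ?_
  refine imp_congr_left ⟨fun h K _ _ w y hw hy hgt => ?_, fun h q b g hq h1 hX hper t => ?_⟩
  · exact van_alg hF hm hσ hgen hG h hw hy hgt
  · exact van_torus (fun p => van_brody hF (fun _ => hm) hσ (immersive_of_generates hm hσ hgen) hG h)
      (holo_of_imm h1) hX hper (immAt_ne hq h1) t

theorem spBrody_eq (hF : ∀ i, IsForm (F i)) (hm : 0 < m) (hσ : ∀ j, SymForm F m (σ j))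
    (hgen : Generates F m σ) : SpBrody F = SpAlg F := by
  ext x
  refine and_congr_right fun _ => forall_congr' fun G => forall_congr' fun hG => ?_
  refine imp_congr_left ⟨fun h K _ _ w y hw hy hgt => ?_, fun h p hp hb hpF hne z => ?_⟩
  · exact van_alg hF hm hσ hgen hG (fun q b g hq h1 h2 h3 => van_torus h (holo_of_imm h1) h2 h3
      (immAt_ne hq h1)) hw hy hgt
  · exact van_brody hF (fun _ => hm) hσ (immersive_of_generates hm hσ hgen) hG h hp hb hpF hne z

/-- pseudo-hyperbolic subvarieties are of general type -/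
theorem general_of_pseudoTorus (hF : ∀ i, IsForm (F i)) (hm : 0 < m)
    (hσ : ∀ j, SymForm F m (σ j)) (hgen : Generates F m σ) {K : Type} [Field K] [Algebra ℂ K]
    {w : ℕ} {y : Fin (n + 1) → K} (hw : 0 < w) (hy : SubVar F K w y) (h : PseudoTorus y) :
    GeneralType ℂ K w := by
  by_contra hgt
  obtain ⟨G, hG, hG0, h1⟩ := h
  obtain ⟨q, b, g, hq, h2, h3, h4, t, ht⟩ := exists_torus hm hσ hgen hy hF hw hgt hG hG0
  exact ht (h1 q b g (holo_of_imm h2) h3 h4 (immAt_ne hq h2) t)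

theorem pseudoTorus_of_bounded {K : Type} [Field K] [Algebra ℂ K] {y : Fin (n + 1) → K}
    (h : PseudoBounded y) : PseudoTorus y := by
  obtain ⟨G, hG, hG0, h1⟩ := h
  refine ⟨G, hG, hG0, fun q b g hg hX hper hne t => ?_⟩
  obtain ⟨t', ht'⟩ : ∃ t', g t' ≠ g t := by
    by_contra hcon
    push Not at hcon
    obtain ⟨a, a', ha⟩ := hne
    exact ha ((hcon a).trans (hcon a').symm)
  have h2 := h1 (fun s => g (t + s • (t' - t))) (holMap_line hg _ _) (bounded_line hg hper _ _)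
    (fun z => hX _) ⟨1, 0, by
      simp only [one_smul, zero_smul, add_zero, add_sub_cancel]
      exact ht'⟩ 0
  simp only [zero_smul, add_zero] at h2
  exact h2

theorem pseudoBounded_of_brody {K : Type} [Field K] [Algebra ℂ K] {y : Fin (n + 1) → K}
    (h : PseudoBrody y) : PseudoBounded y := by
  obtain ⟨G, hG, hG0, h1⟩ := h
  exact ⟨G, hG, hG0, fun p hp _ hX hne => h1 p hp hX hne⟩

/-- hyperbolicity and subvarieties -/
theorem brody_iff (hF : ∀ i, IsForm (F i)) (hm : 0 < m) (hσ : ∀ j, SymForm F m (σ j))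
    (hgen : Generates F m σ) : BrodyHyperbolic F ↔ AllSubGeneral F := by
  refine ⟨fun h K _ _ w y hw hy => ?_, fun h =>
    brody_of_general hF (fun _ => hm) hσ (immersive_of_generates hm hσ hgen) h⟩
  by_contra hgt
  obtain ⟨i, hi⟩ := Function.ne_iff.1 hy.ne
  rw [Pi.zero_apply] at hi
  obtain ⟨p, hp, -, ⟨a, b, hab⟩, hpV, -⟩ := exists_curve hm hσ hgen hy hF hw hgt
    (Hf := X i) ⟨1, isHomogeneous_X _ _⟩ (by
      change aeval y (X i) ≠ 0
      rw [aeval_X]
      exact hi)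
  exact hab (h p hp (fun z => ⟨(hpV z).1, fun i => (hpV z).2 (F i) (hF i) (hy.mem i)⟩) a b)

end spe

end Run7.h418.R
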