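import Pool.Agent.Run7.h418.R.Main
import Pool.Agent.Run7.h418.Z.Thm
import Pool.Agent.Run7.h418.Tor2

/-!
Linear curves in complex tori have bounded derivative, and varieties which are not of general type
are covered by tori.
-/

set_option autoImplicit false

open MvPolynomial Metric Set Filter Topology LinearAlgebra.Projectivization

namespace Run7.h418.R

open Pool.Agent.Y190.OP Pool.Agent.W602.GT Pool.Agent.N155 Pool.Agent.TH182.TC

section lin

variable {n q : ℕ}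

/-- the derivative of a curve in projective space does not depend on the coordinates -/
theorem minor_eq {g h : ℂ → Fin (n + 1) → ℂ} {z : ℂ} (hg : DifferentiableAt ℂ g z)
    (hh : DifferentiableAt ℂ h z)
    (he : ∀ᶠ w in 𝓝 z, ∃ (h1 : g w ≠ 0) (h2 : h w ≠ 0),
      Projectivization.mk ℂ (g w) h1 = Projectivization.mk ℂ (h w) h2) :
    ∃ c : ℂ, (∀ k, g z k = c * h z k) ∧
      ∀ k l, g z k * deriv (fun w => g w l) z - g z l * deriv (fun w => g w k) z =
        c ^ 2 * (h z k * deriv (fun w => h w l) z - h z l * deriv (fun w => h w k) z) := by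
  obtain ⟨h01, h02, h03⟩ := he.self_of_nhds
  obtain ⟨i, hi⟩ := Function.ne_iff.1 h02
  rw [Pi.zero_apply] at hi
  have hgd : ∀ k, DifferentiableAt ℂ (fun w => g w k) z := fun k => differentiableAt_pi.1 hg k
  have hhd : ∀ k, DifferentiableAt ℂ (fun w => h w k) z := fun k => differentiableAt_pi.1 hh k
  have hm : ∀ᶠ w in 𝓝 z, ∀ k l, g w k * h w l = h w k * g w l := by
    filter_upwards [he] with w hw
    obtain ⟨h1, h2, h3⟩ := hw
    intro k l
    have h4 := (mk_eq_mk_iff_minors h1 h2).1 h3 k l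
    rw [h4, mul_comm]
  have hm0 := hm.self_of_nhds
  have hgk : ∀ k, g z k = g z i / h z i * h z k := by
    intro k
    field_simp
    have := hm0 k i
    linear_combination this
  refine ⟨g z i / h z i, hgk, fun k l => ?_⟩
  have hd : ∀ k, deriv (fun w => g w k) z * h z i + g z k * deriv (fun w => h w i) z =
      deriv (fun w => h w k) z * g z i + h z k * deriv (fun w => g w i) z := by
    intro k
    have h1 : (fun w => g w k * h w i) =ᶠ[𝓝 z] fun w => h w k * g w i := by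
      filter_upwards [hm] with w hw
      exact hw k i
    have h2 := h1.deriv_eq
    rw [deriv_fun_mul (hgd k) (hhd i), deriv_fun_mul (hhd k) (hgd i)] at h2
    exact h2
  have hk := hd k
  have hl := hd l
  rw [hgk k] at hk ⊢
  rw [hgk l] at hl ⊢
  have e1 : deriv (fun w => g w k) z = (deriv (fun w => h w k) z * g z i +
      h z k * deriv (fun w => g w i) z - g z i / h z i * h z k * deriv (fun w => h w i) z) /
      h z i := by
    rw [eq_div_iff hi]
    linear_combination hk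
  have e2 : deriv (fun w => g w l) z = (deriv (fun w => h w l) z * g z i +
      h z l * deriv (fun w => g w i) z - g z i / h z i * h z l * deriv (fun w => h w i) z) /
      h z i := by
    rw [eq_div_iff hi]
    linear_combination hl
  rw [e1, e2]
  field_simp
  ring

/-- a bound for the derivative in the direction `d` at the point `t` -/
def Bd (g : (Fin q → ℂ) → PS n) (d : Fin q → ℂ) (C : ℝ) (t : Fin q → ℂ) : Prop :=
  ∃ φ : (Fin q → ℂ) → Fin (n + 1) → ℂ, AnalyticAt ℂ φ t ∧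
    (∀ᶠ w in 𝓝 t, ∃ h : φ w ≠ 0, g w = Projectivization.mk ℂ (φ w) h) ∧
    ∀ k l, ‖φ t k * fderiv ℂ φ t d l - φ t l * fderiv ℂ φ t d k‖ ≤ C * ∑ i, ‖φ t i‖ ^ 2

theorem Bd.mono {g : (Fin q → ℂ) → PS n} {d : Fin q → ℂ} {C C' : ℝ} (hC : C ≤ C')
    {t : Fin q → ℂ} (h : Bd g d C t) : Bd g d C' t := by
  obtain ⟨φ, h1, h2, h3⟩ := h
  refine ⟨φ, h1, h2, fun k l => (h3 k l).trans ?_⟩
  exact mul_le_mul_of_nonneg_right hC (Finset.sum_nonneg fun i _ => by positivity)

theorem sum_pos_of_ne {x : Fin (n + 1) → ℂ} (hx : x ≠ 0) : 0 < ∑ i, ‖x i‖ ^ 2 := by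
  obtain ⟨i, hi⟩ := Function.ne_iff.1 hx
  rw [Pi.zero_apply] at hi
  have h1 : ‖x i‖ ^ 2 ≤ ∑ i, ‖x i‖ ^ 2 :=
    Finset.single_le_sum (f := fun k => ‖x k‖ ^ 2) (fun k _ => by positivity) (Finset.mem_univ i)
  have h2 : 0 < ‖x i‖ ^ 2 := by
    have := norm_pos_iff.2 hi
    positivity
  linarith

theorem bd_local {g : (Fin q → ℂ) → PS n} (hg : Holo g) (d t : Fin q → ℂ) :
    ∃ C, ∀ᶠ t' in 𝓝 t, Bd g d C t' := by
  obtain ⟨φ, h1, h2⟩ := hg t
  have h3 : ContinuousAt (fun s => fderiv ℂ φ s) t := h1.fderiv.continuousAt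
  have h3' : ContinuousAt (fun s => fderiv ℂ φ s d) t := h3.clm_apply continuousAt_const
  have hc : ∀ k l, ContinuousAt
      (fun s => ‖φ s k * fderiv ℂ φ s d l - φ s l * fderiv ℂ φ s d k‖) t := by
    intro k l
    have a1 : ∀ k, ContinuousAt (fun s => φ s k) t := fun k =>
      (continuousAt_pi.1 h1.continuousAt) k
    have a2 : ∀ k, ContinuousAt (fun s => fderiv ℂ φ s d k) t := fun k =>
      (continuousAt_pi.1 h3') k
    exact (((a1 k).mul (a2 l)).sub ((a1 l).mul (a2 k))).norm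
  have hs : ContinuousAt (fun s => ∑ i, ‖φ s i‖ ^ 2) t := by
    have a1 : ∀ k, ContinuousAt (fun s => φ s k) t := fun k =>
      (continuousAt_pi.1 h1.continuousAt) k
    exact tendsto_finset_sum _ fun i _ => (a1 i).norm.pow 2
  have h0 := sum_pos_of_ne h2.self_of_nhds.1
  choose c hc' using fun p : Fin (n + 1) × Fin (n + 1) =>
    (⟨_, lt_add_one (‖φ t p.1 * fderiv ℂ φ t d p.2 - φ t p.2 * fderiv ℂ φ t d p.1‖ /
      ((∑ i, ‖φ t i‖ ^ 2)))⟩ : ∃ c : ℝ, ‖φ t p.1 * fderiv ℂ φ t d p.2 -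
        φ t p.2 * fderiv ℂ φ t d p.1‖ / (∑ i, ‖φ t i‖ ^ 2) < c)
  obtain ⟨M, hM⟩ := Finite.exists_le c
  refine ⟨M, ?_⟩
  have h4 : ∀ᶠ s in 𝓝 t, ∀ p : Fin (n + 1) × Fin (n + 1),
      ‖φ s p.1 * fderiv ℂ φ s d p.2 - φ s p.2 * fderiv ℂ φ s d p.1‖ / (∑ i, ‖φ s i‖ ^ 2) < c p := by
    rw [eventually_all]
    intro p
    exact ((hc p.1 p.2).div hs h0.ne').eventually_lt_const (hc' p)
  filter_upwards [h1.eventually_analyticAt, h2.eventually_nhds, h4] with s hs1 hs2 hs3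
  refine ⟨φ, hs1, hs2, fun k l => ?_⟩
  have h5 := hs3 (k, l)
  have h6 := sum_pos_of_ne hs2.self_of_nhds.1
  have h7 := hM (k, l)
  rw [div_lt_iff₀ h6] at h5
  refine h5.le.trans ?_
  exact mul_le_mul_of_nonneg_right h7 h6.le

theorem Bd.shift {g : (Fin q → ℂ) → PS n} {d : Fin q → ℂ} {C : ℝ} {v t : Fin q → ℂ}
    (hv : ∀ z, g (z + v) = g z) (h : Bd g d C t) : Bd g d C (t + v) := by
  obtain ⟨φ, h1, h2, h3⟩ := h
  have e : t + v - v = t := add_sub_cancel_right t v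
  have hd : fderiv ℂ (fun s => φ (s - v)) (t + v) = fderiv ℂ φ t := by
    rw [fderiv_comp_sub, e]
  have hsub : Tendsto (fun s => s - v) (𝓝 (t + v)) (𝓝 t) := by
    have : ContinuousAt (fun s : Fin q → ℂ => s - v) (t + v) := by fun_prop
    rw [ContinuousAt, e] at this
    exact this
  refine ⟨fun s => φ (s - v), ?_, ?_, ?_⟩
  · rw [← e] at h1
    exact AnalyticAt.fun_comp h1 (by fun_prop)
  · filter_upwards [hsub.eventually h2] with s hs
    obtain ⟨h0, h4⟩ := hs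
    refine ⟨h0, ?_⟩
    rw [← h4]
    have := hv (s - v)
    rw [sub_add_cancel] at this
    exact this
  · simp only [hd, e]
    exact h3

/-- the periods -/
theorem per_span {b : Module.Basis (Fin (2 * q)) ℝ (Fin q → ℂ)} {g : (Fin q → ℂ) → PS n}
    (hper : ∀ z i, g (z + b i) = g z) {v : Fin q → ℂ} (hv : v ∈ Submodule.span ℤ (range b)) :
    ∀ z, g (z + v) = g z := by
  let S : AddSubgroup (Fin q → ℂ) :=
    { carrier := {v | ∀ z, g (z + v) = g z}
      zero_mem' := fun z => by rw [add_zero]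
      add_mem' := fun {u v} hu hv z => by rw [← add_assoc, hv, hu]
      neg_mem' := fun {u} hu z => by
        have := hu (z + -u)
        rw [neg_add_cancel_right] at this
        exact this.symm }
  have h1 : Submodule.span ℤ (range b) ≤ AddSubgroup.toIntSubmodule S := by
    rw [Submodule.span_le]
    rintro x ⟨i, rfl⟩
    exact fun z => hper z i
  exact h1 hv

/-- linear curves in tori have bounded derivative -/
theorem bd_torus {b : Module.Basis (Fin (2 * q)) ℝ (Fin q → ℂ)} {g : (Fin q → ℂ) → PS n}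
    (hg : Holo g) (hper : ∀ z i, g (z + b i) = g z) (d : Fin q → ℂ) : ∃ C, ∀ t, Bd g d C t := by
  have hK : IsCompact (closure (ZSpan.fundamentalDomain b)) :=
    Metric.isCompact_of_isClosed_isBounded isClosed_closure
      (ZSpan.fundamentalDomain_isBounded b).closure
  choose c hc using fun t => bd_local hg d t
  obtain ⟨T, -, hT⟩ := hK.elim_nhds_subcover (fun t => {t' | Bd g d (c t) t'}) fun t _ => hc t
  obtain ⟨C, hC⟩ : ∃ C, ∀ t ∈ T, c t ≤ C := by
    obtain ⟨C, hC⟩ := (T.image c).exists_le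
    exact ⟨C, fun t ht => hC _ (Finset.mem_image_of_mem c ht)⟩
  have h1 : ∀ t ∈ closure (ZSpan.fundamentalDomain b), Bd g d C t := by
    intro t ht
    obtain ⟨s, hs, hts⟩ := mem_iUnion₂.1 (hT ht)
    exact Bd.mono (hC s hs) hts
  refine ⟨C, fun t => ?_⟩
  have h2 := h1 _ (subset_closure (ZSpan.fract_mem_fundamentalDomain b t))
  have h3 := h2.shift (per_span hper (ZSpan.floor b t).2)
  rw [ZSpan.fract_apply, sub_add_cancel] at h3
  exact h3

theorem holMap_line {g : (Fin q → ℂ) → PS n} (hg : Holo g) (a d : Fin q → ℂ) :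
    HolMap fun s : ℂ => g (a + s • d) := by
  set γ : ℂ → Fin q → ℂ := fun s => a + s • d with hγ
  have hγa : ∀ s, AnalyticAt ℂ γ s := by
    intro s
    rw [hγ]
    fun_prop
  intro s
  obtain ⟨φ, h1, h2⟩ := hg (γ s)
  have h3 : AnalyticAt ℂ (fun s => φ (γ s)) s := AnalyticAt.fun_comp h1 (hγa s)
  have h4 : ∀ᶠ s' in 𝓝 s, ∃ h : φ (γ s') ≠ 0, g (γ s') = Projectivization.mk ℂ (φ (γ s')) h :=
    (hγa s).continuousAt.eventually h2
  have h5 : ∀ᶠ s' in 𝓝 s, AnalyticAt ℂ (fun s => φ (γ s)) s' := h3.eventually_analyticAt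
  obtain ⟨V, hV, hVo, hsV⟩ := _root_.mem_nhds_iff.1 (h4.and h5)
  refine ⟨V, fun s => φ (γ s), hVo, hsV, fun s' hs' => ?_, fun s' hs' => (hV hs').1⟩
  exact (hV hs').2.differentiableAt.differentiableWithinAt

theorem bounded_line {b : Module.Basis (Fin (2 * q)) ℝ (Fin q → ℂ)} {g : (Fin q → ℂ) → PS n}
    (hg : Holo g) (hper : ∀ z i, g (z + b i) = g z) (a d : Fin q → ℂ) :
    BoundedDer fun s : ℂ => g (a + s • d) := by
  obtain ⟨C, hC⟩ := bd_torus hg hper d
  refine ⟨C, fun V h hV hh hhg z hz k l => ?_⟩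
  obtain ⟨φ, h1, h2, h3⟩ := hC (a + z • d)
  set γ : ℂ → Fin q → ℂ := fun s => a + s • d with hγ
  have hγa : ∀ s, AnalyticAt ℂ γ s := by
    intro s
    rw [hγ]
    fun_prop
  have hγd : HasDerivAt γ d z := by
    have := ((hasDerivAt_id z).smul_const d).const_add a
    rw [one_smul] at this
    exact this
  have h4 : ∀ᶠ s' in 𝓝 z, ∃ h : φ (γ s') ≠ 0, g (γ s') = Projectivization.mk ℂ (φ (γ s')) h :=
    (hγa z).continuousAt.eventually h2
  have h5 : HasDerivAt (fun s => φ (γ s)) (fderiv ℂ φ (γ z) d) z :=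
    (h1.differentiableAt.hasFDerivAt.comp_hasDerivAt z hγd)
  have h6 : ∀ k, deriv (fun s => φ (γ s) k) z = fderiv ℂ φ (γ z) d k := fun k =>
    (hasDerivAt_pi.1 h5 k).deriv
  obtain ⟨c, hc1, hc2⟩ := minor_eq (z := z) (g := h) (h := fun s => φ (γ s))
    (hh.differentiableAt (hV.mem_nhds hz)) h5.differentiableAt (by
      filter_upwards [hV.mem_nhds hz, h4] with w hw hw'
      obtain ⟨a1, a2⟩ := hhg w hw
      obtain ⟨a3, a4⟩ := hw'
      exact ⟨a1, a3, by rw [← a2, ← a4]⟩)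
  rw [hc2 k l, h6, h6, norm_mul, norm_pow]
  have h7 := mul_le_mul_of_nonneg_left (h3 k l) (by positivity : (0 : ℝ) ≤ ‖c‖ ^ 2)
  refine h7.trans (le_of_eq ?_)
  have h8 : ∑ k, ‖h z k‖ ^ 2 = ‖c‖ ^ 2 * ∑ k, ‖φ (γ z) k‖ ^ 2 := by
    rw [Finset.mul_sum]
    refine Finset.sum_congr rfl fun k _ => ?_
    rw [hc1 k, norm_mul, mul_pow]
  rw [h8]
  ring

end lin

section cov

variable {n : ℕ} {ι κ : Type} {F : ι → MvPolynomial (Fin (n + 1)) ℂ} {m : ℕ}
  {σ : κ → (Fin (n + 1) → ℂ) → (Fin (n + 1) → ℂ) → ℂ}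

/-- a subvariety which is not of general type is covered by immersed tori -/
theorem exists_torus [Fintype κ] (hm : 0 < m) (hσ : ∀ j, SymForm F m (σ j))
    (hgen : Generates F m σ) {K : Type} [Field K] [Algebra ℂ K] {w : ℕ} {y : Fin (n + 1) → K}
    (hy : SubVar F K w y) (hF : ∀ i, IsForm (F i)) (hw0 : 0 < w) (hgt : ¬ GeneralType ℂ K w)
    {Hf : MvPolynomial (Fin (n + 1)) ℂ} (hHf : IsForm Hf) (hHf0 : val y Hf ≠ 0) :
    ∃ (q : ℕ) (b : Module.Basis (Fin (2 * q)) ℝ (Fin q → ℂ)) (g : (Fin q → ℂ) → PS n), 0 < q ∧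
      (∀ t, ImmAt g t) ∧ (∀ t, (g t).rep ∈ VarPts ℂ y) ∧ (∀ t i, g (t + b i) = g t) ∧
      ∃ t, eval (g t).rep Hf ≠ 0 := by
  obtain ⟨p, hp, hpb, hne, hpV, z, hz⟩ :=
    exists_curve hm hσ hgen hy hF hw0 hgt hHf hHf0
  have hpF : ∀ z, (p z).rep ∈ Cone F := fun z =>
    ⟨(hpV z).1, fun i => (hpV z).2 (F i) (hF i) (hy.mem i)⟩
  obtain ⟨q, hq, ⟨b, g, d, h1, h2, h3, h4, h5⟩, -, -⟩ :=
    Z.thm_torus hF (fun _ => hm) hσ (immersive_of_generates hm hσ hgen) hp hpF hpb hne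
  refine ⟨q, b, g, hq, h1, fun t => ⟨(g t).rep_nonzero, fun G hG hG0 => ?_⟩, h3, z • d, ?_⟩
  · rw [val_ev]
    refine h5 G hG (fun z => ?_) t
    rw [← val_ev]
    exact (hpV z).2 G hG hG0
  · rw [h4]
    exact hz

end cov

end Run7.h418.R
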