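import Pool.Agent.Run7.h418.R.Geo

/-!
Algebraic vector fields and their lifts to polynomial vector fields.
-/

set_option autoImplicit false

open MvPolynomial

namespace Run7.h418.R

open Pool.Agent.W602.GT FF

section stable

variable {M : Type} [CommRing M] [Algebra ℂ M]

theorem der_adjoin (G : Derivation ℂ M M) {S : Set M} {B : Subalgebra ℂ M} (hS : S ⊆ B)
    (h : ∀ s ∈ S, G s ∈ B) {x : M} (hx : x ∈ Algebra.adjoin ℂ S) : x ∈ B ∧ G x ∈ B := by
  induction hx using Algebra.adjoin_induction with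
  | mem x hx => exact ⟨hS hx, h x hx⟩
  | algebraMap r => exact ⟨B.algebraMap_mem r, by
      rw [Derivation.map_algebraMap]
      exact B.zero_mem⟩
  | add x y _ _ hx hy => exact ⟨B.add_mem hx.1 hy.1, by
      rw [map_add]
      exact B.add_mem hx.2 hy.2⟩
  | mul x y _ _ hx hy => exact ⟨B.mul_mem hx.1 hy.1, by
      rw [Derivation.leibniz, smul_eq_mul, smul_eq_mul]
      exact B.add_mem (B.mul_mem hx.1 hy.2) (B.mul_mem hy.1 hx.2)⟩

/-- lifts of vector fields to polynomial vector fields -/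
theorem exists_lift (G : Derivation ℂ M M) {S : Set M} (hS : S.Finite)
    (h : ∀ s ∈ S, G s ∈ Algebra.adjoin ℂ S) :
    ∃ (τ : Type) (_ : Fintype τ) (θ : MvPolynomial τ ℂ →ₐ[ℂ] M) (E : Dr τ),
      (∀ p, θ (E p) = G (θ p)) ∧ ∀ x ∈ Algebra.adjoin ℂ S, ∃ p, θ p = x := by
  classical
  have hfin := hS.fintype
  let θ : MvPolynomial S ℂ →ₐ[ℂ] M := aeval (Subtype.val : S → M)
  have hθ : ∀ x ∈ Algebra.adjoin ℂ S, ∃ p, θ p = x := by
    intro x hx
    have h1 : Algebra.adjoin ℂ S = θ.range := Algebra.adjoin_eq_range ℂ S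
    rw [h1] at hx
    exact hx
  choose g hg using fun s : S => hθ _ (h s s.2)
  refine ⟨S, hfin, θ, mkDerivation ℂ g, fun p => ?_, hθ⟩
  induction p using MvPolynomial.induction_on with
  | C c =>
    have h1 : θ (C c) = algebraMap ℂ M c := by
      change aeval (Subtype.val : S → M) (C c) = _
      rw [aeval_C]
    rw [h1, Derivation.map_algebraMap, ← MvPolynomial.algebraMap_eq, Derivation.map_algebraMap,
      map_zero]
  | add p q hp hq => rw [map_add, map_add, map_add, map_add, hp, hq]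
  | mul_X p l hp =>
    have h1 : θ (X l) = l := by
      change aeval (Subtype.val : S → M) (X l) = _
      rw [aeval_X]
    rw [Derivation.leibniz, mkDerivation_X, smul_eq_mul, smul_eq_mul, map_add, map_mul, map_mul,
      map_mul, Derivation.leibniz, hp, hg, h1, smul_eq_mul, smul_eq_mul]

end stable

section field

variable {K : Type} [Field K] [Algebra ℂ K]

/-- finitely generated algebras which are stable under derivations -/
theorem exists_stable {ε : Type} [Finite ε] (D : ε → Derivation ℂ K K) {S0 A0 : Set K}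
    (hS0 : S0.Finite) (hA0 : A0.Finite) (hgen : IntermediateField.adjoin ℂ S0 = ⊤) :
    ∃ S : Set K, S.Finite ∧ A0 ⊆ S ∧ ∀ i, ∀ s ∈ S, D i s ∈ Algebra.adjoin ℂ S := by
  classical
  cases nonempty_fintype ε
  set S1 : Set K := S0 ∪ A0 with hS1
  have hS1f : S1.Finite := hS0.union hA0
  have hfin : Fintype S1 := hS1f.fintype
  have hdiv : ∀ x : K, ∃ r t : K, r ∈ Algebra.adjoin ℂ S1 ∧ t ∈ Algebra.adjoin ℂ S1 ∧ t ≠ 0 ∧
      x = r / t := by
    intro x
    have hx : x ∈ IntermediateField.adjoin ℂ S1 := by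
      have h1 : IntermediateField.adjoin ℂ S0 ≤ IntermediateField.adjoin ℂ S1 :=
        IntermediateField.adjoin.mono _ _ _ Set.subset_union_left
      apply h1
      rw [hgen]
      trivial
    obtain ⟨r, hr, t, ht, he⟩ := IntermediateField.mem_adjoin_iff_div.1 hx
    by_cases h0 : t = 0
    · refine ⟨0, 1, zero_mem _, one_mem _, one_ne_zero, ?_⟩
      rw [he, h0, div_zero, zero_div]
    · exact ⟨r, t, hr, ht, h0, he⟩
  choose r t hr ht ht0 he using fun p : ε × S1 => hdiv (D p.1 p.2)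
  set h : K := ∏ p, t p with hh
  have hh0 : h ≠ 0 := Finset.prod_ne_zero_iff.2 fun p _ => ht0 p
  have hhm : h ∈ Algebra.adjoin ℂ S1 := prod_mem fun p _ => ht p
  set S : Set K := insert h⁻¹ S1 with hS
  have hS1S : S1 ⊆ S := Set.subset_insert _ _
  have hmono : Algebra.adjoin ℂ S1 ≤ Algebra.adjoin ℂ S := Algebra.adjoin_mono hS1S
  have hhinv : h⁻¹ ∈ Algebra.adjoin ℂ S := Algebra.subset_adjoin (Set.mem_insert _ _)
  have h1 : ∀ i, ∀ s ∈ S1, D i s ∈ Algebra.adjoin ℂ S := by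
    intro i s hs
    have h2 := he (i, ⟨s, hs⟩)
    simp only at h2
    have h3 : D i s = r (i, ⟨s, hs⟩) * (h⁻¹ * ∏ p ∈ Finset.univ.erase (i, ⟨s, hs⟩), t p) := by
      have h4 := Finset.mul_prod_erase Finset.univ t (Finset.mem_univ (i, ⟨s, hs⟩))
      rw [h2, hh, ← h4]
      have h5 := ht0 (i, ⟨s, hs⟩)
      have h6 : ∏ p ∈ Finset.univ.erase (i, (⟨s, hs⟩ : S1)), t p ≠ 0 :=
        Finset.prod_ne_zero_iff.2 fun p _ => ht0 p
      field_simp
    rw [h3]
    exact mul_mem (hmono (hr _)) (mul_mem hhinv (prod_mem fun p _ => hmono (ht p)))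
  refine ⟨S, hS1f.insert _, fun x hx => hS1S (Or.inr hx), fun i s hs => ?_⟩
  rcases hs with rfl | hs
  · have h2 := (der_adjoin (D i) (B := Algebra.adjoin ℂ S)
      (fun x hx => Algebra.subset_adjoin (hS1S hx)) (h1 i) hhm).2
    rw [Derivation.leibniz_inv, smul_eq_mul]
    exact mul_mem (neg_mem (pow_mem hhinv 2)) h2
  · exact h1 i s hs

/-- points outside of hypersurfaces -/
theorem exists_zero {τ : Type} [Finite τ] {I : Ideal (MvPolynomial τ ℂ)} (hprime : I.IsPrime)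
    {P : MvPolynomial τ ℂ} (hP : P ∉ I) : ∃ a : τ → ℂ, (∀ G ∈ I, eval a G = 0) ∧ eval a P ≠ 0 := by
  by_contra hcon
  push Not at hcon
  apply hP
  rw [← hprime.radical, ← vanishingIdeal_zeroLocus_eq_radical (K := ℂ) (k := ℂ) I]
  intro a ha
  have h2 := hcon a fun G hG => by
    have h3 := ha G hG
    rwa [MvPolynomial.aeval_eq_eval] at h3
  rw [MvPolynomial.aeval_eq_eval]
  exact h2

end field

section alg

variable {K : Type} [Field K] [Algebra ℂ K] {w n m : ℕ} {ι κ : Type} [Fintype κ]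
  {F : ι → MvPolynomial (Fin (n + 1)) ℂ}
  {σ : κ → (Fin (n + 1) → ℂ) → (Fin (n + 1) → ℂ) → ℂ} {y : Fin (n + 1) → K}

/-- **The polynomial vector field of a variety which is not of general type.** -/
theorem exists_alg (hF : ∀ i, IsForm (F i)) (hm : 0 < m) (hσ : ∀ j, SymForm F m (σ j))
    (hgen : Generates F m σ) {i0 : Fin (n + 1)} (hy : y i0 = 1) (hmem : ∀ i, aeval y (F i) = 0)
    (hcy : coords ℂ y = ⊤) (hw : Algebra.trdeg ℂ K = w) (hw0 : 0 < w)
    (hgt : ¬ GeneralType ℂ K w)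
    {P : κ → MvPolynomial (Fin (n + 1) ⊕ Fin (n + 1)) ℂ} {H : κ → MvPolynomial (Fin (n + 1)) ℂ}
    (hrep : ∀ j, IsRep F m (σ j) (P j) (H j)) (hH : ∀ j, aeval y (H j) ≠ 0)
    {Hf : MvPolynomial (Fin (n + 1)) ℂ} (hHf : aeval y Hf ≠ 0) :
    ∃ (τ : Type) (_ : Fintype τ) (I : Ideal (MvPolynomial τ ℂ)) (E : Dr τ)
      (Y : Fin (n + 1) → MvPolynomial τ ℂ) (W : κ → MvPolynomial τ ℂ) (a : τ → ℂ),
      (∀ G ∈ I, E G ∈ I) ∧ (∀ G ∈ I, eval a G = 0) ∧
      (∀ Q : MvPolynomial (Fin (n + 1)) ℂ, aeval y Q = 0 → aeval Y Q ∈ I) ∧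
      (∃ k, eval a (E (Y k)) ≠ 0) ∧ (∀ j, E (W j) ∈ I) ∧
      (∀ j, W j * aeval Y (H j) - aeval (Sum.elim Y fun k => E (Y k)) (P j) ∈ I) ∧
      (∀ j, eval a (aeval Y (H j)) ≠ 0) ∧ eval a (aeval Y Hf) ≠ 0 := by
  classical
  obtain ⟨J, D, b, ⟨k0, hk0⟩, hfirst⟩ := exists_geo hF hm hσ hgen hy hmem hcy hw hw0 hgt hrep hH
  set G := Gd J D b with hG
  -- a stable algebra
  have hgenK : IntermediateField.adjoin ℂ
      (Set.range fun p : Fin (n + 1) × Fin (n + 1) => y p.1 / y p.2) = ⊤ := by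
    rw [← top_le_iff, ← hcy]
    refine IntermediateField.adjoin.mono _ _ _ ?_
    rintro x ⟨i, j, -, rfl⟩
    exact ⟨(i, j), rfl⟩
  obtain ⟨S, hSf, hAS, hSD⟩ := exists_stable D (Set.finite_range _)
    (A0 := (Set.range y ∪ Set.range fun j => (aeval y (H j))⁻¹) ∪
      ⋃ p : Fin w × Fin w, (fun μ => coeff μ (b p.1 p.2)) '' (b p.1 p.2).support)
    (((Set.finite_range _).union (Set.finite_range _)).union
      (Set.finite_iUnion fun p => (Finset.finite_toSet _).image _)) hgenK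
  let Ck : K →ₐ[ℂ] MvPolynomial (Fin w) K := IsScalarTower.toAlgHom ℂ K _
  have hCk : ∀ c, Ck c = C c := fun c => rfl
  set T : Set (MvPolynomial (Fin w) K) := (Ck '' S) ∪ Set.range X with hT
  have hTf : T.Finite := (hSf.image _).union (Set.finite_range _)
  have hCT : ∀ c ∈ Algebra.adjoin ℂ S, C c ∈ Algebra.adjoin ℂ T := by
    intro c hc
    have h1 : C c ∈ (Algebra.adjoin ℂ S).map Ck := ⟨c, hc, rfl⟩
    rw [AlgHom.map_adjoin] at h1
    exact Algebra.adjoin_mono Set.subset_union_left h1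
  have hXT : ∀ c, (X c : MvPolynomial (Fin w) K) ∈ Algebra.adjoin ℂ T := fun c =>
    Algebra.subset_adjoin (Or.inr ⟨c, rfl⟩)
  have hvT : ∀ c, (vj J c : MvPolynomial (Fin w) K) ∈ Algebra.adjoin ℂ T := by
    intro c
    unfold vj
    split_ifs
    · exact hXT c
    · exact zero_mem _
  have hbT : ∀ i c, aeval (vj J) (b i c) ∈ Algebra.adjoin ℂ T := by
    intro i c
    rw [aeval_def, eval₂_eq']
    refine sum_mem fun μ hμ => mul_mem ?_ (prod_mem fun l _ => pow_mem (hvT l) _)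
    refine hCT _ (Algebra.subset_adjoin (hAS (Or.inr ?_)))
    exact Set.mem_iUnion.2 ⟨(i, c), μ, hμ, rfl⟩
  have hTG : ∀ s ∈ T, G s ∈ Algebra.adjoin ℂ T := by
    rintro s (⟨s, hs, rfl⟩ | ⟨c, rfl⟩)
    · rw [hCk, hG, Gd_C]
      exact sum_mem fun i _ => mul_mem (hXT i) (hCT _ (hSD i s hs))
    · rw [hG, Gd_X]
      exact neg_mem (sum_mem fun i _ => mul_mem (hXT i) (hbT i c))
  obtain ⟨τ, hτ, θ, E, hθE, hθ⟩ := exists_lift G hTf hTG
  have hyT : ∀ k, (C (y k) : MvPolynomial (Fin w) K) ∈ Algebra.adjoin ℂ T := fun k =>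
    hCT _ (Algebra.subset_adjoin (hAS (Or.inl (Or.inl ⟨k, rfl⟩))))
  choose Y hY using fun k => hθ _ (hyT k)
  have hHT : ∀ j, (C (aeval y (H j))⁻¹ : MvPolynomial (Fin w) K) ∈ Algebra.adjoin ℂ T := fun j =>
    hCT _ (Algebra.subset_adjoin (hAS (Or.inl (Or.inr ⟨j, rfl⟩))))
  have hadj : ∀ x ∈ Algebra.adjoin ℂ T, G x ∈ Algebra.adjoin ℂ T := fun x hx =>
    (der_adjoin G Algebra.subset_adjoin hTG hx).2
  have haev : ∀ {υ : Type} (f : υ → MvPolynomial (Fin w) K), (∀ u, f u ∈ Algebra.adjoin ℂ T) →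
      ∀ Q : MvPolynomial υ ℂ, aeval f Q ∈ Algebra.adjoin ℂ T := by
    intro υ f hf Q
    induction Q using MvPolynomial.induction_on with
    | C c =>
      rw [aeval_C]
      exact (Algebra.adjoin ℂ T).algebraMap_mem c
    | add p q hp hq => rw [map_add]; exact add_mem hp hq
    | mul_X p l hp => rw [map_mul, aeval_X]; exact mul_mem hp (hf l)
  have hWT : ∀ j, C (aeval y (H j))⁻¹ *
      aeval (Sum.elim (fun k => C (y k)) fun k => G (C (y k))) (P j) ∈ Algebra.adjoin ℂ T := by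
    intro j
    refine mul_mem (hHT j) (haev _ (fun u => ?_) _)
    rcases u with k | k
    · exact hyT k
    · exact hadj _ (hyT k)
  choose W hW using fun j => hθ _ (hWT j)
  have hθY : ∀ Q : MvPolynomial (Fin (n + 1)) ℂ, θ (aeval Y Q) = C (aeval y Q) := by
    intro Q
    have h1 := comp_aeval_apply (R := ℂ) Y θ Q
    have h2 := comp_aeval_apply (R := ℂ) y Ck Q
    rw [h1]
    refine Eq.trans ?_ h2.symm
    congr 1
    congr 1
    funext k
    exact hY k
  have hθP : ∀ j, θ (aeval (Sum.elim Y fun k => E (Y k)) (P j)) =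
      aeval (Sum.elim (fun k => C (y k)) fun k => G (C (y k))) (P j) := by
    intro j
    have h1 := comp_aeval_apply (R := ℂ) (Sum.elim Y fun k => E (Y k)) θ (P j)
    rw [h1]
    congr 1
    congr 1
    funext u
    rcases u with k | k
    · exact hY k
    · change θ (E (Y k)) = G (C (y k))
      rw [hθE, hY]
  set I : Ideal (MvPolynomial τ ℂ) := RingHom.ker θ.toRingHom with hI
  have hprime : I.IsPrime := RingHom.ker_isPrime _
  have hmI : ∀ p, p ∈ I ↔ θ p = 0 := fun p => Iff.rfl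
  set P0 : MvPolynomial τ ℂ := E (Y k0) * aeval Y Hf * ∏ j, aeval Y (H j) with hP0
  have hP0' : P0 ∉ I := by
    rw [hmI, hP0, map_mul, map_mul, map_prod, hθE, hY, hθY]
    simp only [hθY]
    refine mul_ne_zero (mul_ne_zero hk0 ?_) (Finset.prod_ne_zero_iff.2 fun j _ => ?_)
    · rw [Ne, C_eq_zero]
      exact hHf
    · rw [Ne, C_eq_zero]
      exact hH j
  obtain ⟨a, ha, haP⟩ := exists_zero hprime hP0'
  rw [hP0, map_mul, map_mul, map_prod] at haP
  obtain ⟨h1, h2⟩ := ne_zero_and_ne_zero_of_mul haP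
  obtain ⟨h3, h4⟩ := ne_zero_and_ne_zero_of_mul h1
  refine ⟨τ, hτ, I, E, Y, W, a, fun p hp => ?_, ha, fun Q hQ => ?_, ⟨k0, h3⟩, fun j => ?_,
    fun j => ?_, fun j => (Finset.prod_ne_zero_iff.1 h2) j (Finset.mem_univ j), h4⟩
  · rw [hmI] at hp ⊢
    rw [hθE, hp, map_zero]
  · rw [hmI, hθY, hQ, C_0]
  · rw [hmI, hθE, hW, hfirst]
  · rw [hmI, map_sub, map_mul, hW, hθY, hθP]
    have h5 : (C (aeval y (H j))⁻¹ * C (aeval y (H j)) : MvPolynomial (Fin w) K) = 1 := by
      rw [← C_mul, inv_mul_cancel₀ (hH j), C_1]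
    linear_combination (aeval (Sum.elim (fun k => C (y k)) fun k => G (C (y k))) (P j)) * h5

end alg

end Run7.h418.R
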