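import Pool.Agent.Run7.h418.R.Ex
import Pool.Agent.Run7.h418.R.Lft
import Pool.Agent.N155.L.SDefs
import Pool.Agent.Y190.OP.Zf
import Pool.Agent.Run7.h418.Thm

/-!
Varieties which are not of general type are covered by entire curves of bounded derivative.
-/

set_option autoImplicit false

open MvPolynomial Metric Set Filter Topology LinearAlgebra.Projectivization

namespace Run7.h418.R

open Pool.Agent.Y190.OP Pool.Agent.W602.GT Pool.Agent.N155 FF

section imm

variable {n m : ℕ} {ι ι' κ : Type} {F : ι → MvPolynomial (Fin (n + 1)) ℂ}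
  {F' : ι' → MvPolynomial (Fin (n + 1)) ℂ}
  {σ : κ → (Fin (n + 1) → ℂ) → (Fin (n + 1) → ℂ) → ℂ}
  {s : (Fin (n + 1) → ℂ) → (Fin (n + 1) → ℂ) → ℂ}

theorem exists_lf {x v : Fin (n + 1) → ℂ} (hx : x ≠ 0) (hv : ∀ c : ℂ, v ≠ c • x) :
    ∃ u : Fin (n + 1) → ℂ, ∑ k, u k * x k = 0 ∧ ∑ k, u k * v k ≠ 0 := by
  classical
  obtain ⟨i, hi⟩ := Function.ne_iff.1 hx
  rw [Pi.zero_apply] at hi
  obtain ⟨k, hk⟩ := Function.ne_iff.1 (hv (v i / x i))
  rw [Pi.smul_apply, smul_eq_mul] at hk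
  set u : Fin (n + 1) → ℂ := fun l => (if l = k then 1 else 0) - (if l = i then x k / x i else 0)
    with hu
  have h1 : ∀ w : Fin (n + 1) → ℂ, ∑ l, u l * w l = w k - x k / x i * w i := by
    intro w
    simp only [hu, _root_.sub_mul, ite_mul, one_mul, zero_mul, Finset.sum_sub_distrib,
      Finset.sum_ite_eq', Finset.mem_univ, if_true]
  refine ⟨u, ?_, ?_⟩
  · rw [h1]
    field_simp
    ring
  · rw [h1]
    intro h
    apply hk
    field_simp at h ⊢
    linear_combination h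

/-- generating families are immersive -/
theorem immersive_of_generates [Fintype κ] (hm : 0 < m) (hσ : ∀ j, SymForm F m (σ j))
    (hgen : Generates F m σ) : Immersive F σ := by
  intro x hx v w hTv hTw hv hw
  have hx0 := (mem_cone.1 hx).1
  obtain ⟨u, hux, huv, huw⟩ : ∃ u : Fin (n + 1) → ℂ, ∑ k, u k * x k = 0 ∧ ∑ k, u k * v k ≠ 0 ∧
      ∑ k, u k * w k ≠ 0 := by
    obtain ⟨u, hu1, hu2⟩ := exists_lf hx0 hv
    obtain ⟨u', hu1', hu2'⟩ := exists_lf hx0 hw
    by_cases h1 : ∑ k, u k * w k = 0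
    · by_cases h2 : ∑ k, u' k * v k = 0
      · refine ⟨u + u', ?_, ?_, ?_⟩
        · simp only [Pi.add_apply, add_mul, Finset.sum_add_distrib, hu1, hu1', add_zero]
        · simp only [Pi.add_apply, add_mul, Finset.sum_add_distrib, h2, add_zero]
          exact hu2
        · simp only [Pi.add_apply, add_mul, Finset.sum_add_distrib, h1, zero_add]
          exact hu2'
      · exact ⟨u', hu1', h2, hu2'⟩
    · exact ⟨u, hu1, hu2, h1⟩
  set Q : MvPolynomial (Fin (n + 1)) ℂ := (∑ k, C (u k) * X k) ^ m with hQ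
  have hQe : ∀ v' : Fin (n + 1) → ℂ, eval v' Q = (∑ k, u k * v' k) ^ m := by
    intro v'
    rw [hQ, map_pow, map_sum]
    simp only [map_mul, eval_C, eval_X]
  obtain ⟨a, ha⟩ := hgen x hx Q (by
    have h1 : (∑ k, C (u k) * X k : MvPolynomial (Fin (n + 1)) ℂ).IsHomogeneous 1 :=
      IsHomogeneous.sum _ _ _ fun k _ => by
        have := (isHomogeneous_C (Fin (n + 1)) (u k)).mul (isHomogeneous_X ℂ k)
        rwa [zero_add] at this
    have := h1.pow m
    rwa [one_mul] at this) (fun v' c => by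
      rw [hQe, hQe]
      congr 1
      have h1 : ∀ k, u k * (v' + c • x) k = u k * v' k + c * (u k * x k) := fun k => by
        rw [Pi.add_apply, Pi.smul_apply, smul_eq_mul]
        ring
      simp only [h1, Finset.sum_add_distrib]
      rw [← Finset.mul_sum, hux, mul_zero, add_zero])
  by_contra hcon
  push Not at hcon
  have hd : ∀ j, HasDerivAt (fun t : ℂ => σ j x (v + t • w)) 0 0 := by
    intro j
    obtain ⟨P, H, hH, hrep⟩ := (hσ j).alg x hx
    have h2 : (fun t : ℂ => σ j x (v + t • w)) = fun t =>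
        eval (Sum.elim x (v + t • w)) P / eval x H := by
      funext t
      exact hrep _ hx hH _ (hTv.add (hTw.smul t))
    have h3 := hasDerivAt_eval' (γ := fun t : ℂ => Sum.elim x (v + t • w))
      (γ' := Sum.elim 0 w) (z := 0) (fun l => by
        rcases l with k | k
        · exact hasDerivAt_const _ _
        · have := ((hasDerivAt_id (0 : ℂ)).mul_const (w k)).const_add (v k)
          simpa using this) P
    have h4 : DifferentiableAt ℂ (fun t : ℂ => σ j x (v + t • w)) 0 := by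
      rw [h2]
      exact (h3.div_const _).differentiableAt
    have h5 := h4.hasDerivAt
    rwa [hcon j] at h5
  have h1 : HasDerivAt (fun t : ℂ => ∑ j, a j * σ j x (v + t • w)) 0 0 := by
    have h2 := HasDerivAt.fun_sum (u := Finset.univ) fun j _ => (hd j).const_mul (a j)
    simpa using h2
  have h2 : (fun t : ℂ => ∑ j, a j * σ j x (v + t • w)) =
      fun t => (∑ k, u k * v k + t * ∑ k, u k * w k) ^ m := by
    funext t
    rw [ha _ (hTv.add (hTw.smul t)), hQe]
    congr 1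
    have h3 : ∀ k, u k * (v + t • w) k = u k * v k + t * (u k * w k) := fun k => by
      rw [Pi.add_apply, Pi.smul_apply, smul_eq_mul]
      ring
    simp only [h3, Finset.sum_add_distrib]
    rw [← Finset.mul_sum]
  have h3 : HasDerivAt (fun t : ℂ => (∑ k, u k * v k + t * ∑ k, u k * w k) ^ m)
      (m * (∑ k, u k * v k) ^ (m - 1) * ∑ k, u k * w k) 0 := by
    have h4 := (((hasDerivAt_id (0 : ℂ)).mul_const (∑ k, u k * w k)).const_add
      (∑ k, u k * v k)).fun_pow m
    simpa using h4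
  rw [h2] at h1
  have h4 := h1.unique h3
  exact mul_ne_zero (mul_ne_zero (Nat.cast_ne_zero.2 hm.ne') (pow_ne_zero _ huv)) huw h4.symm

theorem cone_mono (h : ∀ i, ∃ i', F' i' = F i) {x : Fin (n + 1) → ℂ} (hx : x ∈ Cone F') :
    x ∈ Cone F := by
  rw [mem_cone] at hx ⊢
  refine ⟨hx.1, fun i => ?_⟩
  obtain ⟨i', hi'⟩ := h i
  rw [← hi']
  exact hx.2 i'

theorem tan_mono (h : ∀ i, ∃ i', F' i' = F i) {x v : Fin (n + 1) → ℂ} (hv : Tan F' x v) :
    Tan F x v := by
  intro i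
  obtain ⟨i', hi'⟩ := h i
  rw [← hi']
  exact hv i'

theorem symForm_mono (h : ∀ i, ∃ i', F' i' = F i) (hs : SymForm F m s) : SymForm F' m s where
  twist x hx v hv c a hc := hs.twist x (cone_mono h hx) v (tan_mono h hv) c a hc
  deg x hx v hv c := hs.deg x (cone_mono h hx) v (tan_mono h hv) c
  alg x hx := by
    obtain ⟨P, H, hH, hrep⟩ := hs.alg x (cone_mono h hx)
    exact ⟨P, H, hH, fun x' hx' hH' v hv =>
      hrep x' (cone_mono h hx') hH' v (tan_mono h hv)⟩

theorem gen_mono [Fintype κ] (h : ∀ i, ∃ i', F' i' = F i) (hs : Generates F m σ) :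
    Generates F' m σ := by
  intro x hx Q hQ hinv
  obtain ⟨a, ha⟩ := hs x (cone_mono h hx) Q hQ hinv
  exact ⟨a, fun v hv => ha v (tan_mono h hv)⟩

end imm

section bro

variable {n : ℕ} {ι κ : Type} {F : ι → MvPolynomial (Fin (n + 1)) ℂ}
  {σ : κ → (Fin (n + 1) → ℂ) → (Fin (n + 1) → ℂ) → ℂ} {m : κ → ℕ} {c : κ → ℂ}

/-- curves with constant values of the symmetric differentials in projective space -/
theorem exists_proj [Finite κ] (hF : ∀ i, IsForm (F i)) (hσ : ∀ j, SymForm F (m j) (σ j))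
    (hm : ∀ j, 0 < m j) (him : Immersive F σ) {φ : ℂ → Mat (n + 1)}
    (hφ : Sol (Ep F σ c) univ φ) : ∃ p : ℂ → ℙ ℂ (Fin (n + 1) → ℂ), HolMap p ∧
      BoundedDer p ∧ (∀ z, (p z).rep ∈ Cone F) ∧ ∀ z, Phi (p z).rep = φ z := by
  obtain ⟨G, hG, hG0, hGφ⟩ : ∃ G : ℂ → Fin (n + 1) → ℂ, Differentiable ℂ G ∧ (∀ z, G z ≠ 0) ∧
      ∀ z, φ z = Phi (G z) := zero_free hφ.1
  obtain ⟨C, hC⟩ := exists_bound hσ hm him c
  have hrep : ∀ z, Phi (Projectivization.mk ℂ (G z) (hG0 z)).rep = φ z := by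
    intro z
    obtain ⟨a, ha⟩ := Projectivization.exists_smul_eq_mk_rep ℂ (G z) (hG0 z)
    rw [← ha, hGφ]
    exact Phi_smul a.ne_zero _
  have hdiag : ∀ z i, φ z i i ≠ 0 → G z i ≠ 0 := by
    intro z i hi
    rw [hGφ, Phi_diag_ne (hG0 z)] at hi
    exact hi
  refine ⟨fun z => Projectivization.mk ℂ (G z) (hG0 z), fun z => ⟨univ, G, isOpen_univ,
    mem_univ z, hG.differentiableOn, fun w _ => ⟨hG0 w, rfl⟩⟩, ?_, fun z => ?_, hrep⟩
  · refine ⟨2 * |C|, fun V g hV hg hgp z hz k l => ?_⟩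
    obtain ⟨i, hi, hiK⟩ := exists_max (hφ.1.mem_PM (mem_univ z))
    have hgφ : ∀ w ∈ V, g w ≠ 0 ∧ φ w = Phi (g w) := by
      intro w hw
      obtain ⟨h0, he⟩ := hgp w hw
      refine ⟨h0, ?_⟩
      obtain ⟨a, ha⟩ := (Projectivization.mk_eq_mk_iff' ℂ _ _ (hG0 w) h0).1 he
      have ha0 : a ≠ 0 := by
        rintro rfl
        rw [zero_smul] at ha
        exact hG0 w ha.symm
      rw [hGφ, ← ha]
      exact Phi_smul ha0 _
    set x : ℂ → Fin (n + 1) → ℂ := fun w => chart i (φ w) with hx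
    have hgi : ∀ w ∈ V, φ w i i ≠ 0 → g w i ≠ 0 := by
      intro w hw hwi
      rw [(hgφ w hw).2, Phi_diag_ne (hgφ w hw).1] at hwi
      exact hwi
    have hgx : ∀ w ∈ V, φ w i i ≠ 0 → ∀ k, g w k = g w i * x w k := by
      intro w hw hwi k
      have h1 := hgi w hw hwi
      rw [hx]
      simp only
      rw [(hgφ w hw).2, chart_Phi (hgφ w hw).1 h1, Pi.smul_apply, smul_eq_mul,
        mul_inv_cancel_left₀ h1]
    have hgd : ∀ k, HasDerivAt (fun w => g w k) (deriv (fun w => g w k) z) z := fun k =>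
      (((differentiableOn_pi.1 hg) k).differentiableAt (hV.mem_nhds hz)).hasDerivAt
    have hxd : ∀ k, HasDerivAt (fun w => x w k) (pr i φ z (Sum.inr k)) z := fun k =>
      hasDerivAt_chart hφ.1 (mem_univ z) hi k
    have hder : ∀ k, deriv (fun w => g w k) z =
        deriv (fun w => g w i) z * x z k + g z i * pr i φ z (Sum.inr k) := by
      intro k
      have h1 : (fun w => g w k) =ᶠ[𝓝 z] fun w => g w i * x w k := by
        filter_upwards [hV.mem_nhds hz, ev_diag hφ.1 (mem_univ z) hi] with w hw hwi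
        exact hgx w hw hwi k
      rw [h1.deriv_eq]
      exact ((hgd i).mul (hxd k)).deriv
    have hE := hφ.2 z (mem_univ z) i hi
    have hb := hC i _ hE hiK
    have hb' : ∀ k, ‖pr i φ z (Sum.inr k)‖ ≤ |C| := fun k =>
      (norm_le_pi_norm (pr i φ z ∘ Sum.inr) k).trans (hb.trans (le_abs_self C))
    have hx1 : ∀ k, ‖x z k‖ ≤ 1 := fun k => (norm_le_pi_norm (x z) k).trans hiK.2
    have h1 : g z k * deriv (fun w => g w l) z - g z l * deriv (fun w => g w k) z =
        g z i ^ 2 * (x z k * pr i φ z (Sum.inr l) - x z l * pr i φ z (Sum.inr k)) := by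
      rw [hder k, hder l, hgx z hz hi k, hgx z hz hi l]
      ring
    rw [h1, norm_mul, norm_pow]
    have h2 : ‖x z k * pr i φ z (Sum.inr l) - x z l * pr i φ z (Sum.inr k)‖ ≤ 2 * |C| := by
      refine (norm_sub_le _ _).trans ?_
      rw [norm_mul, norm_mul]
      have h3 : ‖x z k‖ * ‖pr i φ z (Sum.inr l)‖ ≤ 1 * |C| :=
        mul_le_mul (hx1 k) (hb' l) (norm_nonneg _) zero_le_one
      have h4 : ‖x z l‖ * ‖pr i φ z (Sum.inr k)‖ ≤ 1 * |C| :=
        mul_le_mul (hx1 l) (hb' k) (norm_nonneg _) zero_le_one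
      linarith
    have h3 : ‖g z i‖ ^ 2 ≤ ∑ k, ‖g z k‖ ^ 2 :=
      Finset.single_le_sum (f := fun k => ‖g z k‖ ^ 2) (fun k _ => by positivity)
        (Finset.mem_univ i)
    calc ‖g z i‖ ^ 2 * ‖x z k * pr i φ z (Sum.inr l) - x z l * pr i φ z (Sum.inr k)‖ ≤
          ‖g z i‖ ^ 2 * (2 * |C|) := mul_le_mul_of_nonneg_left h2 (by positivity)
      _ ≤ (∑ k, ‖g z k‖ ^ 2) * (2 * |C|) := mul_le_mul_of_nonneg_right h3 (by positivity)
      _ = 2 * |C| * ∑ k, ‖g z k‖ ^ 2 := mul_comm _ _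
  · obtain ⟨i, hi⟩ := PM.exists_diag (hφ.1.mem_PM (mem_univ z))
    have h1 := Tg.cone (hφ.2 z (mem_univ z) i hi).1
    have h2 : Phi (Projectivization.mk ℂ (G z) (hG0 z)).rep =
        Phi (pr i φ z ∘ Sum.inl) := by
      rw [hrep]
      exact (PM.Phi_chart (hφ.1.mem_PM (mem_univ z)) hi).symm
    obtain ⟨c', hc', he⟩ := Phi_inj (Projectivization.rep_nonzero _) (mem_cone.1 h1).1 h2
    have h3 : (Projectivization.mk ℂ (G z) (hG0 z)).rep = c'⁻¹ • (pr i φ z ∘ Sum.inl) := by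
      rw [he, smul_smul, inv_mul_cancel₀ hc', one_smul]
    change (Projectivization.mk ℂ (G z) (hG0 z)).rep ∈ Cone F
    rw [h3]
    exact cone_smul hF h1 (inv_ne_zero hc')

end bro

end Run7.h418.R
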