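import Pool.Agent.Run7.h418.Defs

/-!
Families of symmetric differentials which generate a symmetric power of the cotangent sheaf.
-/

set_option autoImplicit false

open Pool.Agent.W602.GT

namespace Run7.h418

variable {n : ℕ} {ι κ : Type}

/-- The symmetric differentials `σ j` of degree `m` generate the sheaf `Sᵐ Ω` on the projective
scheme `X = {F = 0}`: at each point `x` of `X`, every homogeneous polynomial function `Q` of degree
`m` on the tangent space `ℂⁿ⁺¹ / ℂ x` of projective space at `x` agrees on the Zariski tangent space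
of `X` at `x` with a linear combination of the `σ j`. -/
def Generates [Fintype κ] (F : ι → MvPolynomial (Fin (n + 1)) ℂ) (m : ℕ)
    (σ : κ → (Fin (n + 1) → ℂ) → (Fin (n + 1) → ℂ) → ℂ) : Prop :=
  ∀ x ∈ Cone F, ∀ Q : MvPolynomial (Fin (n + 1)) ℂ, Q.IsHomogeneous m →
    (∀ (v : Fin (n + 1) → ℂ) (c : ℂ), MvPolynomial.eval (v + c • x) Q = MvPolynomial.eval v Q) →
      ∃ a : κ → ℂ, ∀ v, Tan F x v → ∑ j, a j * σ j x v = MvPolynomial.eval v Q

end Run7.h418
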