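import Pool.Agent.Run7.h418.Wsp
import Pool.Agent.Run7.h418.R.Defs

/-!
Extension of local curves with constant values of the symmetric differentials.
-/

set_option autoImplicit false

open MvPolynomial Metric Set Filter Topology

namespace Run7.h418.R

open Pool.Agent.Y190.OP Pool.Agent.W602.GT Pool.Agent.N155

section ext

variable {n : ℕ} {ι κ : Type} {F : ι → MvPolynomial (Fin (n + 1)) ℂ}
  {σ : κ → (Fin (n + 1) → ℂ) → (Fin (n + 1) → ℂ) → ℂ} {m : κ → ℕ} {c : κ → ℂ}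

/-- curves with constant values of the symmetric differentials -/
theorem sol_of (hF : ∀ i, IsForm (F i)) (hσ : ∀ j, SymForm F (m j) (σ j)) {U : Set ℂ}
    (hU : IsOpen U) {φ : ℂ → Mat (n + 1)} (h : HolP U φ) (hT : ∀ z ∈ U, φ z ∈ TF F)
    (hc : ∀ z ∈ U, ∃ i, φ z i i ≠ 0 ∧ ∀ j, sg σ j (pr i φ z) = c j) : Sol (Ep F σ c) U φ := by
  refine ⟨h, fun z hz k hk => ⟨pr_Tg hF hU h hT hz hk, fun j => ?_⟩⟩
  obtain ⟨i, hi, hci⟩ := hc z hz
  obtain ⟨h1, h2⟩ := pr_cc hU h hz hi hk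
  rw [h2, sg_cc hσ (pr_Tg hF hU h hT hz hi) h1 j]
  exact hci j

/-- bounds for the derivatives -/
theorem exists_bound [Finite κ] (hσ : ∀ j, SymForm F (m j) (σ j)) (hm : ∀ j, 0 < m j)
    (him : Immersive F σ) (c : κ → ℂ) : ∃ C : ℝ, ∀ i, ∀ a ∈ Ep F σ c i, a ∘ Sum.inl ∈ Kc i →
      ‖a ∘ Sum.inr‖ ≤ C := by
  obtain ⟨R, hR⟩ := Finite.exists_le fun j => ‖c j‖
  choose C hC using fun i => exists_bound_v hm hσ him i R
  obtain ⟨C', hC'⟩ := Finite.exists_le C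
  refine ⟨C', fun i a ha haK => (hC i a ha.1 haK fun j => ?_).trans (hC' i)⟩
  rw [ha.2 j]
  exact hR j

/-- local extensions with a uniform radius -/
theorem loc_ext [Finite κ] (hF : ∀ i, IsForm (F i)) (hσ : ∀ j, SymForm F (m j) (σ j))
    (hm : ∀ j, 0 < m j) (him : Immersive F σ) (hc : ∃ j, c j ≠ 0) :
    ∃ ρ : ℝ, 0 < ρ ∧ ∀ (U : Set ℂ) (φ : ℂ → Mat (n + 1)), IsOpen U → Sol (Ep F σ c) U φ →
      ∀ b ∈ U, ∃ ψ, Sol (Ep F σ c) (ball b ρ) ψ ∧ φ =ᶠ[𝓝 b] ψ := by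
  choose D hD1 hD2 using exists_vf hσ hm him hc
  obtain ⟨C, hC⟩ := exists_bound hσ hm him c
  choose ρ hρ using fun i => exists_rad (D i) (B := max 1 C) (by positivity)
  obtain ⟨δ, hδ, hδρ⟩ : ∃ δ : ℝ, 0 < δ ∧ ∀ i, δ ≤ ρ i := by
    obtain ⟨i, hi⟩ := Finite.exists_min ρ
    exact ⟨ρ i, (hρ i).pos, hi⟩
  refine ⟨δ, hδ, fun U φ hU hφ b hb => ?_⟩
  obtain ⟨k, hk, hkK⟩ := exists_max (hφ.1.mem_PM hb)
  set a := pr k φ b with ha
  have haE : a ∈ Ep F σ c k := hφ.2 b hb k hk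
  have haK : a ∘ Sum.inl ∈ Kc k := hkK
  have haB : ‖a‖ ≤ max 1 C := by
    rw [pi_norm_le_iff_of_nonneg (by positivity)]
    rintro (l | l)
    · exact (norm_le_pi_norm (a ∘ Sum.inl) l).trans (haK.2.trans (le_max_left _ _))
    · exact (norm_le_pi_norm (a ∘ Sum.inr) l).trans ((hC k a haE haK).trans (le_max_right _ _))
  have hR : Rad (D k) (max 1 C) δ := (hρ k).mono hδ (hδρ k)
  set γ : ℂ → Fin (n + 1) ⊕ Fin (n + 1) → ℂ := fun z => fl (D k) a (z - b) with hγ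
  have hγs : ∀ z ∈ ball b δ, SolAt (D k) γ z := fun z hz => hR.solAt haB b (mem_ball_iff_norm.1 hz)
  have hγb : γ b = a := by
    rw [hγ]
    simp only
    rw [sub_self, fl_zero]
  have hnear : pr k φ =ᶠ[𝓝 b] γ :=
    (hD2 k U φ hU hφ b hb hk).eq_of (hγs b (mem_ball_self hδ)) (by rw [hγb])
  have hmem : ∀ z ∈ ball b δ, γ z ∈ Ep F σ c k := by
    intro z hz
    refine mem_Ep_of hσ fun G hG => ?_
    have h1 : AnalyticOnNhd ℂ (fun w => eval (γ w) G) (ball b δ) := fun w hw =>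
      analyticAt_eval (fun l => (hγs w hw).analyticAt l) G
    have h2 : (fun w => eval (γ w) G) =ᶠ[𝓝 b] 0 := by
      filter_upwards [hnear, ev_holP hU hb hφ.1 hk] with w hw hw1
      rw [← hw]
      exact hG _ (hφ.2 w hw1.1 k hw1.2)
    exact h1.eqOn_zero_of_preconnected_of_eventuallyEq_zero (convex_ball _ _).isPreconnected
      (mem_ball_self hδ) h2 hz
  have hne : ∀ z ∈ ball b δ, γ z ∘ Sum.inl ≠ 0 := fun z hz => (mem_cone.1 (Tg.cone (hmem z hz).1)).1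
  have hdiag : ∀ z ∈ ball b δ, Phi (γ z ∘ Sum.inl) k k ≠ 0 := by
    intro z hz
    rw [Phi_diag_ne (hne z hz), Function.comp_apply, (hmem z hz).1.1]
    exact one_ne_zero
  have hch : ∀ z ∈ ball b δ, chart k (Phi (γ z ∘ Sum.inl)) = γ z ∘ Sum.inl := by
    intro z hz
    have h1 : (γ z ∘ Sum.inl) k = 1 := (hmem z hz).1.1
    rw [chart_Phi (hne z hz) (by rw [h1]; exact one_ne_zero), h1, inv_one, one_smul]
  have hol : HolP (ball b δ) (fun z => Phi (γ z ∘ Sum.inl)) := by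
    intro z hz
    refine ⟨ball b δ, fun w => γ w ∘ Sum.inl, isOpen_ball, hz, fun w hw => ?_,
      fun w hw => ⟨hne w hw, rfl⟩⟩
    refine DifferentiableAt.differentiableWithinAt ?_
    exact differentiableAt_pi.2 fun l => ((hγs w hw).analyticAt (Sum.inl l)).differentiableAt
  have hpr : ∀ z ∈ ball b δ, pr k (fun z => Phi (γ z ∘ Sum.inl)) z = γ z := by
    intro z hz
    funext l
    rcases l with l | l
    · rw [pr_inl, hch z hz]
      rfl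
    · have h1 := hasDerivAt_chart hol hz (hdiag z hz) l
      have h2 := (hγs z hz).self_of_nhds (Sum.inl l)
      rw [hD1, eval_X] at h2
      have h3 : (fun w => pr k (fun z => Phi (γ z ∘ Sum.inl)) w (Sum.inl l)) =ᶠ[𝓝 z]
          fun w => γ w (Sum.inl l) := by
        filter_upwards [isOpen_ball.mem_nhds hz] with w hw
        rw [pr_inl, hch w hw]
        rfl
      rw [← h1.deriv, h3.deriv_eq, h2.deriv]
  refine ⟨fun z => Phi (γ z ∘ Sum.inl), sol_of hF hσ isOpen_ball hol (fun z hz =>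
    ⟨_, Tg.cone (hmem z hz).1, rfl⟩) (fun z hz => ⟨k, hdiag z hz, fun j => ?_⟩), ?_⟩
  · rw [hpr z hz]
    exact (hmem z hz).2 j
  · filter_upwards [hnear, ev_holP hU hb hφ.1 hk] with w hw hw1
    rw [← PM.Phi_chart (hφ.1.mem_PM hw1.1) hw1.2]
    congr 1
    funext l
    exact congrFun hw (Sum.inl l)

end ext

section glue

variable {N : ℕ} {Z : Fin N → Set (Fin N ⊕ Fin N → ℂ)}

theorem eqOn_ball {U V : Set ℂ} (hU : IsOpen U) (hV : IsOpen V)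
    (hUc : Convex ℝ U) (hVc : Convex ℝ V)
    {φ ψ : ℂ → Mat N} (hφ : Sol Z U φ) (hψ : Sol Z V ψ) {z : ℂ}
    (hzU : z ∈ U) (hzV : z ∈ V) (he : φ =ᶠ[𝓝 z] ψ) : EqOn φ ψ (U ∩ V) :=
  holP_eqOn (hU.inter hV) (hUc.inter hVc).isPreconnected (hφ.1.mono inter_subset_left)
    (hψ.1.mono inter_subset_right) ⟨hzU, hzV⟩ he

theorem ext_step {ρ : ℝ} (hρ : 0 < ρ) (hloc : ∀ (U : Set ℂ) (φ : ℂ → Mat N), IsOpen U →
      Sol Z U φ → ∀ b ∈ U, ∃ ψ, Sol Z (ball b ρ) ψ ∧ φ =ᶠ[𝓝 b] ψ)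
    {r : ℝ} (hr : 0 < r) {φ : ℂ → Mat N} (hφ : Sol Z (ball 0 r) φ) :
    ∃ ψ : ℂ → Mat N, Sol Z (ball 0 (r + ρ / 2)) ψ ∧ EqOn ψ φ (ball 0 r) := by
  have h1 : ∀ b : ℂ, ∃ ψ : ℂ → Mat N, b ∈ ball (0 : ℂ) r →
      Sol Z (ball b ρ) ψ ∧ φ =ᶠ[𝓝 b] ψ := by
    intro b
    by_cases hb : b ∈ ball (0 : ℂ) r
    · obtain ⟨ψ, h2⟩ := hloc _ φ isOpen_ball hφ b hb
      exact ⟨ψ, fun _ => h2⟩
    · exact ⟨φ, fun h => absurd h hb⟩
  choose ψ hψ using h1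
  set q : ℝ := r / (r + ρ / 2) with hq
  have hq0 : 0 < q := by positivity
  have hqr : q * (r + ρ / 2) = r := by rw [hq]; field_simp
  have hq1 : q ≤ 1 := by
    rw [hq, div_le_one (by positivity)]
    linarith
  set β : ℂ → ℂ := fun w => (q : ℂ) * w with hβ
  have hβr : ∀ w ∈ ball (0 : ℂ) (r + ρ / 2), β w ∈ ball (0 : ℂ) r := by
    intro w hw
    rw [mem_ball_zero_iff] at hw ⊢
    rw [hβ, norm_mul, Complex.norm_real, Real.norm_of_nonneg hq0.le, ← hqr]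
    exact mul_lt_mul_of_pos_left hw hq0
  have hβw : ∀ w ∈ ball (0 : ℂ) (r + ρ / 2), ‖w - β w‖ < ρ / 2 := by
    intro w hw
    rw [mem_ball_zero_iff] at hw
    have h2 : w - β w = ((1 - q : ℝ) : ℂ) * w := by rw [hβ]; push_cast; ring
    rw [h2, norm_mul, Complex.norm_real, Real.norm_of_nonneg (by linarith)]
    have h3 : (1 - q) * (r + ρ / 2) = ρ / 2 := by linarith
    rw [← h3]
    have h4 : 0 < 1 - q := by
      by_contra h5
      have h6 : 1 - q = 0 := by linarith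
      rw [h6] at h3
      linarith
    exact mul_lt_mul_of_pos_left hw h4
  have hβl : ∀ w w', ‖β w - β w'‖ ≤ ‖w - w'‖ := by
    intro w w'
    have h2 : β w - β w' = (q : ℂ) * (w - w') := by rw [hβ]; ring
    rw [h2, norm_mul, Complex.norm_real, Real.norm_of_nonneg hq0.le]
    nlinarith [norm_nonneg (w - w')]
  have hφψ : ∀ b ∈ ball (0 : ℂ) r, EqOn φ (ψ b) (ball 0 r ∩ ball b ρ) := by
    intro b hb
    obtain ⟨h2, h3⟩ := hψ b hb
    exact eqOn_ball isOpen_ball isOpen_ball (convex_ball _ _) (convex_ball _ _) hφ h2 hb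
      (mem_ball_self hρ) h3
  have hψψ : ∀ b ∈ ball (0 : ℂ) r, ∀ b' ∈ ball (0 : ℂ) r, ‖b - b'‖ < ρ →
      EqOn (ψ b) (ψ b') (ball b ρ ∩ ball b' ρ) := by
    intro b hb b' hb' hbb
    obtain ⟨h2, h3⟩ := hψ b hb
    obtain ⟨h2', -⟩ := hψ b' hb'
    have hbm : b ∈ ball b' ρ := mem_ball_iff_norm.2 hbb
    refine eqOn_ball isOpen_ball isOpen_ball (convex_ball _ _) (convex_ball _ _) h2 h2'
      (mem_ball_self hρ) hbm ?_
    have h4 : φ =ᶠ[𝓝 b] ψ b' := by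
      filter_upwards [(isOpen_ball.inter isOpen_ball).mem_nhds
        (⟨hb, hbm⟩ : b ∈ ball (0 : ℂ) r ∩ ball b' ρ)] with w hw
      exact hφψ b' hb' hw
    exact h3.symm.trans h4
  refine ⟨fun w => ψ (β w) w, eq_of_germs fun w0 hw0 => ?_, fun w hw => ?_⟩
  · refine ⟨ball (β w0) ρ, ψ (β w0), ?_, (hψ _ (hβr w0 hw0)).1, ?_⟩
    · exact mem_ball_iff_norm.2 ((hβw w0 hw0).trans (by linarith))
    · filter_upwards [isOpen_ball.mem_nhds hw0, ball_mem_nhds w0 (half_pos hρ)] with w hw hw1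
      have hw2 : ‖w - w0‖ < ρ / 2 := mem_ball_iff_norm.1 hw1
      refine hψψ _ (hβr w hw) _ (hβr w0 hw0) ((hβl w w0).trans_lt (by linarith)) ⟨?_, ?_⟩
      · exact mem_ball_iff_norm.2 ((hβw w hw).trans (by linarith))
      · rw [mem_ball_iff_norm]
        calc ‖w - β w0‖ = ‖(w - w0) + (w0 - β w0)‖ := by ring_nf
          _ ≤ ‖w - w0‖ + ‖w0 - β w0‖ := norm_add_le _ _
          _ < ρ / 2 + ρ / 2 := add_lt_add hw2 (hβw w0 hw0)
          _ = ρ := by ring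
  · have hw' : w ∈ ball (0 : ℂ) (r + ρ / 2) := ball_subset_ball (by linarith) hw
    refine (hφψ _ (hβr w hw') ⟨hw, ?_⟩).symm
    exact mem_ball_iff_norm.2 ((hβw w hw').trans (by linarith))

/-- **Extension to entire curves.** -/
theorem extend {ρ : ℝ} (hρ : 0 < ρ) (hloc : ∀ (U : Set ℂ) (φ : ℂ → Mat N), IsOpen U →
      Sol Z U φ → ∀ b ∈ U, ∃ ψ, Sol Z (ball b ρ) ψ ∧ φ =ᶠ[𝓝 b] ψ)
    {r : ℝ} (hr : 0 < r) {ψ : ℂ → Mat N} (hψ : Sol Z (ball 0 r) ψ) :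
    ∃ φ : ℂ → Mat N, Sol Z univ φ ∧ φ =ᶠ[𝓝 0] ψ := by
  set ρ' : ℝ := ρ / 2 with hρ''
  have hρ' : 0 < ρ' := half_pos hρ
  have h1 : ∀ n : ℕ, ∃ φ : ℂ → Mat N, Sol Z (ball 0 (r + n * ρ')) φ ∧ φ =ᶠ[𝓝 0] ψ := by
    intro n
    induction n with
    | zero =>
      refine ⟨ψ, ?_, Filter.EventuallyEq.rfl⟩
      rw [Nat.cast_zero, zero_mul, add_zero]
      exact hψ
    | succ n ih =>
      obtain ⟨φ, hφ, hφψ⟩ := ih
      obtain ⟨φ', hφ', he⟩ := ext_step hρ hloc (by positivity) hφ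
      refine ⟨φ', ?_, ?_⟩
      · have : r + ((n + 1 : ℕ) : ℝ) * ρ' = r + n * ρ' + ρ / 2 := by
          rw [hρ'']
          push_cast
          ring
        rw [this]
        exact hφ'
      · refine Filter.EventuallyEq.trans ?_ hφψ
        filter_upwards [ball_mem_nhds (0 : ℂ) (by positivity : 0 < r + n * ρ')] with w hw
        exact he hw
  have h2 : ∀ R : ℝ, ∃ φ : ℂ → Mat N, Sol Z (ball 0 R) φ ∧ φ =ᶠ[𝓝 0] ψ := by
    intro R
    obtain ⟨n, hn⟩ := exists_nat_ge (R / ρ')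
    obtain ⟨φ, hφ, hφψ⟩ := h1 n
    refine ⟨φ, hφ.mono (ball_subset_ball ?_), hφψ⟩
    rw [div_le_iff₀ hρ'] at hn
    linarith
  choose Φ hΦ hΦψ using h2
  have h3 : ∀ R R' : ℝ, 0 < R → 0 < R' → EqOn (Φ R) (Φ R') (ball 0 R ∩ ball 0 R') := by
    intro R R' hR hR'
    exact eqOn_ball isOpen_ball isOpen_ball (convex_ball _ _) (convex_ball _ _) (hΦ R) (hΦ R')
      (mem_ball_self hR) (mem_ball_self hR') ((hΦψ R).trans (hΦψ R').symm)
  have h4 : ∀ z0 : ℂ, (fun w => Φ (‖w‖ + 1) w) =ᶠ[𝓝 z0] Φ (‖z0‖ + 1) := by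
    intro z0
    filter_upwards [isOpen_ball.mem_nhds (mem_ball_zero_iff.2 (by linarith :
      ‖z0‖ < ‖z0‖ + 1))] with w hw
    exact h3 _ _ (by positivity) (by positivity) ⟨mem_ball_zero_iff.2 (by linarith), hw⟩
  have h5 : (fun w => Φ (‖w‖ + 1) w) =ᶠ[𝓝 0] ψ := (h4 0).trans (hΦψ _)
  exact ⟨fun w => Φ (‖w‖ + 1) w, eq_of_germs fun z0 _ => ⟨ball 0 (‖z0‖ + 1), Φ (‖z0‖ + 1),
    mem_ball_zero_iff.2 (by linarith), hΦ _, h4 z0⟩, h5⟩

end glue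

end Run7.h418.R
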