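import Pool.Agent.Run7.h418.R.Sf
import Pool.Agent.Y191.Base

/-!
Varieties which are not of general type, and derivations.
-/

set_option autoImplicit false

open MvPolynomial

namespace Run7.h418.R

open Pool.Agent.W602.GT FF

variable {K : Type} [Field K] [Algebra ℂ K] {w : ℕ}

section gt

open scoped IntermediateField.algebraAdjoinAdjoin in
/-- sets which are killed by no derivation contain transcendence bases -/
theorem exists_trans (hw : Algebra.trdeg ℂ K = w) (S : Set K)
    (h : ∀ δ : Derivation ℂ K K, (∀ β ∈ S, δ β = 0) → δ = 0) :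
    ∃ β : Fin w → K, (∀ i, β i ∈ S) ∧ AlgebraicIndependent ℂ β := by
  have halg : Algebra.IsAlgebraic (IntermediateField.adjoin ℂ S) K := by
    have hchK : CharZero (IntermediateField.adjoin ℂ S) :=
      charZero_of_injective_algebraMap (algebraMap ℂ _).injective
    refine ⟨fun t => ?_⟩
    by_contra ht
    have h1 : AlgebraicIndependent (IntermediateField.adjoin ℂ S) (fun _ : Fin 1 => t) := by
      rw [algebraicIndependent_unique_type_iff]
      exact ht
    obtain ⟨E, hE⟩ := Pool.Agent.Y191.exists_dual h1
    have h2 : (E 0).restrictScalars ℂ = 0 := by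
      apply h
      intro β hβ
      change E 0 β = 0
      have h3 : β = algebraMap (IntermediateField.adjoin ℂ S) K
        ⟨β, IntermediateField.subset_adjoin ℂ _ hβ⟩ := rfl
      rw [h3, Derivation.map_algebraMap]
    have h3 := hE 0 0
    rw [if_pos rfl] at h3
    have h4 : (E 0).restrictScalars ℂ t = 1 := h3
    rw [h2] at h4
    exact zero_ne_one h4
  have halg' : Algebra.IsAlgebraic (Algebra.adjoin ℂ S) K :=
    (IsFractionRing.comap_isAlgebraic_iff (A := Algebra.adjoin ℂ S)
      (K := IntermediateField.adjoin ℂ S) (C := K)).2 halg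
  obtain ⟨u, huS, hu⟩ := exists_isTranscendenceBasis_subset (R := ℂ) S
  have hcard := hu.cardinalMk_eq_trdeg
  rw [hw] at hcard
  have hfin : Finite u := by
    rw [← Cardinal.lt_aleph0_iff_finite, hcard]
    exact Cardinal.natCast_lt_aleph0
  obtain ⟨m', ⟨e⟩⟩ := Finite.exists_equiv_fin u
  obtain rfl : m' = w := by
    rw [Cardinal.mk_congr e, Cardinal.mk_fin] at hcard
    exact_mod_cast hcard
  exact ⟨fun i => (e.symm i : K), fun i => huS (e.symm i).2, (hu.comp_equiv e.symm).1⟩

/-- **Varieties which are not of general type have vector fields which kill the quotients of the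
regular pluricanonical forms.** -/
theorem exists_kill (hw : Algebra.trdeg ℂ K = w) (hw0 : 0 < w) (hgt : ¬ GeneralType ℂ K w)
    (D0 : Fin w → Derivation ℂ K K) :
    ∃ δ : Derivation ℂ K K, δ ≠ 0 ∧ ∀ β, Rt D0 β → δ β = 0 := by
  classical
  by_contra hcon
  push Not at hcon
  obtain ⟨β, hβ, hind⟩ := exists_trans hw {β | Rt D0 β} (fun δ hδ => by
    by_contra h
    obtain ⟨b, hb, hb'⟩ := hcon δ h
    exact hb' (hδ b hb))
  choose N ω ω' hN hω hω' h0 he using hβ
  apply hgt
  refine ⟨hw, ∑ i, N i, ?_, Fin.cons (fun D => ∏ l, ω l D)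
    (fun i D => ∏ l, if l = i then ω' l D else ω l D), ?_, ?_, D0, ?_, ?_⟩
  · exact Finset.sum_pos (fun i _ => hN i) ⟨⟨0, hw0⟩, Finset.mem_univ _⟩
  · have h1 : ∀ i, PF (∑ l, N l) fun D => ∏ l, if l = i then ω' l D else ω l D := by
      intro i
      refine PF.prod Finset.univ (ω := fun l D => if l = i then ω' l D else ω l D) fun l => ?_
      by_cases hl : l = i
      · simp only [if_pos hl]
        exact hω' l
      · simp only [if_neg hl]
        exact hω l
    intro j
    refine Fin.cases ?_ (fun i => ?_) j
    · rw [Fin.cons_zero]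
      exact (PF.prod Finset.univ hω).pl
    · rw [Fin.cons_succ]
      exact (h1 i).pl
  · have h1 : ∀ i, PF (∑ l, N l) fun D => ∏ l, if l = i then ω' l D else ω l D := by
      intro i
      refine PF.prod Finset.univ (ω := fun l D => if l = i then ω' l D else ω l D) fun l => ?_
      by_cases hl : l = i
      · simp only [if_pos hl]
        exact hω' l
      · simp only [if_neg hl]
        exact hω l
    intro P hP j
    refine Fin.cases ?_ (fun i => ?_) j
    · rw [Fin.cons_zero]
      exact (PF.prod Finset.univ hω).reg P hP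
    · rw [Fin.cons_succ]
      exact (h1 i).reg P hP
  · rw [Fin.cons_zero]
    exact Finset.prod_ne_zero_iff.2 fun l _ => h0 l
  · have h1 : (fun i : Fin w => (Fin.cons (fun D => ∏ l, ω l D)
        (fun i D => ∏ l, if l = i then ω' l D else ω l D) :
          Fin (w + 1) → (Fin w → Derivation ℂ K K) → K) i.succ D0 /
        (Fin.cons (fun D => ∏ l, ω l D)
        (fun i D => ∏ l, if l = i then ω' l D else ω l D) :
          Fin (w + 1) → (Fin w → Derivation ℂ K K) → K) 0 D0) = β := by
      funext i
      rw [Fin.cons_zero, Fin.cons_succ]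
      have h2 : ∀ l, (if l = i then ω' l D0 else ω l D0) =
          (if l = i then β i else 1) * ω l D0 := by
        intro l
        by_cases hl : l = i
        · rw [if_pos hl, if_pos hl, ← hl, he l, div_mul_cancel₀ _ (h0 l)]
        · rw [if_neg hl, if_neg hl, one_mul]
      simp only [h2, Finset.prod_mul_distrib, Finset.prod_ite_eq', Finset.mem_univ, if_true]
      rw [mul_div_assoc, div_self (Finset.prod_ne_zero_iff.2 fun l _ => h0 l), mul_one]
    rw [h1]
    exact hind

end gt

section frame

/-- the quotients do not depend on the frame -/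
theorem Rt.change {D E : Fin w → Derivation ℂ K K} (hD : ∀ D' : Fin w → Derivation ℂ K K,
      ∃ a : Matrix (Fin w) (Fin w) K, D' = fun i => ∑ j, a i j • D j)
    (hE : ∀ D' : Fin w → Derivation ℂ K K,
      ∃ a : Matrix (Fin w) (Fin w) K, D' = fun i => ∑ j, a i j • E j) {β : K} (h : Rt D β) :
    Rt E β := by
  obtain ⟨N, ω, ω', hN, hω, hω', h0, rfl⟩ := h
  have h1 : ω E ≠ 0 := by
    intro h2
    obtain ⟨a, ha⟩ := hE D
    apply h0
    rw [ha, hω.pl, h2, mul_zero]
  refine ⟨N, ω, ω', hN, hω, hω', h1, ?_⟩
  rw [hω.ratio hω' hD h0 E, mul_div_assoc, div_self h1, mul_one]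

/-- frames which are adapted to a subspace -/
theorem exists_frame {E : Fin w → Derivation ℂ K K} (hEi : LinearIndependent K E)
    (hE : ∀ δ : Derivation ℂ K K, ∃ τ : Fin w → K, δ = ∑ a, τ a • E a)
    (T : Submodule K (Derivation ℂ K K)) :
    ∃ D : Fin w → Derivation ℂ K K, LinearIndependent K D ∧
      (∀ δ : Derivation ℂ K K, ∃ τ : Fin w → K, δ = ∑ a, τ a • D a) ∧
      ∃ J : Finset (Fin w), (∀ i ∈ J, D i ∈ T) ∧
        ∀ τ : Fin w → K, ∑ a, τ a • D a ∈ T → ∀ a ∉ J, τ a = 0 := by
  classical
  have hspan : ⊤ ≤ Submodule.span K (Set.range E) := by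
    intro δ _
    obtain ⟨τ, rfl⟩ := hE δ
    exact Submodule.sum_mem _ fun a _ => Submodule.smul_mem _ _ (Submodule.subset_span ⟨a, rfl⟩)
  let bE : Module.Basis (Fin w) K (Derivation ℂ K K) := Module.Basis.mk hEi hspan
  have hfd : FiniteDimensional K (Derivation ℂ K K) := Module.Finite.of_basis bE
  have hfr : Module.finrank K (Derivation ℂ K K) = w := by
    rw [Module.finrank_eq_card_basis bE, Fintype.card_fin]
  let bT := Module.Basis.ofVectorSpace K T
  set s : Set (Derivation ℂ K K) := Set.range fun i => (bT i : Derivation ℂ K K) with hs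
  have hli : LinearIndepOn K id s := by
    have h1 : LinearIndependent K fun i => (bT i : Derivation ℂ K K) :=
      bT.linearIndependent.map' T.subtype (Submodule.ker_subtype T)
    exact h1.linearIndepOn_id
  let b := Module.Basis.extend hli
  have hfin : Fintype (hli.extend (Set.subset_univ s)) :=
    FiniteDimensional.fintypeBasisIndex b
  have hcard : Fintype.card (hli.extend (Set.subset_univ s)) = w := by
    rw [← Module.finrank_eq_card_basis b, hfr]
  let e : (hli.extend (Set.subset_univ s)) ≃ Fin w := Fintype.equivFinOfCardEq hcard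
  let c := b.reindex e
  have hc : ∀ i, c i = (e.symm i : Derivation ℂ K K) := by
    intro i
    rw [Module.Basis.reindex_apply]
    exact Module.Basis.extend_apply_self hli _
  refine ⟨fun i => c i, c.linearIndependent, fun δ => ⟨fun a => c.repr δ a, ?_⟩,
    Finset.univ.filter fun i => c i ∈ s, fun i hi => ?_, fun τ hτ a ha => ?_⟩
  · exact (c.sum_repr δ).symm
  · obtain ⟨l, hl⟩ := (Finset.mem_filter.1 hi).2
    change c i ∈ T
    rw [← hl]
    exact (bT l).2
  · have h1 : ∑ a, τ a • c a ∈ Submodule.span K (c '' {i | c i ∈ s}) := by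
      have h2 : T ≤ Submodule.span K (c '' {i | c i ∈ s}) := by
        intro δ hδ
        have h3 : (⟨δ, hδ⟩ : T) ∈ Submodule.span K (Set.range bT) := by
          rw [bT.span_eq]
          trivial
        have h4 := Submodule.mem_map_of_mem (f := T.subtype) h3
        rw [Submodule.map_span] at h4
        refine Submodule.span_mono ?_ h4
        rintro _ ⟨_, ⟨l, rfl⟩, rfl⟩
        have h5 : (bT l : Derivation ℂ K K) ∈ s := ⟨l, rfl⟩
        have h6 : (bT l : Derivation ℂ K K) ∈ hli.extend (Set.subset_univ s) :=
          hli.subset_extend _ h5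
        refine ⟨e ⟨_, h6⟩, ?_, ?_⟩
        · change c (e ⟨_, h6⟩) ∈ s
          rw [hc, Equiv.symm_apply_apply]
          exact h5
        · rw [hc, Equiv.symm_apply_apply]
          rfl
      exact h2 hτ
    rw [c.mem_span_image] at h1
    by_contra h2
    apply ha
    rw [Finset.mem_filter]
    refine ⟨Finset.mem_univ _, ?_⟩
    refine h1 ?_
    rw [Finset.mem_coe, Finsupp.mem_support_iff]
    rwa [c.repr_sum_self]

end frame

end Run7.h418.R
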