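import Pool.Agent.Run7.h418.R.Geod
import Pool.Agent.Run7.h418.R.Gtp

/-!
The geodesic vector field of a variety which is not of general type.
-/

set_option autoImplicit false

open MvPolynomial

namespace Run7.h418.R

open Pool.Agent.W602.GT FF

variable {K : Type} [Field K] [Algebra ℂ K] {w : ℕ}

theorem PF.pow {N : ℕ} {ω : (Fin w → Derivation ℂ K K) → K} (h : PF N ω) (k : ℕ) :
    PF (N * k) fun D => ω D ^ k where
  pl a D := by
    have h1 := h.pl a D
    simp only [h1, mul_pow, pow_mul]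
  reg P hP D hD := by
    have h1 := h.reg P hP D hD
    induction k with
    | zero =>
      change P.Reg (ω D ^ 0)
      rw [pow_zero]
      exact P.reg_one
    | succ k ih =>
      change P.Reg (ω D ^ (k + 1))
      rw [pow_succ]
      exact P.reg_mul ih h1

theorem der_zero {n : ℕ} {y : Fin (n + 1) → K} (hc : coords ℂ y = ⊤) {δ : Derivation ℂ K K}
    (h : ∀ k, δ (y k) = 0) : δ = 0 := by
  have hch : CharZero K := charZero_of_injective_algebraMap (algebraMap ℂ K).injective
  refine Derivation.ext fun x => ?_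
  have hx : x ∈ coords ℂ y := by rw [hc]; trivial
  refine Pool.Agent.Y191.der_alg0 _ (S := {z | ∃ i j, y j ≠ 0 ∧ z = y i / y j}) ?_
    (isAlgebraic_algebraMap (⟨x, hx⟩ : IntermediateField.adjoin ℂ
      {z | ∃ i j, y j ≠ 0 ∧ z = y i / y j}))
  rintro _ ⟨i, j, hj, rfl⟩
  rw [Derivation.leibniz_div, h, h]
  simp

variable {n m : ℕ} {ι κ : Type} [Fintype κ] {F : ι → MvPolynomial (Fin (n + 1)) ℂ}
  {σ : κ → (Fin (n + 1) → ℂ) → (Fin (n + 1) → ℂ) → ℂ} {y : Fin (n + 1) → K}

/-- **The geodesic vector field of a variety which is not of general type.** -/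
theorem exists_geo (hF : ∀ i, IsForm (F i)) (hm : 0 < m) (hσ : ∀ j, SymForm F m (σ j))
    (hgen : Generates F m σ) {i0 : Fin (n + 1)} (hy : y i0 = 1) (hmem : ∀ i, aeval y (F i) = 0)
    (hcy : coords ℂ y = ⊤) (hw : Algebra.trdeg ℂ K = w) (hw0 : 0 < w)
    (hgt : ¬ GeneralType ℂ K w)
    {P : κ → MvPolynomial (Fin (n + 1) ⊕ Fin (n + 1)) ℂ} {H : κ → MvPolynomial (Fin (n + 1)) ℂ}
    (hrep : ∀ j, IsRep F m (σ j) (P j) (H j)) (hH : ∀ j, aeval y (H j) ≠ 0) :
    ∃ (J : Finset (Fin w)) (D : Fin w → Derivation ℂ K K)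
      (b : Fin w → Fin w → MvPolynomial (Fin w) K),
      (∃ k, Gd J D b (C (y k)) ≠ 0) ∧ ∀ j, Gd J D b (C (aeval y (H j))⁻¹ *
        aeval (Sum.elim (fun k => C (y k)) fun k => Gd J D b (C (y k))) (P j)) = 0 := by
  classical
  -- a frame
  obtain ⟨z, hz⟩ : ∃ z : Fin w → K, IsTranscendenceBasis ℂ z := by
    obtain ⟨B, hB⟩ := exists_isTranscendenceBasis ℂ K
    have hcard := hB.cardinalMk_eq_trdeg
    rw [hw] at hcard
    have hfin : Finite B := by
      rw [← Cardinal.lt_aleph0_iff_finite, hcard]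
      exact Cardinal.natCast_lt_aleph0
    obtain ⟨m', ⟨e⟩⟩ := Finite.exists_equiv_fin B
    obtain rfl : m' = w := by
      rw [Cardinal.mk_congr e, Cardinal.mk_fin] at hcard
      exact_mod_cast hcard
    exact ⟨_, hB.comp_equiv e.symm⟩
  obtain ⟨E, hE⟩ := Pool.Agent.Y191.exists_dual hz.1
  have hEi : LinearIndependent K E := by
    rw [Fintype.linearIndependent_iff]
    intro g hg i
    have h1 := congrArg (fun δ : Derivation ℂ K K => δ (z i)) hg
    simp only [comb_apply, Derivation.zero_apply, hE] at h1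
    rw [Finset.sum_eq_single i] at h1
    · rwa [if_pos rfl, mul_one] at h1
    · intro c _ hc
      rw [if_neg hc, mul_zero]
    · intro h
      exact absurd (Finset.mem_univ _) h
  have hch : CharZero K := charZero_of_injective_algebraMap (algebraMap ℂ K).injective
  have hEs : ∀ δ : Derivation ℂ K K, ∃ τ : Fin w → K, δ = ∑ a, τ a • E a := by
    intro δ
    refine ⟨fun a => δ (z a), ?_⟩
    rw [← sub_eq_zero]
    refine Derivation.ext fun x => ?_
    have hx : IsAlgebraic (IntermediateField.adjoin ℂ (Set.range z)) x :=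
      hz.isAlgebraic_field.isAlgebraic x
    refine Pool.Agent.Y191.der_alg0 _ (S := Set.range z) ?_ hx
    rintro _ ⟨t, rfl⟩
    rw [Derivation.sub_apply, comb_apply]
    simp only [hE]
    simp
  let T : Submodule K (Derivation ℂ K K) :=
    { carrier := {δ | ∀ β, Rt E β → δ β = 0}
      add_mem' := fun {δ δ'} hδ hδ' β hβ => by
        rw [Derivation.add_apply, hδ β hβ, hδ' β hβ, add_zero]
      zero_mem' := fun β _ => rfl
      smul_mem' := fun c δ hδ β hβ => by rw [Derivation.smul_apply, hδ β hβ, smul_zero] }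
  obtain ⟨D, hDi, hDs, J, hJT, hJ⟩ := exists_frame hEi hEs T
  have hmat : ∀ (E' : Fin w → Derivation ℂ K K),
      (∀ δ : Derivation ℂ K K, ∃ τ : Fin w → K, δ = ∑ a, τ a • E' a) →
      ∀ D' : Fin w → Derivation ℂ K K,
        ∃ a : Matrix (Fin w) (Fin w) K, D' = fun i => ∑ j, a i j • E' j := by
    intro E' hE' D'
    choose a ha using fun i => hE' (D' i)
    exact ⟨Matrix.of a, funext fun i => ha i⟩
  have hD0 := hmat D hDs
  have hE0 := hmat E hEs
  obtain ⟨δ0, hδ0, hδT⟩ := exists_kill hw hw0 hgt E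
  have hJne : J.Nonempty := by
    by_contra hcon
    rw [Finset.not_nonempty_iff_eq_empty] at hcon
    obtain ⟨τ, hτ⟩ := hDs δ0
    apply hδ0
    rw [hτ, Finset.sum_eq_zero]
    intro a _
    have h1 : ∑ a, τ a • D a ∈ T := by
      rw [← hτ]
      exact hδT
    rw [hJ τ h1 a (by rw [hcon]; exact Finset.notMem_empty a), zero_smul]
  -- the forms
  have hind : ∀ τ : Fin w → K, (∀ k, (∑ a, τ a • D a) (y k) = 0) → τ = 0 := by
    intro τ hτ
    have h1 := der_zero hcy hτ
    funext a
    exact Fintype.linearIndependent_iff.1 hDi τ h1 a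
  obtain ⟨I, hI⟩ := gen_span hgen hy hmem hrep hH hind
  have hSF : ∀ j, SF m 0 (sj (w := w) y (P j) (H j)) := fun j =>
    { hom := fun D => sj_hom (hrep j) D
      tr := fun a D => by rw [sj_sub, pow_zero, C_1, one_mul]
      reg := fun p _ D hD => sj_reg hF (hσ j) hy hmem (hrep j) (hH j) p hD }
  have hI' : (Matrix.of fun b (μ : Ex w m) => coeff μ.1 (sj y (P (I b)) (H (I b)) D)).det ≠ 0 := by
    have h1 : (Matrix.of fun b (μ : Ex w m) => coeff μ.1 (sj y (P (I b)) (H (I b)) D)) =
        Matrix.diagonal (fun b => (aeval y (H (I b)))⁻¹) *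
          (Matrix.of fun b (μ : Ex w m) => coeff μ.1 (pv y D (P (I b)))) := by
      ext b μ
      rw [Matrix.diagonal_mul, Matrix.of_apply, Matrix.of_apply]
      unfold sj
      rw [coeff_C_mul]
    rw [h1, Matrix.det_mul, Matrix.det_diagonal]
    exact mul_ne_zero (Finset.prod_ne_zero_iff.2 fun b _ => inv_ne_zero (hH _)) hI
  obtain ⟨I2, hI2⟩ := exists_rows2 (fun j => (hSF j).hom D) hI'
  have hSF2 : ∀ p : κ × κ, SF (m + m) 0 fun D : Fin w → Derivation ℂ K K =>
      sj y (P p.1) (H p.1) D * sj y (P p.2) (H p.2) D := fun p => (hSF p.1).mul (hSF p.2)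
  have hkill : ∀ i ∈ J, ∀ β, Rt D β → D i β = 0 := fun i hi β hβ =>
    hJT i hi β (hβ.change hD0 hE0)
  have hex : ∀ i, ∃ b : Fin w → MvPolynomial (Fin w) K, i ∈ J → ((∀ a, (b a).IsHomogeneous 1) ∧
      (∀ j, Dc (D i) (sj y (P j) (H j) D) = ∑ a, pderiv a (sj y (P j) (H j) D) * b a) ∧
      ∀ q : MvPolynomial (Fin w) K, (∃ r : Ex w m → K, (∀ b, D i (r b) = 0) ∧
        q ^ m = ∑ b, C (r b) * sj y (P (I b)) (H (I b)) D) →
          Dc (D i) q = ∑ a, pderiv a q * b a) := by
    intro i
    by_cases hi : i ∈ J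
    · obtain ⟨b, hb⟩ := exists_conn (s := fun j => sj y (P j) (H j) D) hm
        (fun j => (hSF j).hom D) hI' hI2 (D i) (fun j => by
          obtain ⟨r, hr, he⟩ := cramer hSF hw0 hm hI' (Q := sj y (P j) (H j) D) PF.one
            one_ne_zero (hSF j) (by rw [C_1, one_mul])
          exact ⟨r, fun b => hkill i hi _ (hr b), he⟩) (fun j l => by
          obtain ⟨r, hr, he⟩ := cramer hSF2 hw0 (Nat.add_pos_left hm m) hI2
            (Q := sj y (P j) (H j) D * sj y (P l) (H l) D) PF.one one_ne_zero (hSF2 (j, l))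
            (by rw [C_1, one_mul])
          exact ⟨r, fun b => hkill i hi _ (hr b), he⟩)
      exact ⟨b, fun _ => hb⟩
    · exact ⟨0, fun h => absurd h hi⟩
  choose b hb using hex
  have hb2 : ∀ i ∈ J, ∀ a ∉ J, ∀ l ∈ J, coeff (Finsupp.single l 1) (b i a) = 0 := by
    intro i hi a ha l hl
    refine hJ (fun c => coeff (Finsupp.single l 1) (b i c)) (fun β hβ => ?_) a ha
    have hβD : Rt D β := hβ.change hE0 hD0
    obtain ⟨N, ω, ω', hN, hω, hω', h0, hβe⟩ := hβD
    set q : MvPolynomial (Fin w) K := ∑ a, C (D a β) * X a with hq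
    obtain ⟨r, hr, he⟩ := cramer hSF hw0 hm hI' (Q := q ^ m)
      (Ψ := fun D' => (C (ω D' ^ 2) * ∑ a, C (D' a (ω' D / ω D)) * X a) ^ m)
      ((hω.pow 2).pow m) (pow_ne_zero _ (pow_ne_zero _ h0))
      (by
        have h1 := (hω.dform hω' hD0 h0).pow m
        rwa [one_mul] at h1)
      (by
        simp only [hq, hβe, mul_pow, map_pow])
    have h2 := (hb i hi).2.2 q ⟨r, fun c => hkill i hi _ (hr c), he⟩
    have h3 : ∀ a, pderiv a q = C (D a β) := by
      intro a
      rw [hq, map_sum, Finset.sum_eq_single a]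
      · rw [pderiv_C_mul, pderiv_X_self, mul_one]
      · intro c _ hc
        rw [pderiv_C_mul, pderiv_X_of_ne hc, mul_zero]
      · intro h
        exact absurd (Finset.mem_univ _) h
    have h4 := congrArg (coeff (Finsupp.single l 1)) h2
    have h5 : coeff (Finsupp.single l 1) q = D l β := by
      rw [hq, coeff_sum, Finset.sum_eq_single l]
      · rw [coeff_C_mul, coeff_X, if_pos rfl, mul_one]
      · intro c _ hc
        rw [coeff_C_mul, coeff_X, if_neg, mul_zero]
        intro h
        exact hc (Finsupp.single_left_injective one_ne_zero h)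
      · intro h
        exact absurd (Finset.mem_univ _) h
    rw [coeff_Dc, h5, hJT l hl β hβ, map_zero, coeff_sum] at h4
    simp only [h3, coeff_C_mul] at h4
    rw [comb_apply, h4]
    exact Finset.sum_congr rfl fun c _ => mul_comm _ _
  refine ⟨J, D, b, ?_, fun j => ?_⟩
  · obtain ⟨i, hi⟩ := hJne
    have h1 : ∃ k, D i (y k) ≠ 0 := by
      by_contra hcon
      push Not at hcon
      exact hDi.ne_zero i (der_zero hcy hcon)
    obtain ⟨k, hk⟩ := h1
    refine ⟨k, fun h0 => hk ?_⟩
    rw [Gd_C] at h0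
    have h2 := congrArg (coeff (Finsupp.single i 1)) h0
    rw [coeff_zero, coeff_sum, Finset.sum_eq_single i] at h2
    · rwa [mul_comm, coeff_C_mul, coeff_X, if_pos rfl, mul_one] at h2
    · intro c _ hc
      rw [mul_comm, coeff_C_mul, coeff_X, if_neg, mul_zero]
      intro h
      exact hc (Finsupp.single_left_injective one_ne_zero h)
    · intro h
      exact absurd hi h
  · have h1 := Gd_first (J := J) (D := D) (b := b) (fun i hi a => (hb i hi).1 a) hb2
      (s := sj y (P j) (H j) D) (fun i hi => (hb i hi).2.1 j)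
    have h2 : aeval (vj J) (sj y (P j) (H j) D) = C (aeval y (H j))⁻¹ *
        aeval (Sum.elim (fun k => C (y k)) fun k => Gd J D b (C (y k))) (P j) := by
      unfold sj
      rw [map_mul, Gd_pv (b := b), aeval_C]
      rfl
    rwa [h2] at h1

end Run7.h418.R
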