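import Pool.Agent.Run7.h418.R.Nab

/-!
The geodesic vector field of the connection.
-/

set_option autoImplicit false

open MvPolynomial

namespace Run7.h418.R

variable {K : Type} [Field K] [Algebra ℂ K] {w : ℕ}

theorem hom_one {q : MvPolynomial (Fin w) K} (hq : q.IsHomogeneous 1) :
    q = ∑ a, C (coeff (Finsupp.single a 1) q) * X a := by
  classical
  ext μ
  rw [coeff_sum]
  simp only [coeff_C_mul, coeff_X]
  by_cases hμ : ∃ a, μ = Finsupp.single a 1
  · obtain ⟨a, rfl⟩ := hμ
    rw [Finset.sum_eq_single a]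
    · rw [if_pos rfl, mul_one]
    · intro c _ hc
      rw [if_neg, mul_zero]
      intro h
      exact hc (Finsupp.single_left_injective one_ne_zero h)
    · intro h
      exact absurd (Finset.mem_univ _) h
  · rw [Finset.sum_eq_zero]
    · by_contra h0
      have h1 := hq h0
      have h2 : μ.degree = 1 := by
        rw [← h1, Finsupp.weight_apply, Finsupp.degree_eq_sum,
          Finsupp.sum_fintype _ _ fun i => by simp]
        simp
      apply hμ
      have h3 : ∃ a, μ a ≠ 0 := by
        by_contra hcon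
        push Not at hcon
        rw [Finsupp.degree_eq_sum, Finset.sum_eq_zero fun a _ => hcon a] at h2
        exact zero_ne_one h2
      obtain ⟨a, ha⟩ := h3
      refine ⟨a, ?_⟩
      obtain ⟨ν, hν⟩ := exists_add_of_le (Finsupp.single_le_iff.2 (by omega : 1 ≤ μ a))
      have h4 : ν.degree = 0 := by
        have h5 := congrArg Finsupp.degree hν
        rw [map_add, Finsupp.degree_single, h2] at h5
        omega
      rw [hν, (Finsupp.degree_eq_zero_iff ν).1 h4, add_zero]
    · intro a _
      rw [if_neg, mul_zero]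
      intro h
      exact hμ ⟨a, h.symm⟩

/-- the vector of the restricted variables -/
noncomputable def vj (J : Finset (Fin w)) (c : Fin w) : MvPolynomial (Fin w) K :=
  open Classical in if c ∈ J then X c else 0

/-- the geodesic vector field -/
noncomputable def Gd (J : Finset (Fin w)) (D : Fin w → Derivation ℂ K K)
    (b : Fin w → Fin w → MvPolynomial (Fin w) K) :
    Derivation ℂ (MvPolynomial (Fin w) K) (MvPolynomial (Fin w) K) :=
  (∑ i ∈ J, (X i : MvPolynomial (Fin w) K) • Dc (D i)) +
    (mkDerivation K fun c => -∑ i ∈ J, X i * aeval (vj J) (b i c)).restrictScalars ℂ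

variable {J : Finset (Fin w)} {D : Fin w → Derivation ℂ K K}
  {b : Fin w → Fin w → MvPolynomial (Fin w) K}

theorem Gd_apply (p : MvPolynomial (Fin w) K) : Gd J D b p = ∑ i ∈ J, X i * Dc (D i) p +
    mkDerivation K (fun c => -∑ i ∈ J, X i * aeval (vj J) (b i c)) p := by
  have h1 : ∀ S : Finset (Fin w), (∑ i ∈ S, (X i : MvPolynomial (Fin w) K) • Dc (D i)) p =
      ∑ i ∈ S, X i * Dc (D i) p := by
    intro S
    induction S using Finset.cons_induction with
    | empty => simp
    | cons a s ha ih =>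
      rw [Finset.sum_cons, Finset.sum_cons, Derivation.add_apply, Derivation.smul_apply, ih,
        smul_eq_mul]
  unfold Gd
  rw [Derivation.add_apply, h1]
  rfl

theorem Gd_C (c : K) : Gd J D b (C c) =
    ∑ i ∈ J, (X i : MvPolynomial (Fin w) K) * C (D i c) := by
  rw [Gd_apply]
  have h1 : mkDerivation K (fun c => -∑ i ∈ J, (X i : MvPolynomial (Fin w) K) *
      aeval (vj J) (b i c)) (C c : MvPolynomial (Fin w) K) = 0 := by
    rw [← MvPolynomial.algebraMap_eq, Derivation.map_algebraMap]
  rw [h1, add_zero]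
  exact Finset.sum_congr rfl fun i _ => by rw [Dc_C]

theorem Gd_X (c : Fin w) : Gd J D b (X c) =
    -∑ i ∈ J, (X i : MvPolynomial (Fin w) K) * aeval (vj J) (b i c) := by
  rw [Gd_apply, mkDerivation_X, Finset.sum_eq_zero, zero_add]
  intro i _
  rw [Dc_X, mul_zero]

theorem Gd_v (hb : ∀ i ∈ J, ∀ a, (b i a).IsHomogeneous 1)
    (h2 : ∀ i ∈ J, ∀ a ∉ J, ∀ l ∈ J, coeff (Finsupp.single l 1) (b i a) = 0) (c : Fin w) :
    Gd J D b (vj J c) =
      -∑ i ∈ J, (X i : MvPolynomial (Fin w) K) * aeval (vj J) (b i c) := by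
  classical
  by_cases hc : c ∈ J
  · have h3 : (vj J c : MvPolynomial (Fin w) K) = X c := if_pos hc
    rw [h3, Gd_X]
  · have h3 : (vj J c : MvPolynomial (Fin w) K) = 0 := if_neg hc
    rw [h3, map_zero, Finset.sum_eq_zero, neg_zero]
    intro i hi
    rw [hom_one (hb i hi c), map_sum, Finset.sum_eq_zero, mul_zero]
    intro a _
    rw [map_mul, aeval_X]
    by_cases ha : a ∈ J
    · rw [h2 i hi c hc a ha, C_0, map_zero, zero_mul]
    · have h4 : (vj J a : MvPolynomial (Fin w) K) = 0 := if_neg ha
      rw [h4, mul_zero]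

/-- chain rule -/
theorem Gd_chain (p : MvPolynomial (Fin w) K) :
    Gd J D b (aeval (vj J) p) =
      ∑ i ∈ J, (X i : MvPolynomial (Fin w) K) * aeval (vj J) (Dc (D i) p) +
      ∑ c, aeval (vj J) (pderiv c p) * Gd J D b (vj J c) := by
  classical
  induction p using MvPolynomial.induction_on with
  | C c =>
    have h1 : aeval (vj J) (C c : MvPolynomial (Fin w) K) = C c := by
      rw [aeval_C]
      rfl
    rw [h1, Gd_C]
    simp only [pderiv_C, map_zero, zero_mul, Finset.sum_const_zero, add_zero]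
    refine Finset.sum_congr rfl fun i _ => ?_
    rw [Dc_C, aeval_C]
    rfl
  | add p q hp hq =>
    simp only [map_add, hp, hq, add_mul, mul_add, Finset.sum_add_distrib]
    ring
  | mul_X p l hp =>
    have h1 : ∀ i : Fin w, aeval (vj (K := K) J) (Dc (D i) (p * X l)) =
        vj J l * aeval (vj J) (Dc (D i) p) := by
      intro i
      rw [Derivation.leibniz, Dc_X, smul_zero, zero_add, smul_eq_mul, map_mul, aeval_X]
    have h2 : ∀ c, aeval (vj J) (pderiv c (p * X l)) * Gd J D b (vj J c) =
        vj J l * (aeval (vj J) (pderiv c p) * Gd J D b (vj J c)) +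
          (if c = l then aeval (vj J) p * Gd J D b (vj J l) else 0) := by
      intro c
      rw [pderiv_mul, map_add, map_mul, map_mul, aeval_X, add_mul]
      congr 1
      · ring
      · by_cases hcl : c = l
        · subst hcl
          rw [pderiv_X_self, map_one, mul_one, if_pos rfl]
        · rw [pderiv_X_of_ne (Ne.symm hcl), map_zero, mul_zero, zero_mul, if_neg hcl]
    simp only [h1, h2, Finset.sum_add_distrib, Finset.sum_ite_eq', Finset.mem_univ, if_true]
    rw [map_mul, aeval_X, Derivation.leibniz, hp, smul_eq_mul, smul_eq_mul, mul_add,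
      Finset.mul_sum, Finset.mul_sum]
    have h3 : ∀ i : Fin w, (X i : MvPolynomial (Fin w) K) * (vj J l * aeval (vj J) (Dc (D i) p)) =
        vj J l * (X i * aeval (vj J) (Dc (D i) p)) := fun i => by ring
    simp only [h3]
    ring

/-- **First integrals of the geodesic vector field.** -/
theorem Gd_first (hb : ∀ i ∈ J, ∀ a, (b i a).IsHomogeneous 1)
    (h2 : ∀ i ∈ J, ∀ a ∉ J, ∀ l ∈ J, coeff (Finsupp.single l 1) (b i a) = 0)
    {s : MvPolynomial (Fin w) K} (hs : ∀ i ∈ J, Dc (D i) s = ∑ a, pderiv a s * b i a) :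
    Gd J D b (aeval (vj J) s) = 0 := by
  rw [Gd_chain]
  simp only [Gd_v hb h2]
  have h1 : ∑ i ∈ J, (X i : MvPolynomial (Fin w) K) * aeval (vj J) (Dc (D i) s) =
      ∑ i ∈ J, (X i : MvPolynomial (Fin w) K) *
        ∑ a, aeval (vj J) (pderiv a s) * aeval (vj J) (b i a) := by
    refine Finset.sum_congr rfl fun i hi => ?_
    rw [hs i hi, map_sum]
    simp only [map_mul]
  rw [h1]
  simp only [mul_neg, Finset.sum_neg_distrib, Finset.mul_sum]
  rw [Finset.sum_comm, add_neg_eq_zero]
  refine Finset.sum_congr rfl fun a _ => Finset.sum_congr rfl fun i _ => ?_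
  ring

theorem Gd_pv {n : ℕ} (y : Fin (n + 1) → K) (P : MvPolynomial (Fin (n + 1) ⊕ Fin (n + 1)) ℂ) :
    aeval (vj J) (pv y D P) =
      aeval (Sum.elim (fun k => C (y k)) fun k => Gd J D b (C (y k))) P := by
  classical
  unfold pv
  have h1 := comp_aeval_apply (R := ℂ) (Sum.elim (fun k => C (y k))
    fun k => ∑ a, C (D a (y k)) * X a : Fin (n + 1) ⊕ Fin (n + 1) → MvPolynomial (Fin w) K)
    ((aeval (vj J) : MvPolynomial (Fin w) K →ₐ[K] MvPolynomial (Fin w) K).restrictScalars ℂ) P
  have h2 : ((aeval (vj J) : MvPolynomial (Fin w) K →ₐ[K]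
      MvPolynomial (Fin w) K).restrictScalars ℂ)
      (aeval (Sum.elim (fun k => C (y k)) fun k => ∑ a, C (D a (y k)) * X a) P) =
      aeval (vj J) (aeval (Sum.elim (fun k => C (y k)) fun k => ∑ a, C (D a (y k)) * X a) P) :=
    rfl
  rw [← h2, h1]
  congr 1
  congr 1
  funext k
  rcases k with k | k
  · change aeval (vj J) (C (y k)) = C (y k)
    rw [aeval_C]
    rfl
  · change aeval (vj J) (∑ a, C (D a (y k)) * X a) = Gd J D b (C (y k))
    rw [Gd_C, map_sum, ← Finset.sum_subset (Finset.subset_univ J)]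
    · refine Finset.sum_congr rfl fun a ha => ?_
      have h3 : (vj J a : MvPolynomial (Fin w) K) = X a := if_pos ha
      rw [map_mul, aeval_C, aeval_X, h3, mul_comm]
      rfl
    · intro a _ ha
      have h3 : (vj J a : MvPolynomial (Fin w) K) = 0 := if_neg ha
      rw [map_mul, aeval_X, h3, mul_zero]

end Run7.h418.R
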