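import Pool.Agent.Run7.h418.R.Cur

/-!
Subvarieties which are not of general type are covered by entire curves of bounded derivative.
-/

set_option autoImplicit false

open MvPolynomial Metric Set Filter Topology LinearAlgebra.Projectivization

namespace Run7.h418.R

open Pool.Agent.Y190.OP Pool.Agent.W602.GT Pool.Agent.N155 FF

section nrm

variable {n : ℕ} {K : Type} [Field K] [Algebra ℂ K] {y : Fin (n + 1) → K}

theorem coords_smul {c : K} (hc : c ≠ 0) : coords ℂ (fun k => c * y k) = coords ℂ y := by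
  unfold coords
  congr 1
  ext z
  constructor
  · rintro ⟨i, j, hj, rfl⟩
    refine ⟨i, j, right_ne_zero_of_mul hj, ?_⟩
    rw [mul_div_mul_left _ _ hc]
  · rintro ⟨i, j, hj, rfl⟩
    refine ⟨i, j, mul_ne_zero hc hj, ?_⟩
    rw [mul_div_mul_left _ _ hc]

theorem val_smul_iff {c : K} (hc : c ≠ 0) {G : MvPolynomial (Fin (n + 1)) ℂ} (hG : IsForm G) :
    val (fun k => c * y k) G = 0 ↔ val y G = 0 := by
  obtain ⟨e, he⟩ := hG
  rw [val_smul he]
  constructor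
  · intro h
    exact (mul_eq_zero.1 h).resolve_left (pow_ne_zero _ hc)
  · intro h
    rw [h, mul_zero]

theorem eval_aeval' {τ υ : Type} (a : τ → ℂ) (Y : υ → MvPolynomial τ ℂ) (Q : MvPolynomial υ ℂ) :
    eval a (aeval Y Q) = eval (fun k => eval a (Y k)) Q := by
  induction Q using MvPolynomial.induction_on with
  | C c => simp
  | add p q hp hq => rw [map_add, map_add, map_add, hp, hq]
  | mul_X p l hp => rw [map_mul, map_mul, map_mul, aeval_X, eval_X, hp]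

theorem fl_mem' {τ : Type} [Fintype τ] {I : Ideal (MvPolynomial τ ℂ)} {E : Dr τ}
    (hE : ∀ G ∈ I, E G ∈ I) {B ρ : ℝ} (hR : Rad E B ρ) {a : τ → ℂ} (ha : ∀ G ∈ I, eval a G = 0)
    (haB : ‖a‖ ≤ B) {z : ℂ} (hz : ‖z‖ ≤ ρ) : ∀ G ∈ I, eval (fl E a z) G = 0 := by
  intro G hG
  rw [hR.eval_fl G haB hz]
  unfold gs
  have h1 : ∀ k, E^[k] G ∈ I := by
    intro k
    induction k with
    | zero => exact hG
    | succ k ih =>
      rw [Function.iterate_succ_apply']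
      exact hE _ ih
  have h2 : ∀ k, cf E G a k * z ^ k = 0 := by
    intro k
    unfold cf
    rw [ha _ (h1 k), zero_div, zero_mul]
  simp only [h2, tsum_zero]

end nrm

section loc

variable {n m : ℕ} {ι κ : Type} {F : ι → MvPolynomial (Fin (n + 1)) ℂ}
  {σ : κ → (Fin (n + 1) → ℂ) → (Fin (n + 1) → ℂ) → ℂ}

/-- the local curve -/
theorem exists_local (hF : ∀ i, IsForm (F i)) (hm : 0 < m) (hσ : ∀ j, SymForm F m (σ j))
    (him : Immersive F σ) [Finite κ]
    {P : κ → MvPolynomial (Fin (n + 1) ⊕ Fin (n + 1)) ℂ} {H : κ → MvPolynomial (Fin (n + 1)) ℂ}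
    (hrep : ∀ j, IsRep F m (σ j) (P j) (H j)) {i0 : Fin (n + 1)}
    {τ : Type} [Fintype τ] {I : Ideal (MvPolynomial τ ℂ)} {E : Dr τ}
    {Y : Fin (n + 1) → MvPolynomial τ ℂ} {W : κ → MvPolynomial τ ℂ} {a : τ → ℂ}
    (hE : ∀ G ∈ I, E G ∈ I) (ha : ∀ G ∈ I, eval a G = 0)
    (hYF : ∀ i, aeval Y (F i) ∈ I) (hY1 : Y i0 - 1 ∈ I)
    (hk : ∃ k, eval a (E (Y k)) ≠ 0) (hW : ∀ j, E (W j) ∈ I)
    (hWP : ∀ j, W j * aeval Y (H j) - aeval (Sum.elim Y fun k => E (Y k)) (P j) ∈ I)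
    (hH : ∀ j, eval a (aeval Y (H j)) ≠ 0) :
    ∃ (c : κ → ℂ) (r : ℝ) (φ : ℂ → Mat (n + 1)), (∃ j, c j ≠ 0) ∧ 0 < r ∧
      Sol (Ep F σ c) (ball 0 r) φ ∧ φ 0 i0 i0 ≠ 0 ∧
      pr i0 φ 0 = Sum.elim (fun k => eval a (Y k)) fun k => eval a (E (Y k)) := by
  obtain ⟨ρ, hR⟩ := exists_rad E (B := ‖a‖) (norm_nonneg a)
  set γ : ℂ → τ → ℂ := fl E a with hγ
  have hγ0 : γ 0 = a := fl_zero E a
  have hmem : ∀ z ∈ ball (0 : ℂ) ρ, ∀ G ∈ I, eval (γ z) G = 0 := fun z hz =>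
    fl_mem' hE hR ha le_rfl (mem_ball_zero_iff.1 hz).le
  have hder : ∀ z ∈ ball (0 : ℂ) ρ, ∀ G : MvPolynomial τ ℂ,
      HasDerivAt (fun w => eval (γ w) G) (eval (γ z) (E G)) z := fun z hz G =>
    hasDerivAt_eval E (fun l => hR.hasDerivAt_fl le_rfl (mem_ball_zero_iff.1 hz) l) G
  set x : ℂ → Fin (n + 1) → ℂ := fun z k => eval (γ z) (Y k) with hx
  set v : ℂ → Fin (n + 1) → ℂ := fun z k => eval (γ z) (E (Y k)) with hv
  have hxi : ∀ z ∈ ball (0 : ℂ) ρ, x z i0 = 1 := by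
    intro z hz
    have h1 := hmem z hz _ hY1
    rwa [map_sub, map_one, sub_eq_zero] at h1
  have hxC : ∀ z ∈ ball (0 : ℂ) ρ, x z ∈ Cone F := by
    intro z hz
    refine mem_cone.2 ⟨fun h => ?_, fun i => ?_⟩
    · have h1 := hxi z hz
      rw [h] at h1
      exact zero_ne_one h1
    · have h1 := hmem z hz _ (hYF i)
      rwa [eval_aeval'] at h1
  have hxd : ∀ z ∈ ball (0 : ℂ) ρ, ∀ k, HasDerivAt (fun w => x w k) (v z k) z := fun z hz k =>
    hder z hz (Y k)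
  have hne : ∀ z ∈ ball (0 : ℂ) ρ, x z ≠ 0 := fun z hz => (mem_cone.1 (hxC z hz)).1
  set φ : ℂ → Mat (n + 1) := fun z => Phi (x z) with hφ
  have hdiag : ∀ z ∈ ball (0 : ℂ) ρ, φ z i0 i0 ≠ 0 := by
    intro z hz
    rw [hφ]
    simp only
    rw [Phi_diag_ne (hne z hz), hxi z hz]
    exact one_ne_zero
  have hch : ∀ z ∈ ball (0 : ℂ) ρ, chart i0 (φ z) = x z := by
    intro z hz
    have h1 := hxi z hz
    rw [hφ]
    simp only
    rw [chart_Phi (hne z hz) (by rw [h1]; exact one_ne_zero), h1, inv_one, one_smul]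
  have hol : HolP (ball 0 ρ) φ := by
    intro z hz
    refine ⟨ball 0 ρ, x, isOpen_ball, hz, fun w hw => ?_, fun w hw => ⟨hne w hw, rfl⟩⟩
    refine DifferentiableAt.differentiableWithinAt ?_
    exact differentiableAt_pi.2 fun k => (hxd w hw k).differentiableAt
  have hpr : ∀ z ∈ ball (0 : ℂ) ρ, pr i0 φ z = Sum.elim (x z) (v z) := by
    intro z hz
    funext l
    rcases l with k | k
    · rw [pr_inl, hch z hz]
      rfl
    · have h1 := hasDerivAt_chart hol hz (hdiag z hz) k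
      have h3 : (fun w => pr i0 φ w (Sum.inl k)) =ᶠ[𝓝 z] fun w => x w k := by
        filter_upwards [isOpen_ball.mem_nhds hz] with w hw
        rw [pr_inl, hch w hw]
      rw [← h1.deriv, h3.deriv_eq, (hxd z hz k).deriv]
      rfl
  have hT : ∀ z ∈ ball (0 : ℂ) ρ, φ z ∈ TF F := fun z hz => ⟨x z, hxC z hz, rfl⟩
  have hTan : ∀ z ∈ ball (0 : ℂ) ρ, Tan F (x z) (v z) := by
    intro z hz
    have h1 := (pr_Tg hF isOpen_ball hol hT hz (hdiag z hz)).2.2.2
    rw [hpr z hz] at h1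
    exact h1
  set c : κ → ℂ := fun j => eval a (W j) with hc
  have hWc : ∀ z ∈ ball (0 : ℂ) ρ, ∀ j, eval (γ z) (W j) = c j := by
    intro z hz j
    rw [hγ, hR.eval_fl (W j) le_rfl (mem_ball_zero_iff.1 hz).le]
    unfold gs
    rw [tsum_eq_single 0]
    · rw [pow_zero, mul_one, cf_zero]
    · intro k hk
      obtain ⟨k', rfl⟩ := Nat.exists_eq_succ_of_ne_zero hk
      have h1 : ∀ k', E^[k' + 1] (W j) ∈ I := by
        intro k'
        induction k' with
        | zero => exact hW j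
        | succ k' ih =>
          rw [Function.iterate_succ_apply']
          exact hE _ ih
      unfold cf
      rw [ha _ (h1 k'), zero_div, zero_mul]
  have hsg : ∀ z ∈ ball (0 : ℂ) ρ, (∀ j, eval (x z) (H j) ≠ 0) → ∀ j,
      σ j (x z) (v z) = c j := by
    intro z hz hHz j
    rw [(hrep j).2 _ (hxC z hz) (hHz j) _ (hTan z hz), div_eq_iff (hHz j)]
    have h1 := hmem z hz _ (hWP j)
    rw [map_sub, map_mul, eval_aeval', eval_aeval', hWc z hz, sub_eq_zero] at h1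
    rw [h1]
    congr 1
    congr 1
    funext l
    rcases l with k | k <;> rfl
  have hρ := hR.pos
  have h0ρ : (0 : ℂ) ∈ ball (0 : ℂ) ρ := mem_ball_self hρ
  have hev : ∀ᶠ z in 𝓝 (0 : ℂ), ∀ j, eval (x z) (H j) ≠ 0 := by
    rw [Filter.eventually_all]
    intro j
    have h1 : (fun z => eval (x z) (H j)) = fun z => eval (γ z) (aeval Y (H j)) := by
      funext z
      rw [eval_aeval']
    have h2 : ContinuousAt (fun z => eval (x z) (H j)) 0 := by
      rw [h1]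
      exact (hder 0 h0ρ (aeval Y (H j))).continuousAt
    refine h2.eventually_ne ?_
    have h3 := hH j
    rw [eval_aeval'] at h3
    change eval (fun k => eval (γ 0) (Y k)) (H j) ≠ 0
    rw [hγ0]
    exact h3
  obtain ⟨r0, hr0, hball⟩ := Metric.eventually_nhds_iff_ball.1 hev
  have hx0 : x 0 = fun k => eval a (Y k) := by
    rw [hx]
    simp only [hγ0]
  have hv0 : v 0 = fun k => eval a (E (Y k)) := by
    rw [hv]
    simp only [hγ0]
  refine ⟨c, min ρ r0, φ, ?_, lt_min hρ hr0, ?_, hdiag 0 h0ρ, ?_⟩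
  · have h1 : v 0 ≠ 0 := by
      intro h
      obtain ⟨k, hk⟩ := hk
      apply hk
      have h2 := congrFun h k
      rw [hv0] at h2
      exact h2
    have h2 : v 0 i0 = 0 := by
      have h3 := hmem 0 h0ρ _ (hE _ hY1)
      rwa [map_sub, Derivation.map_one_eq_zero, sub_zero] at h3
    obtain ⟨j, hj⟩ := exists_ne_zero (m := fun _ => m) hσ him (hxC 0 h0ρ) (hTan 0 h0ρ)
      (not_mult (i := i0) (hxi 0 h0ρ) h2 h1)
    refine ⟨j, ?_⟩
    rwa [← hsg 0 h0ρ (hball 0 (mem_ball_self hr0)) j]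
  · have hsub : ball (0 : ℂ) (min ρ r0) ⊆ ball 0 ρ := ball_subset_ball (min_le_left _ _)
    refine sol_of (m := fun _ => m) hF hσ isOpen_ball (hol.mono hsub)
      (fun z hz => hT z (hsub hz)) fun z hz => ⟨i0, hdiag z (hsub hz), fun j => ?_⟩
    have h1 := hsg z (hsub hz) (hball z (ball_subset_ball (min_le_right _ _) hz)) j
    unfold sg
    rw [hpr z (hsub hz)]
    exact h1
  · rw [hpr 0 h0ρ, hx0, hv0]

end loc

section main

variable {n m : ℕ} {ι κ : Type} {F : ι → MvPolynomial (Fin (n + 1)) ℂ}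
  {σ : κ → (Fin (n + 1) → ℂ) → (Fin (n + 1) → ℂ) → ℂ}

/-- **Subvarieties which are not of general type are covered by entire curves of bounded
derivative.** -/
theorem exists_curve [Fintype κ] (hm : 0 < m) (hσ : ∀ j, SymForm F m (σ j))
    (hgen : Generates F m σ) {K : Type} [Field K] [Algebra ℂ K] {w : ℕ} {y : Fin (n + 1) → K}
    (hy : SubVar F K w y) (hF : ∀ i, IsForm (F i)) (hw0 : 0 < w) (hgt : ¬ GeneralType ℂ K w)
    {Hf : MvPolynomial (Fin (n + 1)) ℂ} (hHf : IsForm Hf) (hHf0 : val y Hf ≠ 0) :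
    ∃ p : ℂ → ℙ ℂ (Fin (n + 1) → ℂ), HolMap p ∧ BoundedDer p ∧ (∃ z w, p z ≠ p w) ∧
      (∀ z, (p z).rep ∈ VarPts ℂ y) ∧ ∃ z, eval (p z).rep Hf ≠ 0 := by
  classical
  obtain ⟨i0, hi0⟩ := Function.ne_iff.1 hy.ne
  rw [Pi.zero_apply] at hi0
  have hinv : (y i0)⁻¹ ≠ 0 := inv_ne_zero hi0
  set y1 : Fin (n + 1) → K := fun k => (y i0)⁻¹ * y k with hy1
  have hy1i : y1 i0 = 1 := inv_mul_cancel₀ hi0
  let ι' : Type := {G : MvPolynomial (Fin (n + 1)) ℂ // IsForm G ∧ val y1 G = 0}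
  let F' : ι' → MvPolynomial (Fin (n + 1)) ℂ := fun G => G.1
  have hF' : ∀ i, IsForm (F' i) := fun i => i.2.1
  have hsub : ∀ i, ∃ i', F' i' = F i := fun i =>
    ⟨⟨F i, hF i, (val_smul_iff hinv (hF i)).2 (hy.mem i)⟩, rfl⟩
  have hσ' : ∀ j, SymForm F' m (σ j) := fun j => symForm_mono hsub (hσ j)
  have hgen' : Generates F' m σ := gen_mono hsub hgen
  have him : Immersive F' σ := immersive_of_generates hm hσ' hgen'
  have hmem : ∀ i, aeval y1 (F' i) = 0 := fun i => i.2.2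
  have hcy : coords ℂ y1 = ⊤ := (coords_smul hinv).trans hy.gen
  have hHf1 : aeval y1 Hf ≠ 0 := fun h => hHf0 ((val_smul_iff hinv hHf).1 h)
  obtain ⟨P, H, hrep, hH⟩ := exists_reps hσ' hy1i hmem
  obtain ⟨τ, hτ, I, E, Y, W, a, h1, h2, h3, h4, h5, h6, h7, h8⟩ :=
    exists_alg hF' hm hσ' hgen' hy1i hmem hcy hy.dim hw0 hgt hrep hH hHf1
  obtain ⟨c, r, φ, hc, hr, hφ, hφi, hφp⟩ := exists_local (i0 := i0) hF' hm hσ' him hrep h1 h2
    (fun i => h3 _ (hmem i)) (by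
      have h9 := h3 (X i0 - 1) (by rw [map_sub, aeval_X, map_one, hy1i, sub_self])
      rwa [map_sub, aeval_X, map_one] at h9) h4 h5 h6 h7
  obtain ⟨ρ, hρ, hloc⟩ := loc_ext (m := fun _ => m) hF' hσ' (fun _ => hm) him hc
  obtain ⟨φ', hφ', hev⟩ := extend hρ hloc hr hφ
  obtain ⟨p, hp, hpb, hpC, hpφ⟩ := exists_proj (m := fun _ => m) hF' hσ' (fun _ => hm) him hφ'
  have hp0 : Phi (p 0).rep = φ 0 := (hpφ 0).trans hev.eq_of_nhds
  refine ⟨p, hp, hpb, ?_, fun z => ?_, 0, ?_⟩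
  · by_contra hcon
    push Not at hcon
    have h9 : φ =ᶠ[𝓝 0] fun _ => φ' 0 := by
      filter_upwards [hev] with w hw
      rw [← hw, ← hpφ, ← hpφ, hcon w 0]
    obtain ⟨k, hk⟩ := h4
    have h10 := congrFun hφp (Sum.inr k)
    have h11 : (fun w => chart i0 (φ w)) =ᶠ[𝓝 0] fun _ => chart i0 (φ' 0) := by
      filter_upwards [h9] with w hw
      rw [hw]
    rw [pr_inr, h11.deriv_eq, deriv_const] at h10
    exact hk h10.symm
  · have h9 := mem_cone.1 (hpC z)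
    refine ⟨h9.1, fun G hG hG0 => ?_⟩
    rw [val_ev]
    exact h9.2 ⟨G, hG, (val_smul_iff hinv hG).2 hG0⟩
  · have h9 : chart i0 (φ 0) = fun k => eval a (Y k) := by
      funext k
      have h10 := congrFun hφp (Sum.inl k)
      exact h10
    have h10 : φ 0 ∈ PM := hφ.1.mem_PM (mem_ball_self hr)
    have h11 : Phi (p 0).rep = Phi (chart i0 (φ 0)) := by
      rw [hp0]
      exact (PM.Phi_chart h10 hφi).symm
    have h12 : chart i0 (φ 0) ≠ 0 := PM.chart_ne hφi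
    obtain ⟨c', hc', he⟩ := Phi_inj (p 0).rep_nonzero h12 h11
    intro h13
    apply h8
    obtain ⟨e, he'⟩ := hHf
    rw [eval_aeval', ← h9, he, eval_hom he', h13, mul_zero]

end main

end Run7.h418.R
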