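import Pool.Agent.Run7.h418.R.Sj
import Pool.Agent.Run7.h418.R.Defs
import Pool.Agent.Run7.h418.Sei

/-!
Generating families over the function field.
-/

set_option autoImplicit false

open MvPolynomial

namespace Run7.h418.R

open Pool.Agent.W602.GT

section rows

/-- a family of vectors without common zeros contains a basis -/
theorem exists_rows' {𝕜 : Type} [Field 𝕜] {κ ε : Type} [Fintype ε] [DecidableEq ε]
    (r : κ → ε → 𝕜) (h : ∀ x : ε → 𝕜, (∀ j, ∑ c, r j c * x c = 0) → x = 0) :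
    ∃ a : ε → κ, (Matrix.of fun b c => r (a b) c).det ≠ 0 := by
  classical
  let e : Fin (Fintype.card ε) ≃ ε := (Fintype.equivFin ε).symm
  obtain ⟨a, ha⟩ := exists_rows (fun (j : κ) (c : Fin (Fintype.card ε)) => r j (e c))
    (fun x hx => by
      have h1 := h (fun c => x (e.symm c)) fun j => by
        rw [← e.sum_comp]
        simp only [Equiv.symm_apply_apply]
        exact hx j
      funext c
      have h2 := congrFun h1 (e c)
      simp only [Equiv.symm_apply_apply] at h2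
      exact h2)
  refine ⟨fun b => a (e.symm b), ?_⟩
  have h2 : (Matrix.of fun b c => r (a (e.symm b)) c) =
      (Matrix.of fun (b c : Fin (Fintype.card ε)) => r (a b) (e c)).submatrix e.symm e.symm := by
    ext b c
    rw [Matrix.submatrix_apply, Matrix.of_apply, Matrix.of_apply, Equiv.apply_symm_apply]
  rw [h2, Matrix.det_submatrix_equiv_self]
  exact ha

end rows

section span

variable {n w : ℕ} {ι κ : Type} [Fintype κ] {F : ι → MvPolynomial (Fin (n + 1)) ℂ} {m : ℕ}
  {σ : κ → (Fin (n + 1) → ℂ) → (Fin (n + 1) → ℂ) → ℂ}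
  {K : Type} [Field K] [Algebra ℂ K] {y : Fin (n + 1) → K}

theorem gen_ker (hgen : Generates F m σ) {i0 : Fin (n + 1)}
    (hy : y i0 = 1) (hmem : ∀ i, aeval y (F i) = 0)
    {P : κ → MvPolynomial (Fin (n + 1) ⊕ Fin (n + 1)) ℂ} {H : κ → MvPolynomial (Fin (n + 1)) ℂ}
    (hrep : ∀ j, IsRep F m (σ j) (P j) (H j)) (hH : ∀ j, aeval y (H j) ≠ 0)
    {D : Fin w → Derivation ℂ K K}
    (hD : ∀ τ : Fin w → K, (∀ k, (∑ a, τ a • D a) (y k) = 0) → τ = 0)
    (l : Ex w m → K) (hl : ∀ j, ∑ μ : Ex w m, coeff μ.1 (pv y D (P j)) * l μ = 0) : l = 0 := by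
  classical
  by_contra hne
  obtain ⟨μ0, hμ0⟩ := Function.ne_iff.1 hne
  obtain ⟨kk, hkk⟩ := exists_rows (fun (k : Fin (n + 1)) (a : Fin w) => D a (y k)) (fun x hx => by
    refine hD x fun k => ?_
    rw [comb_apply, ← hx k]
    exact Finset.sum_congr rfl fun a _ => mul_comm _ _)
  obtain ⟨B, hB, hg⟩ := exists_B (Sum.elim (Sum.elim y l) fun p : Fin w × Fin (n + 1) =>
    D p.1 (y p.2) : (Fin (n + 1) ⊕ Ex w m) ⊕ (Fin w × Fin (n + 1)) → K)
  let yB : Fin (n + 1) → B := fun k => ⟨y k, hg (Sum.inl (Sum.inl k))⟩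
  let lB : Ex w m → B := fun μ => ⟨l μ, hg (Sum.inl (Sum.inr μ))⟩
  let uB : Fin w → Fin (n + 1) → B := fun a k => ⟨D a (y k), hg (Sum.inr (a, k))⟩
  let bB : B := lB μ0 * (Matrix.of fun b a => uB a (kk b)).det * ∏ j, aeval yB (H j)
  have hb : (bB : K) ≠ 0 := by
    have h1 : (bB : K) = l μ0 * (Matrix.of fun b a => D a (y (kk b))).det *
        ∏ j, aeval y (H j) := by
      change B.val (lB μ0 * (Matrix.of fun b a => uB a (kk b)).det * ∏ j, aeval yB (H j)) = _
      rw [map_mul, map_mul, AlgHom.map_det, map_prod]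
      congr 1
      exact Finset.prod_congr rfl fun j _ => B_aeval yB (H j)
    rw [h1]
    exact mul_ne_zero (mul_ne_zero hμ0 hkk) (Finset.prod_ne_zero_iff.2 fun j _ => hH j)
  obtain ⟨χ, hχ⟩ := exists_chi hB bB.2 hb
  have hχ' : χ bB ≠ 0 := hχ
  rw [map_mul, map_mul, map_prod] at hχ'
  obtain ⟨h1, h2⟩ := ne_zero_and_ne_zero_of_mul hχ'
  obtain ⟨h3, h4⟩ := ne_zero_and_ne_zero_of_mul h1
  set x : Fin (n + 1) → ℂ := fun k => χ (yB k) with hx
  set u : Fin w → Fin (n + 1) → ℂ := fun a k => χ (uB a k) with hu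
  have hHx : ∀ j, eval x (H j) ≠ 0 := by
    intro j
    have h5 := (Finset.prod_ne_zero_iff.1 h2) j (Finset.mem_univ j)
    rwa [chi_aeval] at h5
  have hx0 : x i0 = 1 := by
    have h5 : yB i0 = 1 := Subtype.ext hy
    rw [hx]
    simp only
    rw [h5, map_one]
  have hu0 : ∀ a, u a i0 = 0 := by
    intro a
    have h5 : uB a i0 = 0 := by
      apply Subtype.ext
      change D a (y i0) = 0
      rw [hy, Derivation.map_one_eq_zero]
    rw [hu]
    simp only
    rw [h5, map_zero]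
  have hxC : x ∈ Cone F := chi_cone χ (g := yB) hmem (i0 := i0) (by
    change x i0 ≠ 0
    rw [hx0]
    exact one_ne_zero)
  have hT : ∀ a, Tan F x (u a) := fun a => chi_tan χ (g := yB) hmem (D a) fun k => rfl
  have hTs : ∀ t : Fin w → ℂ, Tan F x (∑ a, t a • u a) := by
    intro t i
    have h5 : ∀ k, eval x (pderiv k (F i)) * (∑ a, t a • u a) k =
        ∑ a, t a * (eval x (pderiv k (F i)) * u a k) := by
      intro k
      rw [Finset.sum_apply, Finset.mul_sum]
      refine Finset.sum_congr rfl fun a _ => ?_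
      rw [Pi.smul_apply, smul_eq_mul]
      ring
    rw [Finset.sum_congr rfl fun k _ => h5 k, Finset.sum_comm]
    refine Finset.sum_eq_zero fun a _ => ?_
    rw [← Finset.mul_sum, hT a i, mul_zero]
  have hdet : (Matrix.of fun b a => u a (kk b)).det ≠ 0 := by
    rw [AlgHom.map_det] at h4
    exact h4
  -- the specialized polynomials
  let sB : κ → MvPolynomial (Fin w) B := fun j =>
    aeval (Sum.elim (fun k => C (yB k)) fun k => ∑ a, C (uB a k) * X a) (P j)
  let s0 : κ → MvPolynomial (Fin w) ℂ := fun j =>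
    aeval (Sum.elim (fun k => C (x k)) fun k => ∑ a, C (u a k) * X a) (P j)
  have e1 : ∀ j, map (B.val : B →+* K) (sB j) = pv y D (P j) := by
    intro j
    have h5 := comp_aeval_apply (R := ℂ) (Sum.elim (fun k => C (yB k)) fun k => ∑ a, C (uB a k) * X a :
      Fin (n + 1) ⊕ Fin (n + 1) → MvPolynomial (Fin w) B)
      (mapAlgHom B.val : MvPolynomial (Fin w) B →ₐ[ℂ] MvPolynomial (Fin w) K) (P j)
    change (mapAlgHom B.val : MvPolynomial (Fin w) B →ₐ[ℂ] MvPolynomial (Fin w) K) (sB j) = _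
    refine h5.trans ?_
    unfold pv
    congr 1
    congr 1
    funext k
    rcases k with k | k
    · change map (B.val : B →+* K) (C (yB k)) = C (y k)
      rw [map_C]
      rfl
    · change map (B.val : B →+* K) (∑ a, C (uB a k) * X a) = ∑ a, C (D a (y k)) * X a
      rw [map_sum]
      refine Finset.sum_congr rfl fun a _ => ?_
      rw [map_mul, map_C, map_X]
      rfl
  have e2 : ∀ j, map (χ : B →+* ℂ) (sB j) = s0 j := by
    intro j
    have h5 := comp_aeval_apply (R := ℂ) (Sum.elim (fun k => C (yB k)) fun k => ∑ a, C (uB a k) * X a :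
      Fin (n + 1) ⊕ Fin (n + 1) → MvPolynomial (Fin w) B)
      (mapAlgHom χ : MvPolynomial (Fin w) B →ₐ[ℂ] MvPolynomial (Fin w) ℂ) (P j)
    change (mapAlgHom χ : MvPolynomial (Fin w) B →ₐ[ℂ] MvPolynomial (Fin w) ℂ) (sB j) = _
    refine h5.trans ?_
    change _ = aeval (Sum.elim (fun k => C (x k)) fun k => ∑ a, C (u a k) * X a) (P j)
    congr 1
    congr 1
    funext k
    rcases k with k | k
    · change map (χ : B →+* ℂ) (C (yB k)) = C (x k)
      rw [map_C]
      rfl
    · change map (χ : B →+* ℂ) (∑ a, C (uB a k) * X a) = ∑ a, C (u a k) * X a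
      rw [map_sum]
      refine Finset.sum_congr rfl fun a _ => ?_
      rw [map_mul, map_C, map_X]
      rfl
  have hl0 : ∀ j, ∑ μ : Ex w m, coeff μ.1 (s0 j) * χ (lB μ) = 0 := by
    intro j
    have h5 : ∑ μ : Ex w m, coeff μ.1 (sB j) * lB μ = 0 := by
      apply Subtype.ext
      change B.val (∑ μ : Ex w m, coeff μ.1 (sB j) * lB μ) = 0
      rw [map_sum, ← hl j]
      refine Finset.sum_congr rfl fun μ _ => ?_
      rw [map_mul, ← e1, coeff_map]
      rfl
    have h6 := congrArg χ h5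
    rw [map_zero, map_sum] at h6
    rw [← h6]
    refine Finset.sum_congr rfl fun μ _ => ?_
    rw [map_mul, ← e2, coeff_map]
    rfl
  have heval : ∀ j (t : Fin w → ℂ), eval t (s0 j) =
      σ j x (∑ a, t a • u a) * eval x (H j) := by
    intro j t
    rw [(hrep j).2 x hxC (hHx j) _ (hTs t), div_mul_cancel₀ _ (hHx j)]
    have h5 := comp_aeval_apply (R := ℂ) (Sum.elim (fun k => C (x k)) fun k => ∑ a, C (u a k) * X a :
      Fin (n + 1) ⊕ Fin (n + 1) → MvPolynomial (Fin w) ℂ)
      (aeval t : MvPolynomial (Fin w) ℂ →ₐ[ℂ] ℂ) (P j)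
    have h6 : eval t (s0 j) = (aeval t : MvPolynomial (Fin w) ℂ →ₐ[ℂ] ℂ) (s0 j) := by
      rw [MvPolynomial.aeval_eq_eval]
    rw [h6]
    refine h5.trans ?_
    rw [MvPolynomial.aeval_eq_eval]
    congr 1
    congr 1
    funext k
    rcases k with k | k
    · change (aeval t : MvPolynomial (Fin w) ℂ →ₐ[ℂ] ℂ) (C (x k)) = x k
      rw [aeval_C]
      rfl
    · change (aeval t : MvPolynomial (Fin w) ℂ →ₐ[ℂ] ℂ) (∑ a, C (u a k) * X a) =
        (∑ a, t a • u a) k
      rw [map_sum, Finset.sum_apply]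
      refine Finset.sum_congr rfl fun a _ => ?_
      rw [map_mul, aeval_C, aeval_X, Pi.smul_apply, smul_eq_mul, mul_comm]
      rfl
  -- dual linear forms
  set M : Matrix (Fin w) (Fin w) ℂ := Matrix.of fun b a => u a (kk b) with hM
  have hMu : IsUnit M.det := isUnit_iff_ne_zero.2 hdet
  set ℓ : Fin w → MvPolynomial (Fin (n + 1)) ℂ := fun a =>
    ∑ b, C (M⁻¹ a b) * (X (kk b) - C (x (kk b)) * X i0) with hℓ
  have hℓhom : ∀ a, (ℓ a).IsHomogeneous 1 := by
    intro a
    refine IsHomogeneous.sum _ _ _ fun b _ => ?_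
    have h5 : (X (kk b) - C (x (kk b)) * X i0 : MvPolynomial (Fin (n + 1)) ℂ).IsHomogeneous 1 := by
      refine (isHomogeneous_X ℂ _).sub ?_
      have := (isHomogeneous_C (Fin (n + 1)) (x (kk b))).mul (isHomogeneous_X ℂ i0)
      rwa [zero_add] at this
    have := (isHomogeneous_C (Fin (n + 1)) (M⁻¹ a b)).mul h5
    rwa [zero_add] at this
  have hℓe : ∀ a (v : Fin (n + 1) → ℂ), eval v (ℓ a) =
      ∑ b, M⁻¹ a b * (v (kk b) - x (kk b) * v i0) := by
    intro a v
    rw [hℓ]
    simp only [map_sum, map_mul, map_sub, eval_C, eval_X]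
  have hℓinv : ∀ a (v : Fin (n + 1) → ℂ) (c : ℂ), eval (v + c • x) (ℓ a) = eval v (ℓ a) := by
    intro a v c
    rw [hℓe, hℓe]
    refine Finset.sum_congr rfl fun b _ => ?_
    rw [Pi.add_apply, Pi.add_apply, Pi.smul_apply, Pi.smul_apply, smul_eq_mul, smul_eq_mul, hx0]
    ring
  have hℓu : ∀ a (t : Fin w → ℂ), eval (∑ c, t c • u c) (ℓ a) = t a := by
    intro a t
    rw [hℓe]
    have h5 : (∑ c, t c • u c) i0 = 0 := by
      rw [Finset.sum_apply]
      refine Finset.sum_eq_zero fun c _ => ?_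
      rw [Pi.smul_apply, hu0, smul_zero]
    rw [h5]
    have h6 : (M⁻¹).mulVec (M.mulVec t) = t := by
      rw [Matrix.mulVec_mulVec, Matrix.nonsing_inv_mul _ hMu, Matrix.one_mulVec]
    have h7 := congrFun h6 a
    refine Eq.trans ?_ h7
    refine Finset.sum_congr rfl fun b _ => ?_
    rw [mul_zero, sub_zero]
    congr 1
    rw [Finset.sum_apply]
    refine Finset.sum_congr rfl fun c _ => ?_
    rw [Pi.smul_apply, smul_eq_mul, mul_comm]
    rfl
  set Q : MvPolynomial (Fin (n + 1)) ℂ := ∏ a, ℓ a ^ μ0.1 a with hQ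
  have hQhom : Q.IsHomogeneous m := by
    have h5 := IsHomogeneous.prod (Finset.univ : Finset (Fin w)) (fun a => ℓ a ^ μ0.1 a)
      (fun a => μ0.1 a) (fun a _ => by
        have := (hℓhom a).pow (μ0.1 a)
        rwa [one_mul] at this)
    have h6 : ∑ a, μ0.1 a = m := by
      rw [← Finsupp.degree_eq_sum]
      exact μ0.2
    rwa [h6] at h5
  obtain ⟨a, ha⟩ := hgen x hxC Q hQhom (fun v c => by
    rw [hQ, map_prod, map_prod]
    exact Finset.prod_congr rfl fun a _ => by rw [map_pow, map_pow, hℓinv])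
  have hpoly : ∑ j, C (a j / eval x (H j)) * s0 j = monomial μ0.1 1 := by
    apply MvPolynomial.funext
    intro t
    have h5 := ha _ (hTs t)
    rw [hQ, map_prod] at h5
    simp only [map_pow, hℓu] at h5
    rw [map_sum, eval_monomial, one_mul, Finsupp.prod_fintype _ _ fun i => pow_zero _, ← h5]
    refine Finset.sum_congr rfl fun j _ => ?_
    rw [map_mul, eval_C, heval]
    have := hHx j
    field_simp
  apply h3
  have h5 : χ (lB μ0) = ∑ ν : Ex w m, coeff ν.1 (monomial μ0.1 (1 : ℂ)) * χ (lB ν) := by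
    rw [Finset.sum_eq_single μ0]
    · rw [coeff_monomial, if_pos rfl, one_mul]
    · intro ν _ hν
      rw [coeff_monomial, if_neg, zero_mul]
      intro h
      exact hν (Subtype.ext h.symm)
    · intro h
      exact absurd (Finset.mem_univ _) h
  rw [h5, ← hpoly]
  simp only [coeff_sum, coeff_C_mul, Finset.sum_mul, mul_assoc]
  rw [Finset.sum_comm]
  refine Finset.sum_eq_zero fun j _ => ?_
  rw [← Finset.mul_sum, hl0, mul_zero]

/-- **Generating families over the function field.** -/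
theorem gen_span (hgen : Generates F m σ) {i0 : Fin (n + 1)}
    (hy : y i0 = 1) (hmem : ∀ i, aeval y (F i) = 0)
    {P : κ → MvPolynomial (Fin (n + 1) ⊕ Fin (n + 1)) ℂ} {H : κ → MvPolynomial (Fin (n + 1)) ℂ}
    (hrep : ∀ j, IsRep F m (σ j) (P j) (H j)) (hH : ∀ j, aeval y (H j) ≠ 0)
    {D : Fin w → Derivation ℂ K K}
    (hD : ∀ τ : Fin w → K, (∀ k, (∑ a, τ a • D a) (y k) = 0) → τ = 0) :
    ∃ I : Ex w m → κ, (Matrix.of fun b (μ : Ex w m) => coeff μ.1 (pv y D (P (I b)))).det ≠ 0 :=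
  exists_rows' (fun j (μ : Ex w m) => coeff μ.1 (pv y D (P j)))
    (gen_ker hgen hy hmem hrep hH hD)

end span

end Run7.h418.R
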