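import Pool.Agent.Run7.h418.R.Th
import Pool.Agent.Run7.h418.R.Span

/-!
The connection given by a generating family.
-/

set_option autoImplicit false

open MvPolynomial

namespace Run7.h418.R

variable {K : Type} [Field K] [Algebra ℂ K] {w m : ℕ} {κ : Type}
  {s : κ → MvPolynomial (Fin w) K}

theorem exists_le_deg (ρ : Fin w →₀ ℕ) (k : ℕ) (hk : k ≤ ρ.degree) :
    ∃ μ : Fin w →₀ ℕ, μ ≤ ρ ∧ μ.degree = k := by
  classical
  induction k with
  | zero => exact ⟨0, zero_le, by simp⟩
  | succ k ih =>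
    obtain ⟨μ, hμ, hd⟩ := ih (by omega)
    have h1 : ∃ a, μ a < ρ a := by
      by_contra hcon
      push Not at hcon
      have h2 : μ = ρ := le_antisymm hμ fun a => hcon a
      rw [h2] at hd
      omega
    obtain ⟨a, ha⟩ := h1
    refine ⟨μ + Finsupp.single a 1, fun c => ?_, ?_⟩
    · rw [Finsupp.add_apply]
      by_cases hc : c = a
      · subst hc
        rw [Finsupp.single_eq_same]
        omega
      · rw [Finsupp.single_eq_of_ne hc, add_zero]
        exact hμ c
    · rw [map_add, Finsupp.degree_single, hd]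

/-- the products span the forms of twice the degree -/
theorem exists_rows2 (hs : ∀ j, (s j).IsHomogeneous m) {I : Ex w m → κ}
    (hI : (Matrix.of fun b (μ : Ex w m) => coeff μ.1 (s (I b))).det ≠ 0) :
    ∃ I2 : Ex w (m + m) → κ × κ,
      (Matrix.of fun b (μ : Ex w (m + m)) => coeff μ.1 (s (I2 b).1 * s (I2 b).2)).det ≠ 0 := by
  classical
  refine exists_rows' (fun (p : κ × κ) (μ : Ex w (m + m)) => coeff μ.1 (s p.1 * s p.2))
    fun x hx => ?_
  let L : MvPolynomial (Fin w) K →ₗ[K] K := ∑ ρ : Ex w (m + m), (x ρ) • lcoeff K ρ.1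
  have hL : ∀ Q, L Q = ∑ ρ : Ex w (m + m), coeff ρ.1 Q * x ρ := by
    intro Q
    change (∑ ρ : Ex w (m + m), (x ρ) • lcoeff K ρ.1 : MvPolynomial (Fin w) K →ₗ[K] K) Q = _
    rw [LinearMap.sum_apply]
    refine Finset.sum_congr rfl fun ρ _ => ?_
    rw [LinearMap.smul_apply, smul_eq_mul, mul_comm]
    rfl
  have h1 : ∀ i j, L (s i * s j) = 0 := fun i j => by rw [hL]; exact hx (i, j)
  have h2 : ∀ P Q : MvPolynomial (Fin w) K, P.IsHomogeneous m → Q.IsHomogeneous m →
      L (P * Q) = 0 := by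
    intro P Q hP hQ
    obtain ⟨r, rfl⟩ := span_of_det (fun b => hs (I b)) hI hP
    obtain ⟨q, rfl⟩ := span_of_det (fun b => hs (I b)) hI hQ
    rw [Finset.sum_mul, map_sum]
    refine Finset.sum_eq_zero fun b _ => ?_
    rw [Finset.mul_sum, map_sum]
    refine Finset.sum_eq_zero fun c _ => ?_
    have h3 : C (r b) * s (I b) * (C (q c) * s (I c)) = (r b * q c) • (s (I b) * s (I c)) := by
      rw [smul_eq_C_mul, map_mul]
      ring
    rw [h3, map_smul, h1, smul_zero]
  funext ρ
  obtain ⟨μ, hμ, hd⟩ := exists_le_deg ρ.1 m (by rw [ρ.2]; omega)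
  obtain ⟨ν, hν⟩ := exists_add_of_le hμ
  have hd' : ν.degree = m := by
    have h3 := ρ.2
    rw [hν, map_add, hd] at h3
    omega
  have h3 := h2 (monomial μ 1) (monomial ν 1) (isHomogeneous_monomial 1 hd)
    (isHomogeneous_monomial 1 hd')
  rw [monomial_mul, one_mul, ← hν, hL, Finset.sum_eq_single ρ] at h3
  · rwa [coeff_monomial, if_pos rfl, one_mul] at h3
  · intro ν' _ hne
    rw [coeff_monomial, if_neg, zero_mul]
    intro h
    exact hne (Subtype.ext h.symm)
  · intro h
    exact absurd (Finset.mem_univ _) h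

/-- **The connection.** -/
theorem exists_conn (hm : 0 < m) (hs : ∀ j, (s j).IsHomogeneous m) {I : Ex w m → κ}
    (hI : (Matrix.of fun b (μ : Ex w m) => coeff μ.1 (s (I b))).det ≠ 0)
    {I2 : Ex w (m + m) → κ × κ}
    (hI2 : (Matrix.of fun b (μ : Ex w (m + m)) =>
      coeff μ.1 (s (I2 b).1 * s (I2 b).2)).det ≠ 0)
    (δ : Derivation ℂ K K)
    (h1 : ∀ j, ∃ r : Ex w m → K, (∀ b, δ (r b) = 0) ∧ s j = ∑ b, C (r b) * s (I b))
    (h2 : ∀ i j, ∃ r : Ex w (m + m) → K, (∀ b, δ (r b) = 0) ∧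
      s i * s j = ∑ b, C (r b) * (s (I2 b).1 * s (I2 b).2)) :
    ∃ b : Fin w → MvPolynomial (Fin w) K, (∀ a, (b a).IsHomogeneous 1) ∧
      (∀ j, Dc δ (s j) = ∑ a, pderiv a (s j) * b a) ∧
      ∀ q : MvPolynomial (Fin w) K, (∃ r : Ex w m → K, (∀ b, δ (r b) = 0) ∧
        q ^ m = ∑ b, C (r b) * s (I b)) → Dc δ q = ∑ a, pderiv a q * b a := by
  classical
  have hch : CharZero K := charZero_of_injective_algebraMap (algebraMap ℂ K).injective
  obtain ⟨Θ, hΘ⟩ := exists_lin (indep_of_det hI) δ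
  obtain ⟨Θ2, hΘ2⟩ := exists_lin (indep_of_det (e := fun b => s (I2 b).1 * s (I2 b).2) hI2) δ
  have hT : ∀ r : Ex w m → K, Θ (∑ b, C (r b) * s (I b)) = ∑ b, C (r b) * Dc δ (s (I b)) := by
    intro r
    rw [map_sum]
    refine Finset.sum_congr rfl fun b _ => ?_
    rw [← smul_eq_C_mul, map_smul, hΘ, smul_eq_C_mul]
  have hT0 : ∀ r : Ex w m → K, (∀ b, δ (r b) = 0) →
      Θ (∑ b, C (r b) * s (I b)) = Dc δ (∑ b, C (r b) * s (I b)) := by
    intro r hr
    rw [hT, map_sum]
    exact Finset.sum_congr rfl fun b _ => (Dc_C_mul δ (hr b) _).symm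
  have hTs : ∀ j, Θ (s j) = Dc δ (s j) := by
    intro j
    obtain ⟨r, hr, he⟩ := h1 j
    rw [he, hT0 r hr]
  have hT2 : ∀ i j, Θ2 (s i * s j) = Dc δ (s i * s j) := by
    intro i j
    obtain ⟨r, hr, he⟩ := h2 i j
    rw [he, map_sum, map_sum]
    refine Finset.sum_congr rfl fun b _ => ?_
    rw [← smul_eq_C_mul, map_smul, hΘ2, smul_eq_C_mul, smul_eq_C_mul, Dc_C_mul δ (hr b)]
  have hbil : ∀ P Q : MvPolynomial (Fin w) K, P.IsHomogeneous m → Q.IsHomogeneous m →
      Θ2 (P * Q) = P * Θ Q + Q * Θ P := by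
    intro P Q hP hQ
    obtain ⟨r, rfl⟩ := span_of_det (fun b => hs (I b)) hI hP
    obtain ⟨q, rfl⟩ := span_of_det (fun b => hs (I b)) hI hQ
    rw [hT, hT, Finset.sum_mul_sum, Finset.sum_mul_sum, Finset.sum_mul_sum, map_sum]
    rw [Finset.sum_comm (s := Finset.univ) (t := Finset.univ)
      (f := fun b c => C (q b) * s (I b) * (C (r c) * Dc δ (s (I c)))),
      ← Finset.sum_add_distrib]
    refine Finset.sum_congr rfl fun b _ => ?_
    rw [map_sum, ← Finset.sum_add_distrib]
    refine Finset.sum_congr rfl fun c _ => ?_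
    have h3 : C (r b) * s (I b) * (C (q c) * s (I c)) = (r b * q c) • (s (I b) * s (I c)) := by
      rw [smul_eq_C_mul, map_mul]
      ring
    rw [h3, map_smul, hT2, Derivation.leibniz, smul_eq_mul, smul_eq_mul, smul_eq_C_mul, map_mul]
    ring
  have hThom : ∀ P : MvPolynomial (Fin w) K, P.IsHomogeneous m → (Θ P).IsHomogeneous m := by
    intro P hP
    obtain ⟨r, rfl⟩ := span_of_det (fun b => hs (I b)) hI hP
    rw [hT]
    refine IsHomogeneous.sum _ _ _ fun b _ => ?_
    have := (isHomogeneous_C (Fin w) (r b)).mul (Dc_hom δ (hs (I b)))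
    rwa [zero_add] at this
  obtain ⟨m', rfl⟩ : ∃ m', m = m' + 1 := ⟨m - 1, by omega⟩
  obtain ⟨b, hb, hbT⟩ := veronese (m := m') (fun μ => Θ (monomial μ 1))
    (fun μ hμ => hThom _ (isHomogeneous_monomial 1 hμ)) (fun μ ν μ' ν' g1 g2 g3 g4 he => by
      have e1 := hbil (monomial μ 1) (monomial ν 1) (isHomogeneous_monomial 1 g1)
        (isHomogeneous_monomial 1 g2)
      have e2 := hbil (monomial μ' 1) (monomial ν' 1) (isHomogeneous_monomial 1 g3)
        (isHomogeneous_monomial 1 g4)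
      rw [← e1, ← e2, monomial_mul, monomial_mul, he])
  have hall : ∀ P : MvPolynomial (Fin w) K, P.IsHomogeneous (m' + 1) →
      Θ P = ∑ a, pderiv a P * b a := by
    intro P hP
    have h3 := hom_sum hP
    have h4 : ∀ ν : Ex w (m' + 1), (monomial ν.1 (coeff ν.1 P) : MvPolynomial (Fin w) K) =
        coeff ν.1 P • monomial ν.1 1 := by
      intro ν
      rw [smul_monomial, smul_eq_mul, mul_one]
    calc Θ P = Θ (∑ ν : Ex w (m' + 1), coeff ν.1 P • monomial ν.1 1) := by
          congr 1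
          conv_lhs => rw [h3]
          exact Finset.sum_congr rfl fun ν _ => h4 ν
      _ = ∑ ν : Ex w (m' + 1), coeff ν.1 P • ∑ a, pderiv a (monomial ν.1 1) * b a := by
          rw [map_sum]
          refine Finset.sum_congr rfl fun ν _ => ?_
          rw [map_smul, hbT ν.1 ν.2]
      _ = ∑ a, pderiv a (∑ ν : Ex w (m' + 1), coeff ν.1 P • monomial ν.1 1) * b a := by
          simp only [Finset.smul_sum]
          rw [Finset.sum_comm]
          refine Finset.sum_congr rfl fun a _ => ?_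
          rw [map_sum, Finset.sum_mul]
          refine Finset.sum_congr rfl fun ν _ => ?_
          rw [Derivation.map_smul, smul_mul_assoc]
      _ = ∑ a, pderiv a P * b a := by
          refine Finset.sum_congr rfl fun a _ => ?_
          congr 2
          conv_rhs => rw [h3]
          exact Finset.sum_congr rfl fun ν _ => (h4 ν).symm
  refine ⟨b, hb, fun j => ?_, fun q hq => ?_⟩
  · rw [← hTs, hall _ (hs j)]
  · obtain ⟨r, hr, he⟩ := hq
    by_cases hq0 : q = 0
    · rw [hq0, map_zero]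
      simp
    have h3 := hT0 r hr
    rw [← he] at h3
    have hqh : (q ^ (m' + 1)).IsHomogeneous (m' + 1) := by
      rw [he]
      refine IsHomogeneous.sum _ _ _ fun b _ => ?_
      have := (isHomogeneous_C (Fin w) (r b)).mul (hs (I b))
      rwa [zero_add] at this
    rw [hall _ hqh, Derivation.leibniz_pow] at h3
    simp only [Derivation.leibniz_pow, Nat.add_sub_cancel, smul_eq_mul, nsmul_eq_mul] at h3
    have h4 : ((m' + 1 : ℕ) : MvPolynomial (Fin w) K) * q ^ m' ≠ 0 := by
      refine mul_ne_zero ?_ (pow_ne_zero _ hq0)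
      exact Nat.cast_ne_zero.2 (Nat.succ_ne_zero m')
    apply mul_left_cancel₀ h4
    rw [Finset.mul_sum, mul_assoc, ← h3]
    refine Finset.sum_congr rfl fun a _ => ?_
    ring

end Run7.h418.R
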