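import Pool.Agent.Run7.h418.R.Span
import Pool.Agent.Run7.h418.Vf

/-!
Regularity of symmetric differentials at the places of the function field.
-/

set_option autoImplicit false

open MvPolynomial

namespace Run7.h418.R

open Pool.Agent.W602.GT FF

section preg

variable {K : Type} [Field K] [Algebra ℂ K] {w : ℕ} {P : Place ℂ K}

/-- all coefficients are regular -/
def PReg (P : Place ℂ K) (Q : MvPolynomial (Fin w) K) : Prop := ∀ μ, P.Reg (coeff μ Q)

theorem reg_sum {ε : Type} {S : Finset ε} {f : ε → K} (h : ∀ i ∈ S, P.Reg (f i)) :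
    P.Reg (∑ i ∈ S, f i) := sum_mem (S := P.O) h

theorem reg_prod {ε : Type} {S : Finset ε} {f : ε → K} (h : ∀ i ∈ S, P.Reg (f i)) :
    P.Reg (∏ i ∈ S, f i) := prod_mem (S := P.O) h

theorem reg_det {ε : Type} [Fintype ε] [DecidableEq ε] {A : Matrix ε ε K}
    (h : ∀ i j, P.Reg (A i j)) : P.Reg A.det := by
  rw [Matrix.det_apply]
  refine reg_sum fun s _ => ?_
  have h1 : P.Reg (∏ i, A (s i) i) := reg_prod fun i _ => h _ _
  rcases Int.units_eq_one_or (Equiv.Perm.sign s) with h2 | h2
  · rw [h2, one_smul]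
    exact h1
  · rw [h2, Units.neg_smul, one_smul]
    exact P.reg_neg h1

theorem PReg.add {Q R : MvPolynomial (Fin w) K} (hQ : PReg P Q) (hR : PReg P R) :
    PReg P (Q + R) := fun μ => by
  rw [coeff_add]
  exact P.reg_add (hQ μ) (hR μ)

theorem PReg.mul {Q R : MvPolynomial (Fin w) K} (hQ : PReg P Q) (hR : PReg P R) :
    PReg P (Q * R) := fun μ => by
  classical
  rw [coeff_mul]
  exact reg_sum fun x _ => P.reg_mul (hQ _) (hR _)

theorem PReg.C {c : K} (hc : P.Reg c) : PReg P (MvPolynomial.C c : MvPolynomial (Fin w) K) := by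
  classical
  intro μ
  rw [coeff_C]
  split_ifs
  · exact hc
  · exact P.reg_zero

theorem PReg.X (a : Fin w) : PReg P (MvPolynomial.X a : MvPolynomial (Fin w) K) := by
  classical
  intro μ
  rw [coeff_X']
  split_ifs
  · exact P.reg_one
  · exact P.reg_zero

theorem PReg.zero : PReg P (0 : MvPolynomial (Fin w) K) := fun μ => by
  rw [coeff_zero]
  exact P.reg_zero

theorem PReg.one : PReg P (1 : MvPolynomial (Fin w) K) := by
  rw [← C_1]
  exact PReg.C P.reg_one

theorem PReg.sum {ε : Type} {S : Finset ε} {f : ε → MvPolynomial (Fin w) K}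
    (h : ∀ i ∈ S, PReg P (f i)) : PReg P (∑ i ∈ S, f i) := fun μ => by
  rw [coeff_sum]
  exact reg_sum fun i hi => h i hi μ

theorem PReg.pow {Q : MvPolynomial (Fin w) K} (hQ : PReg P Q) (k : ℕ) : PReg P (Q ^ k) := by
  induction k with
  | zero => rw [pow_zero]; exact PReg.one
  | succ k ih => rw [pow_succ]; exact ih.mul hQ

theorem PReg.aeval {τ : Type} {f : τ → MvPolynomial (Fin w) K} (hf : ∀ t, PReg P (f t))
    (G : MvPolynomial τ ℂ) : PReg P (MvPolynomial.aeval f G) := by
  induction G using MvPolynomial.induction_on with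
  | C c =>
    rw [aeval_C]
    exact PReg.C (P.reg_const c)
  | add p q hp hq => rw [map_add]; exact hp.add hq
  | mul_X p l hp => rw [map_mul, aeval_X]; exact hp.mul (hf l)

end preg

section reps

variable {n w m : ℕ} {ι κ : Type} {F : ι → MvPolynomial (Fin (n + 1)) ℂ}
  {σ : κ → (Fin (n + 1) → ℂ) → (Fin (n + 1) → ℂ) → ℂ}
  {s : (Fin (n + 1) → ℂ) → (Fin (n + 1) → ℂ) → ℂ}
  {K : Type} [Field K] [Algebra ℂ K] {y : Fin (n + 1) → K}

/-- local expressions at the generic point -/
theorem exists_reps (hσ : ∀ j, SymForm F m (σ j)) {i0 : Fin (n + 1)}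
    (hy : y i0 = 1) (hmem : ∀ i, aeval y (F i) = 0) :
    ∃ (P : κ → MvPolynomial (Fin (n + 1) ⊕ Fin (n + 1)) ℂ)
      (H : κ → MvPolynomial (Fin (n + 1)) ℂ), (∀ j, IsRep F m (σ j) (P j) (H j)) ∧
        ∀ j, aeval y (H j) ≠ 0 := by
  obtain ⟨B, hB, hg⟩ := exists_B y
  let yB : Fin (n + 1) → B := fun k => ⟨y k, hg k⟩
  obtain ⟨χ, hχ⟩ := exists_chi hB (one_mem B) (one_ne_zero (α := K))
  have h1 : (fun k => χ (yB k)) ∈ Cone F := chi_cone χ (g := yB) hmem (i0 := i0) (by
    have h5 : yB i0 = 1 := Subtype.ext hy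
    rw [h5, map_one]
    exact one_ne_zero)
  choose P H hH hrep using fun j => exists_rep (hσ j) h1
  refine ⟨P, H, hrep, fun j h0 => hH j ?_⟩
  rw [← chi_aeval]
  have h2 : aeval yB (H j) = 0 := Subtype.ext ((B_aeval yB (H j)).trans h0)
  rw [h2, map_zero]

/-- local expressions at the centre of a place -/
theorem exists_rep_at (hF : ∀ i, IsForm (F i)) (hs : SymForm F m s) {i0 : Fin (n + 1)}
    (hy : y i0 = 1) (hmem : ∀ i, aeval y (F i) = 0) (P : Place ℂ K) :
    ∃ l : K, l ≠ 0 ∧ (∀ k, P.Reg (l * y k)) ∧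
      ∃ P' H', IsRep F m s P' H' ∧ aeval (fun k => l * y k) H' ≠ 0 ∧
        P.Reg (aeval (fun k => l * y k) H')⁻¹ := by
  classical
  obtain ⟨i1, hi1, hmin⟩ := Finset.exists_min_image (Finset.univ.filter fun k => y k ≠ 0)
    (fun k => P.ord (y k)) ⟨i0, by
      rw [Finset.mem_filter]
      exact ⟨Finset.mem_univ _, by rw [hy]; exact one_ne_zero⟩⟩
  have hi1' : y i1 ≠ 0 := (Finset.mem_filter.1 hi1).2
  have hl : (y i1)⁻¹ ≠ 0 := inv_ne_zero hi1'
  have hreg : ∀ k, P.Reg ((y i1)⁻¹ * y k) := by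
    intro k
    by_cases hk : y k = 0
    · rw [hk, mul_zero]
      exact P.reg_zero
    · right
      rw [P.ord_mul hl hk, P.ord_inv]
      have := hmin k (Finset.mem_filter.2 ⟨Finset.mem_univ _, hk⟩)
      omega
  set y' : Fin (n + 1) → K := fun k => (y i1)⁻¹ * y k with hy'
  have hreg' : ∀ G : MvPolynomial (Fin (n + 1)) ℂ, P.Reg (aeval y' G) := by
    intro G
    induction G using MvPolynomial.induction_on with
    | C c =>
      rw [aeval_C]
      exact P.reg_const c
    | add p q hp hq => rw [map_add]; exact P.reg_add hp hq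
    | mul_X p l hp => rw [map_mul, aeval_X]; exact P.reg_mul hp (hreg l)
  set I : Ideal (MvPolynomial (Fin (n + 1)) ℂ) :=
    { carrier := {G | aeval y' G = 0 ∨ 0 < P.ord (aeval y' G)}
      add_mem' := by
        intro G H hG hH
        change aeval y' (G + H) = 0 ∨ 0 < P.ord (aeval y' (G + H))
        rw [map_add]
        rcases hG with hG | hG
        · rw [hG, zero_add]
          exact hH
        rcases hH with hH | hH
        · rw [hH, add_zero]
          exact Or.inr hG
        by_cases h1 : aeval y' G = 0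
        · rw [h1, P.ord_zero] at hG
          exact absurd hG (lt_irrefl 0)
        by_cases h2 : aeval y' H = 0
        · rw [h2, P.ord_zero] at hH
          exact absurd hH (lt_irrefl 0)
        by_cases h3 : aeval y' G + aeval y' H = 0
        · exact Or.inl h3
        · exact Or.inr ((lt_min hG hH).trans_le (P.ord_add h1 h2 h3))
      zero_mem' := Or.inl (map_zero _)
      smul_mem' := by
        intro G H hH
        change aeval y' (G * H) = 0 ∨ 0 < P.ord (aeval y' (G * H))
        rw [map_mul]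
        rcases hH with hH | hH
        · rw [hH, mul_zero]
          exact Or.inl rfl
        by_cases h1 : aeval y' G = 0
        · rw [h1, zero_mul]
          exact Or.inl rfl
        by_cases h2 : aeval y' H = 0
        · rw [h2, mul_zero]
          exact Or.inl rfl
        right
        rw [P.ord_mul h1 h2]
        have := (P.reg_iff h1).1 (hreg' G)
        omega } with hI
  have hne : I ≠ ⊤ := by
    intro h
    have h1 : (1 : MvPolynomial (Fin (n + 1)) ℂ) ∈ I := by rw [h]; trivial
    have h2 : aeval y' (1 : MvPolynomial (Fin (n + 1)) ℂ) = 0 ∨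
      0 < P.ord (aeval y' (1 : MvPolynomial (Fin (n + 1)) ℂ)) := h1
    rw [map_one, P.ord_one] at h2
    rcases h2 with h2 | h2
    · exact one_ne_zero h2
    · exact lt_irrefl 0 h2
  obtain ⟨a, ha⟩ := exists_point hne
  have ha1 : a i1 = 1 := by
    have h1 := ha (X i1 - 1) (Or.inl (by
      rw [map_sub, aeval_X, map_one, hy']
      simp only
      rw [inv_mul_cancel₀ hi1', sub_self]))
    rwa [map_sub, eval_X, map_one, sub_eq_zero] at h1
  have haC : a ∈ Cone F := by
    refine mem_cone.2 ⟨fun h => ?_, fun i => ?_⟩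
    · rw [h] at ha1
      exact zero_ne_one ha1
    · refine ha _ (Or.inl ?_)
      obtain ⟨e, he⟩ := hF i
      have h9 := val_smul he (y i1)⁻¹ y
      unfold val at h9
      rw [hmem, mul_zero] at h9
      exact h9
  obtain ⟨P', H', hH', hrep⟩ := exists_rep hs haC
  have h1 : ¬ (aeval y' H' = 0 ∨ 0 < P.ord (aeval y' H')) := fun h => hH' (ha H' h)
  push Not at h1
  refine ⟨(y i1)⁻¹, hl, hreg, P', H', hrep, h1.1, Or.inr ?_⟩
  rw [P.ord_inv]
  have := h1.2
  change 0 ≤ -P.ord (aeval y' H')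
  omega

/-- the polynomial of a symmetric differential in a frame -/
noncomputable def sj (y : Fin (n + 1) → K)
    (P : MvPolynomial (Fin (n + 1) ⊕ Fin (n + 1)) ℂ) (H : MvPolynomial (Fin (n + 1)) ℂ)
    (D : Fin w → Derivation ℂ K K) : MvPolynomial (Fin w) K :=
  C (aeval y H)⁻¹ * pv y D P

theorem sub_C (a : Matrix (Fin w) (Fin w) K) (c : K) : sub a (C c) = C c := by
  unfold sub
  rw [aeval_C]
  rfl

theorem sj_sub (P : MvPolynomial (Fin (n + 1) ⊕ Fin (n + 1)) ℂ)
    (H : MvPolynomial (Fin (n + 1)) ℂ) (a : Matrix (Fin w) (Fin w) K)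
    (D : Fin w → Derivation ℂ K K) :
    sj y P H (fun i => ∑ j, a i j • D j) = sub a (sj y P H D) := by
  unfold sj
  rw [pv_sub, map_mul, sub_C]

theorem sj_hom {P : MvPolynomial (Fin (n + 1) ⊕ Fin (n + 1)) ℂ}
    {H : MvPolynomial (Fin (n + 1)) ℂ} (h : IsRep F m s P H) (D : Fin w → Derivation ℂ K K) :
    (sj y P H D).IsHomogeneous m := by
  have := (isHomogeneous_C (Fin w) (aeval y H)⁻¹).mul (pv_hom y D h.1)
  rwa [zero_add] at this

theorem sj_reg (hF : ∀ i, IsForm (F i)) (hs : SymForm F m s) {i0 : Fin (n + 1)}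
    (hy : y i0 = 1) (hmem : ∀ i, aeval y (F i) = 0)
    {P : MvPolynomial (Fin (n + 1) ⊕ Fin (n + 1)) ℂ} {H : MvPolynomial (Fin (n + 1)) ℂ}
    (h : IsRep F m s P H) (hH : aeval y H ≠ 0) (p : Place ℂ K)
    {D : Fin w → Derivation ℂ K K} (hD : ∀ i, DerReg p (D i)) : PReg p (sj y P H D) := by
  have hy0 : y ≠ 0 := by
    intro h0
    rw [h0] at hy
    exact zero_ne_one hy
  obtain ⟨l, hl, hreg, P', H', hrep, hH0, hHr⟩ := exists_rep_at hF hs hy hmem p
  have hinf : Infinite K := by
    have : CharZero K := charZero_of_injective_algebraMap (algebraMap ℂ K).injective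
    infer_instance
  have h1 : sj y P H D = C (aeval (fun k => l * y k) H')⁻¹ * pv (fun k => l * y k) D P' := by
    apply MvPolynomial.funext
    intro τ
    unfold sj
    rw [map_mul, map_mul, eval_C, eval_C, pv_eval, pv_eval]
    have h2 := rep_eq hF hs h hrep hy0 hmem hH hl hH0 (∑ a, τ a • D a)
    field_simp
    linear_combination h2
  rw [h1]
  refine (PReg.C hHr).mul (PReg.aeval (fun k => ?_) P')
  rcases k with k | k
  · exact PReg.C (hreg k)
  · exact PReg.sum fun a _ => (PReg.C (hD a _ (hreg k))).mul (PReg.X a)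

end reps

end Run7.h418.R
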