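import Pool.Agent.Run7.h418.R.Reg

/-!
Regular symmetric forms with values in the powers of the canonical bundle.
-/

set_option autoImplicit false

open MvPolynomial

namespace Run7.h418.R

open Pool.Agent.W602.GT FF

variable {K : Type} [Field K] [Algebra ℂ K] {w : ℕ}

/-- Rational sections of `Sᴹ Ω ⊗ ω ^ N` which are regular at all prime divisors. -/
structure SF (M N : ℕ) (Φ : (Fin w → Derivation ℂ K K) → MvPolynomial (Fin w) K) : Prop where
  hom : ∀ D, (Φ D).IsHomogeneous M
  tr : ∀ (a : Matrix (Fin w) (Fin w) K) (D : Fin w → Derivation ℂ K K),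
    Φ (fun i => ∑ j, a i j • D j) = C (a.det ^ N) * sub a (Φ D)
  reg : ∀ P : Place ℂ K, Divisorial w P → ∀ D : Fin w → Derivation ℂ K K,
    (∀ i, DerReg P (D i)) → PReg P (Φ D)

/-- Rational pluricanonical forms which are regular at all prime divisors. -/
structure PF (N : ℕ) (ω : (Fin w → Derivation ℂ K K) → K) : Prop where
  pl : IsPluri N ω
  reg : ∀ P : Place ℂ K, Divisorial w P → RegAt P ω

variable {M N M' N' : ℕ} {Φ Ψ : (Fin w → Derivation ℂ K K) → MvPolynomial (Fin w) K}
  {ω ω' : (Fin w → Derivation ℂ K K) → K}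

theorem SF.mul (h : SF M N Φ) (h' : SF M' N' Ψ) : SF (M + M') (N + N') fun D => Φ D * Ψ D where
  hom D := (h.hom D).mul (h'.hom D)
  tr a D := by
    rw [h.tr, h'.tr, pow_add, map_mul, map_mul]
    ring
  reg P hP D hD := (h.reg P hP D hD).mul (h'.reg P hP D hD)

theorem SF.pow (h : SF M N Φ) (k : ℕ) : SF (M * k) (N * k) fun D => Φ D ^ k where
  hom D := (h.hom D).pow k
  tr a D := by rw [h.tr, mul_pow, ← map_pow, ← map_pow, pow_mul]
  reg P hP D hD := (h.reg P hP D hD).pow k

theorem PF.sf (h : PF N ω) : SF 0 N fun D => (C (ω D) : MvPolynomial (Fin w) K) where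
  hom D := isHomogeneous_C _ _
  tr a D := by rw [h.pl, map_mul, sub_C]
  reg P hP D hD := PReg.C (h.reg P hP D hD)

theorem PF.mul (h : PF N ω) (h' : PF N' ω') : PF (N + N') fun D => ω D * ω' D where
  pl a D := by
    have h1 := h.pl a D
    have h2 := h'.pl a D
    simp only [h1, h2, pow_add]
    ring
  reg P hP D hD := P.reg_mul (h.reg P hP D hD) (h'.reg P hP D hD)

theorem PF.one : PF (w := w) (K := K) 0 fun _ => 1 where
  pl a D := by rw [pow_zero, one_mul]
  reg P _ _ _ := P.reg_one

theorem PF.prod {ε : Type} (S : Finset ε) {Nn : ε → ℕ}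
    {ω : ε → (Fin w → Derivation ℂ K K) → K} (h : ∀ i, PF (Nn i) (ω i)) :
    PF (∑ i ∈ S, Nn i) fun D => ∏ i ∈ S, ω i D where
  pl a D := by
    rw [← Finset.prod_pow_eq_pow_sum, ← Finset.prod_mul_distrib]
    exact Finset.prod_congr rfl fun i _ => (h i).pl a D
  reg P hP D hD := reg_prod fun i _ => (h i).reg P hP D hD

/-- determinants of symmetric forms -/
theorem SF.det {Nn : Ex w M → ℕ}
    {Φ : Ex w M → (Fin w → Derivation ℂ K K) → MvPolynomial (Fin w) K}
    (h : ∀ b, SF M (Nn b) (Φ b)) {Nd : ℕ}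
    (hNd : ∀ a : Matrix (Fin w) (Fin w) K, (SM M a).det = a.det ^ Nd) :
    PF (∑ b, Nn b + Nd) fun D => (Matrix.of fun b (μ : Ex w M) => coeff μ.1 (Φ b D)).det where
  pl a D := by
    have h1 : (Matrix.of fun b (μ : Ex w M) => coeff μ.1 (Φ b fun i => ∑ j, a i j • D j)) =
        Matrix.diagonal (fun b => a.det ^ Nn b) *
          ((Matrix.of fun b (μ : Ex w M) => coeff μ.1 (Φ b D)) * SM M a) := by
      ext b μ
      rw [Matrix.diagonal_mul, Matrix.of_apply, (h b).tr, coeff_C_mul,
        coeff_sub a ((h b).hom D), Matrix.mul_apply]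
      rfl
    simp only
    rw [h1, Matrix.det_mul, Matrix.det_mul, Matrix.det_diagonal, hNd, pow_add,
      Finset.prod_pow_eq_pow_sum]
    ring
  reg P hP D hD := reg_det fun b μ => (h b).reg P hP D hD μ.1

/-- pluricanonical forms are proportional -/
theorem PF.ratio (h : PF N ω) (h' : PF N ω') {D0 : Fin w → Derivation ℂ K K}
    (hD0 : ∀ D : Fin w → Derivation ℂ K K, ∃ a : Matrix (Fin w) (Fin w) K,
      D = fun i => ∑ j, a i j • D0 j) (h0 : ω D0 ≠ 0) (D : Fin w → Derivation ℂ K K) :
    ω' D = ω' D0 / ω D0 * ω D := by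
  obtain ⟨a, rfl⟩ := hD0 D
  rw [h.pl, h'.pl]
  field_simp

/-- The derivatives of the quotients of pluricanonical forms. -/
theorem PF.dform (h : PF N ω) (h' : PF N ω') {D0 : Fin w → Derivation ℂ K K}
    (hD0 : ∀ D : Fin w → Derivation ℂ K K, ∃ a : Matrix (Fin w) (Fin w) K,
      D = fun i => ∑ j, a i j • D0 j) (h0 : ω D0 ≠ 0) :
    SF 1 (N * 2) fun D => C (ω D ^ 2) * ∑ a, C (D a (ω' D0 / ω D0)) * X a where
  hom D := by
    have := (isHomogeneous_C (Fin w) (ω D ^ 2)).mul (IsHomogeneous.sum Finset.univ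
      (fun a => C (D a (ω' D0 / ω D0)) * X a : Fin w → MvPolynomial (Fin w) K) 1 fun a _ => by
        have := (isHomogeneous_C (Fin w) (D a (ω' D0 / ω D0))).mul (isHomogeneous_X K a)
        rwa [zero_add] at this)
    rwa [zero_add] at this
  tr a D := by
    simp only [h.pl a D, map_mul, sub_C, map_sum, sub_X, comb_apply, mul_pow, pow_mul]
    rw [mul_assoc]
    congr 2
    simp only [Finset.sum_mul, Finset.mul_sum]
    rw [Finset.sum_comm]
    refine Finset.sum_congr rfl fun j _ => Finset.sum_congr rfl fun i _ => ?_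
    ring
  reg P hP D hD := by
    have h1 : (C (ω D ^ 2) * ∑ a, C (D a (ω' D0 / ω D0)) * X a : MvPolynomial (Fin w) K) =
        ∑ a, C (D a (ω' D) * ω D - ω' D * D a (ω D)) * X a := by
      rw [Finset.mul_sum]
      refine Finset.sum_congr rfl fun a _ => ?_
      rw [← mul_assoc, ← map_mul]
      congr 2
      have h2 := h.ratio h' hD0 h0 D
      set β := ω' D0 / ω D0 with hβ
      rw [h2, Derivation.leibniz, smul_eq_mul, smul_eq_mul]
      ring
    rw [h1]
    refine PReg.sum fun a _ => (PReg.C ?_).mul (PReg.X a)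
    have h2 := h.reg P hP D hD
    have h3 := h'.reg P hP D hD
    rw [sub_eq_add_neg]
    exact P.reg_add (P.reg_mul (hD a _ h3) h2) (P.reg_neg (P.reg_mul h3 (hD a _ h2)))

/-- The quotients of regular pluricanonical forms. -/
def Rt (D0 : Fin w → Derivation ℂ K K) (β : K) : Prop :=
  ∃ (N : ℕ) (ω ω' : (Fin w → Derivation ℂ K K) → K), 0 < N ∧ PF N ω ∧ PF N ω' ∧ ω D0 ≠ 0 ∧
    β = ω' D0 / ω D0

/-- **Cramer's rule.** -/
theorem cramer {κ : Type} {Φ : κ → (Fin w → Derivation ℂ K K) → MvPolynomial (Fin w) K}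
    (hΦ : ∀ j, SF M 0 (Φ j)) {D0 : Fin w → Derivation ℂ K K} (hw : 0 < w) (hM : 0 < M)
    {I : Ex w M → κ}
    (hI : (Matrix.of fun b (μ : Ex w M) => coeff μ.1 (Φ (I b) D0)).det ≠ 0)
    {Q : MvPolynomial (Fin w) K} {N0 : ℕ} (hω : PF N0 ω) (h0 : ω D0 ≠ 0) (hΨ : SF M N0 Ψ)
    (hQ : Ψ D0 = C (ω D0) * Q) :
    ∃ r : Ex w M → K, (∀ b, Rt D0 (r b)) ∧ Q = ∑ b, C (r b) * Φ (I b) D0 := by
  classical
  have hch : CharZero K := charZero_of_injective_algebraMap (algebraMap ℂ K).injective
  obtain ⟨Nd, hNd0, hNd⟩ := exists_det (w := w) (K := K) M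
  set A : Matrix (Ex w M) (Ex w M) K := Matrix.of fun b (μ : Ex w M) => coeff μ.1 (Φ (I b) D0)
    with hA
  have hQh : Q.IsHomogeneous M := by
    have h1 : Q = C (ω D0)⁻¹ * Ψ D0 := by
      rw [hQ, ← mul_assoc, ← map_mul, inv_mul_cancel₀ h0, C_1, one_mul]
    rw [h1]
    have := (isHomogeneous_C (Fin w) (ω D0)⁻¹).mul (hΨ.hom D0)
    rwa [zero_add] at this
  set q : Ex w M → K := fun μ => coeff μ.1 Q with hq
  refine ⟨fun b => (A.updateRow b q).det / A.det, fun b => ?_, ?_⟩
  · -- the quotients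
    have e1 : ∀ c, SF M (if c = b then N0 else 0)
        ((fun c D => if c = b then Ψ D else Φ (I c) D : Ex w M →
          (Fin w → Derivation ℂ K K) → MvPolynomial (Fin w) K) c) := by
      intro c
      by_cases hc : c = b
      · simp only [if_pos hc]
        exact hΨ
      · simp only [if_neg hc]
        exact hΦ _
    have e2 : ∀ c, SF M (if c = b then N0 else 0)
        ((fun c D => if c = b then C (ω D) * Φ (I c) D else Φ (I c) D : Ex w M →
          (Fin w → Derivation ℂ K K) → MvPolynomial (Fin w) K) c) := by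
      intro c
      by_cases hc : c = b
      · simp only [if_pos hc]
        have := hω.sf.mul (hΦ (I c))
        rwa [zero_add, add_zero] at this
      · simp only [if_neg hc]
        exact hΦ _
    have h1 := SF.det e1 hNd
    have h2 := SF.det e2 hNd
    have h3 : (Matrix.of fun c (μ : Ex w M) => coeff μ.1
        (if c = b then C (ω D0) * Φ (I c) D0 else Φ (I c) D0)).det = ω D0 * A.det := by
      have h4 : (Matrix.of fun c (μ : Ex w M) => coeff μ.1
          (if c = b then C (ω D0) * Φ (I c) D0 else Φ (I c) D0)) =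
            A.updateRow b (ω D0 • A b) := by
        ext c μ
        rw [Matrix.of_apply, Matrix.updateRow_apply]
        split_ifs with hc
        · rw [coeff_C_mul, Pi.smul_apply, smul_eq_mul, hc]
          rfl
        · rfl
      rw [h4, Matrix.det_updateRow_smul, Matrix.updateRow_eq_self]
    have h5 : (Matrix.of fun c (μ : Ex w M) => coeff μ.1
        (if c = b then Ψ D0 else Φ (I c) D0)).det = ω D0 * (A.updateRow b q).det := by
      have h4 : (Matrix.of fun c (μ : Ex w M) => coeff μ.1
          (if c = b then Ψ D0 else Φ (I c) D0)) = A.updateRow b (ω D0 • q) := by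
        ext c μ
        rw [Matrix.of_apply, Matrix.updateRow_apply]
        split_ifs with hc
        · rw [hQ, coeff_C_mul, Pi.smul_apply, smul_eq_mul]
        · rfl
      rw [h4, Matrix.det_updateRow_smul]
    refine ⟨_, _, _, ?_, h2, h1, ?_, ?_⟩
    · exact Nat.add_pos_right _ (hNd0 hw hM)
    · change (Matrix.of fun c (μ : Ex w M) => coeff μ.1
        (if c = b then C (ω D0) * Φ (I c) D0 else Φ (I c) D0)).det ≠ 0
      rw [h3]
      exact mul_ne_zero h0 hI
    · change (A.updateRow b q).det / A.det = (Matrix.of fun c (μ : Ex w M) => coeff μ.1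
        (if c = b then Ψ D0 else Φ (I c) D0)).det / (Matrix.of fun c (μ : Ex w M) => coeff μ.1
        (if c = b then C (ω D0) * Φ (I c) D0 else Φ (I c) D0)).det
      rw [h3, h5, mul_div_mul_left _ _ h0]
  · -- the sum
    have hu : IsUnit A.det := isUnit_iff_ne_zero.2 hI
    have h1 : ∀ μ : Ex w M, q μ = ∑ b, (A.updateRow b q).det / A.det * A b μ := by
      intro μ
      have h2 := Matrix.mulVec_cramer A.transpose q
      have h3 := congrFun h2 μ
      rw [Pi.smul_apply, smul_eq_mul, Matrix.det_transpose] at h3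
      have h4 : ∀ b, A.transpose.cramer q b = (A.updateRow b q).det := fun b => by
        rw [Matrix.cramer_transpose_apply]
      have h5 : (A.transpose.mulVec (A.transpose.cramer q)) μ =
          ∑ b, A b μ * (A.updateRow b q).det := by
        refine Finset.sum_congr rfl fun b _ => ?_
        rw [h4]
        rfl
      rw [h5] at h3
      have h6 : ∑ b, (A.updateRow b q).det / A.det * A b μ =
          (∑ b, A b μ * (A.updateRow b q).det) / A.det := by
        rw [Finset.sum_div]
        exact Finset.sum_congr rfl fun b _ => by ring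
      rw [h6, h3, mul_div_cancel_left₀ _ hI]
    ext μ
    by_cases hμ : μ.degree = M
    · have h2 := h1 ⟨μ, hμ⟩
      rw [coeff_sum]
      simp only [coeff_C_mul]
      exact h2
    · rw [hQh.coeff_eq_zero hμ, coeff_sum]
      refine (Finset.sum_eq_zero fun b _ => ?_).symm
      rw [coeff_C_mul, ((hΦ (I b)).hom D0).coeff_eq_zero hμ, mul_zero]

end Run7.h418.R
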