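import Pool.Agent.Run7.h418.R.Sp
import Pool.Agent.W602.GT.Gm

/-!
The values of symmetric differentials on rational vector fields.
-/

set_option autoImplicit false

open MvPolynomial

namespace Run7.h418.R

open Pool.Agent.W602.GT

section chi

variable {K : Type} [Field K] [Algebra ℂ K]

theorem exists_B {τ : Type} [Finite τ] (g : τ → K) :
    ∃ B : Subalgebra ℂ K, B.FG ∧ ∀ t, g t ∈ B := by
  cases nonempty_fintype τ
  classical
  refine ⟨Algebra.adjoin ℂ (Set.range g), ?_, fun t => Algebra.subset_adjoin ⟨t, rfl⟩⟩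
  have := Subalgebra.fg_adjoin_finset (R := ℂ) (Finset.univ.image g)
  rwa [Finset.coe_image, Finset.coe_univ, Set.image_univ] at this

theorem B_aeval {B : Subalgebra ℂ K} {τ : Type} (g : τ → B) (G : MvPolynomial τ ℂ) :
    ((aeval g G : B) : K) = aeval (fun t => (g t : K)) G := comp_aeval_apply g B.val G

theorem chi_aeval {B : Subalgebra ℂ K} (χ : B →ₐ[ℂ] ℂ) {τ : Type} (g : τ → B)
    (G : MvPolynomial τ ℂ) : χ (aeval g G) = eval (fun t => χ (g t)) G :=
  (comp_aeval_apply g χ G).trans (congrFun (MvPolynomial.aeval_eq_eval _) G)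

variable {n : ℕ} {ι : Type} {F : ι → MvPolynomial (Fin (n + 1)) ℂ}

theorem chi_cone {B : Subalgebra ℂ K} (χ : B →ₐ[ℂ] ℂ) {g : Fin (n + 1) → B}
    (hF : ∀ i, aeval (fun k => (g k : K)) (F i) = 0) {i0 : Fin (n + 1)} (h0 : χ (g i0) ≠ 0) :
    (fun k => χ (g k)) ∈ Cone F := by
  refine mem_cone.2 ⟨fun h => h0 (congrFun h i0), fun i => ?_⟩
  rw [← chi_aeval]
  have h1 : aeval g (F i) = 0 := Subtype.ext ((B_aeval g (F i)).trans (hF i))
  rw [h1, map_zero]

theorem chi_tan {B : Subalgebra ℂ K} (χ : B →ₐ[ℂ] ℂ) {g v : Fin (n + 1) → B}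
    (hF : ∀ i, aeval (fun k => (g k : K)) (F i) = 0) (D : Derivation ℂ K K)
    (hv : ∀ k, (v k : K) = D (g k)) : Tan F (fun k => χ (g k)) (fun k => χ (v k)) := by
  intro i
  have h1 : ∑ k, aeval g (pderiv k (F i)) * v k = (0 : B) := by
    apply Subtype.ext
    rw [AddSubmonoidClass.coe_finsetSum]
    have h2 := der_aeval D (fun k => (g k : K)) (F i)
    rw [hF i, map_zero] at h2
    refine Eq.trans ?_ h2.symm
    refine Finset.sum_congr rfl fun k _ => ?_
    rw [MulMemClass.coe_mul, B_aeval, hv]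
  have h2 := congrArg χ h1
  rw [map_zero, map_sum] at h2
  rw [← h2]
  refine Finset.sum_congr rfl fun k _ => ?_
  rw [map_mul, chi_aeval]

end chi

section rep

variable {n : ℕ} {ι : Type} {F : ι → MvPolynomial (Fin (n + 1)) ℂ} {m : ℕ}
  {s : (Fin (n + 1) → ℂ) → (Fin (n + 1) → ℂ) → ℂ}
  {K : Type} [Field K] [Algebra ℂ K] {y : Fin (n + 1) → K}

/-- the values do not depend on the expressions -/
theorem rep_eq (hF : ∀ i, IsForm (F i)) (hs : SymForm F m s)
    {P P' : MvPolynomial (Fin (n + 1) ⊕ Fin (n + 1)) ℂ} {H H' : MvPolynomial (Fin (n + 1)) ℂ}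
    (h : IsRep F m s P H) (h' : IsRep F m s P' H') (hy : y ≠ 0)
    (hmem : ∀ i, aeval y (F i) = 0) (hH : aeval y H ≠ 0) {l : K} (hl : l ≠ 0)
    (hH' : aeval (fun k => l * y k) H' ≠ 0) (D : Derivation ℂ K K) :
    aeval (Sum.elim y fun k => D (y k)) P * aeval (fun k => l * y k) H' =
      aeval (Sum.elim (fun k => l * y k) fun k => D (l * y k)) P' * aeval y H := by
  classical
  by_contra hne
  obtain ⟨i0, hi0⟩ := Function.ne_iff.1 hy
  obtain ⟨B, hB, hg⟩ := exists_B (Sum.elim (Sum.elim y fun k => D (y k)) ![l, D l] :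
    (Fin (n + 1) ⊕ Fin (n + 1)) ⊕ Fin 2 → K)
  let yB : Fin (n + 1) → B := fun k => ⟨y k, hg (Sum.inl (Sum.inl k))⟩
  let vB : Fin (n + 1) → B := fun k => ⟨D (y k), hg (Sum.inl (Sum.inr k))⟩
  let lB : B := ⟨l, hg (Sum.inr 0)⟩
  let dB : B := ⟨D l, hg (Sum.inr 1)⟩
  let y'B : Fin (n + 1) → B := fun k => lB * yB k
  let v'B : Fin (n + 1) → B := fun k => lB * vB k + yB k * dB
  have hy' : ∀ k, (y'B k : K) = l * y k := fun k => rfl
  have hv' : ∀ k, (v'B k : K) = D (l * y k) := by
    intro k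
    rw [Derivation.leibniz, smul_eq_mul, smul_eq_mul]
    rfl
  have e1 : ((aeval yB H : B) : K) = aeval y H := B_aeval yB H
  have e2 : ((aeval y'B H' : B) : K) = aeval (fun k => l * y k) H' := B_aeval y'B H'
  have e3 : ((aeval (Sum.elim yB vB) P : B) : K) = aeval (Sum.elim y fun k => D (y k)) P := by
    rw [B_aeval]
    congr 1
    congr 1
    funext k
    rcases k with k | k <;> rfl
  have e4 : ((aeval (Sum.elim y'B v'B) P' : B) : K) =
      aeval (Sum.elim (fun k => l * y k) fun k => D (l * y k)) P' := by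
    rw [B_aeval]
    congr 1
    congr 1
    funext k
    rcases k with k | k
    · rfl
    · exact hv' k
  let bB : B := yB i0 * lB * aeval yB H * aeval y'B H' *
    (aeval (Sum.elim yB vB) P * aeval y'B H' - aeval (Sum.elim y'B v'B) P' * aeval yB H)
  have hb : (bB : K) ≠ 0 := by
    change y i0 * l * ((aeval yB H : B) : K) * ((aeval y'B H' : B) : K) *
      (((aeval (Sum.elim yB vB) P : B) : K) * ((aeval y'B H' : B) : K) -
      ((aeval (Sum.elim y'B v'B) P' : B) : K) * ((aeval yB H : B) : K)) ≠ 0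
    rw [e1, e2, e3, e4]
    exact mul_ne_zero (mul_ne_zero (mul_ne_zero (mul_ne_zero hi0 hl) hH) hH') (sub_ne_zero.2 hne)
  obtain ⟨χ, hχ⟩ := exists_chi hB bB.2 hb
  have hχ' : χ bB ≠ 0 := hχ
  rw [map_mul, map_mul, map_mul, map_mul, map_sub, map_mul, map_mul, chi_aeval, chi_aeval,
    chi_aeval, chi_aeval] at hχ'
  obtain ⟨h1, h2⟩ := ne_zero_and_ne_zero_of_mul hχ'
  obtain ⟨h3, h4⟩ := ne_zero_and_ne_zero_of_mul h1
  obtain ⟨h5, h6⟩ := ne_zero_and_ne_zero_of_mul h3
  obtain ⟨h7, h8⟩ := ne_zero_and_ne_zero_of_mul h5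
  set x : Fin (n + 1) → ℂ := fun k => χ (yB k) with hx
  set v : Fin (n + 1) → ℂ := fun k => χ (vB k) with hv
  have hx' : (fun k => χ (y'B k)) = χ lB • x := by
    funext k
    exact map_mul χ _ _
  have hvv : (fun k => χ (v'B k)) = χ lB • (v + (χ dB / χ lB) • x) := by
    funext k
    change χ (lB * vB k + yB k * dB) = χ lB * (χ (vB k) + χ dB / χ lB * χ (yB k))
    rw [map_add, map_mul, map_mul]
    field_simp
  have hxC : x ∈ Cone F := chi_cone χ (g := yB) hmem h7
  have hT : Tan F x v := chi_tan χ (g := yB) hmem D fun k => rfl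
  have hmem' : ∀ i, aeval (fun k => (y'B k : K)) (F i) = 0 := by
    intro i
    obtain ⟨e, he⟩ := hF i
    have h9 := val_smul he l y
    unfold val at h9
    rw [hmem, mul_zero] at h9
    exact h9
  have hx'C : (fun k => χ (y'B k)) ∈ Cone F := chi_cone χ (g := y'B) hmem' (i0 := i0) (by
    change χ (lB * yB i0) ≠ 0
    rw [map_mul]
    exact mul_ne_zero h8 h7)
  have hT' : Tan F (fun k => χ (y'B k)) fun k => χ (v'B k) := chi_tan χ (g := y'B) hmem' D hv'
  have h9 := h.2 x hxC h6 v hT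
  have h10 := h'.2 _ hx'C h4 _ hT'
  have h11 := hs.twist x hxC v hT (χ lB) (χ dB / χ lB) h8
  rw [← hx', ← hvv, h10, h9, div_eq_div_iff h4 h6] at h11
  apply h2
  have f1 : (fun t => χ (Sum.elim yB vB t)) = Sum.elim x v := by
    funext t
    rcases t with t | t <;> rfl
  have f2 : (fun t => χ (Sum.elim y'B v'B t)) =
      Sum.elim (fun k => χ (y'B k)) fun k => χ (v'B k) := by
    funext t
    rcases t with t | t <;> rfl
  rw [f1, f2]
  linear_combination -h11

end rep

section pol

variable {n w : ℕ} {K : Type} [Field K] [Algebra ℂ K]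

/-- the polynomial of a symmetric differential in a frame -/
noncomputable def pv (y : Fin (n + 1) → K) (D : Fin w → Derivation ℂ K K)
    (P : MvPolynomial (Fin (n + 1) ⊕ Fin (n + 1)) ℂ) : MvPolynomial (Fin w) K :=
  aeval (Sum.elim (fun k => C (y k)) fun k => ∑ a, C (D a (y k)) * X a) P

theorem comb_apply (τ : Fin w → K) (D : Fin w → Derivation ℂ K K) (x : K) :
    (∑ a, τ a • D a) x = ∑ a, τ a * D a x := by
  have h1 : ∀ S : Finset (Fin w), (∑ s ∈ S, τ s • D s) x = ∑ s ∈ S, τ s * D s x := by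
    intro S
    induction S using Finset.cons_induction with
    | empty => simp
    | cons a s ha ih =>
      rw [Finset.sum_cons, Finset.sum_cons, Derivation.add_apply, Derivation.smul_apply, ih,
        smul_eq_mul]
  exact h1 _

theorem pv_eval (y : Fin (n + 1) → K) (D : Fin w → Derivation ℂ K K)
    (P : MvPolynomial (Fin (n + 1) ⊕ Fin (n + 1)) ℂ) (τ : Fin w → K) :
    eval τ (pv y D P) = aeval (Sum.elim y fun k => (∑ a, τ a • D a) (y k)) P := by
  unfold pv
  have h1 := comp_aeval_apply (R := ℂ) (Sum.elim (fun k => C (y k))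
    fun k => ∑ a, C (D a (y k)) * X a : Fin (n + 1) ⊕ Fin (n + 1) → MvPolynomial (Fin w) K)
    ((aeval τ : MvPolynomial (Fin w) K →ₐ[K] K).restrictScalars ℂ) P
  have h2 : ((aeval τ : MvPolynomial (Fin w) K →ₐ[K] K).restrictScalars ℂ)
      (aeval (Sum.elim (fun k => C (y k)) fun k => ∑ a, C (D a (y k)) * X a) P) =
      eval τ (aeval (Sum.elim (fun k => C (y k)) fun k => ∑ a, C (D a (y k)) * X a) P) := rfl
  rw [← h2, h1]
  congr 1
  congr 1
  funext k
  rcases k with k | k
  · change aeval τ (C (y k)) = y k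
    rw [aeval_C]
    rfl
  · change aeval τ (∑ a, C (D a (y k)) * X a) = (∑ a, τ a • D a) (y k)
    rw [comb_apply, map_sum]
    refine Finset.sum_congr rfl fun a _ => ?_
    rw [map_mul, aeval_C, aeval_X, mul_comm]
    rfl

theorem pv_hom (y : Fin (n + 1) → K) (D : Fin w → Derivation ℂ K K)
    {P : MvPolynomial (Fin (n + 1) ⊕ Fin (n + 1)) ℂ} {m : ℕ}
    (hP : IsWeightedHomogeneous (Sum.elim 0 1 : Fin (n + 1) ⊕ Fin (n + 1) → ℕ) P m) :
    (pv y D P).IsHomogeneous m := by
  unfold pv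
  rw [aeval_def, eval₂_eq']
  refine IsHomogeneous.sum _ _ _ fun e he => ?_
  have h1 := hP (mem_support_iff.1 he)
  have h2 : ∑ k, e (Sum.inr k) = m := by
    rw [← h1, Finsupp.weight_apply, Finsupp.sum_fintype _ _ fun i => by simp,
      Fintype.sum_sum_type]
    simp
  have h3 : (algebraMap ℂ (MvPolynomial (Fin w) K) (coeff e P)).IsHomogeneous 0 :=
    isHomogeneous_C (Fin w) (algebraMap ℂ K (coeff e P))
  have h4 : (∏ i, (Sum.elim (fun k => C (y k)) fun k => ∑ a, C (D a (y k)) * X a :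
      Fin (n + 1) ⊕ Fin (n + 1) → MvPolynomial (Fin w) K) i ^ e i).IsHomogeneous m := by
    rw [Fintype.prod_sum_type]
    simp only [Sum.elim_inl, Sum.elim_inr]
    have h5 : (∏ k, (C (y k) : MvPolynomial (Fin w) K) ^ e (Sum.inl k)).IsHomogeneous 0 := by
      have := IsHomogeneous.prod (Finset.univ : Finset (Fin (n + 1)))
        (fun k => (C (y k) : MvPolynomial (Fin w) K) ^ e (Sum.inl k)) (fun _ => 0) (fun k _ => by
          have := (isHomogeneous_C (Fin w) (y k)).pow (e (Sum.inl k))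
          rwa [zero_mul] at this)
      simpa using this
    have h6 : (∏ k, (∑ a, C (D a (y k)) * X a : MvPolynomial (Fin w) K) ^
        e (Sum.inr k)).IsHomogeneous m := by
      have := IsHomogeneous.prod (Finset.univ : Finset (Fin (n + 1)))
        (fun k => (∑ a, C (D a (y k)) * X a : MvPolynomial (Fin w) K) ^ e (Sum.inr k))
        (fun k => e (Sum.inr k)) (fun k _ => by
          have h7 : (∑ a, C (D a (y k)) * X a : MvPolynomial (Fin w) K).IsHomogeneous 1 :=
            IsHomogeneous.sum _ _ _ fun a _ => by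
              have := (isHomogeneous_C (Fin w) (D a (y k))).mul (isHomogeneous_X K a)
              rwa [zero_add] at this
          have := h7.pow (e (Sum.inr k))
          rwa [one_mul] at this)
      rwa [h2] at this
    have := h5.mul h6
    rwa [zero_add] at this
  have := h3.mul h4
  rwa [zero_add] at this

theorem pv_sub (y : Fin (n + 1) → K) (D : Fin w → Derivation ℂ K K)
    (P : MvPolynomial (Fin (n + 1) ⊕ Fin (n + 1)) ℂ) (a : Matrix (Fin w) (Fin w) K) :
    pv y (fun i => ∑ j, a i j • D j) P = sub a (pv y D P) := by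
  unfold pv
  have h1 := comp_aeval_apply (R := ℂ) (Sum.elim (fun k => C (y k))
    fun k => ∑ a, C (D a (y k)) * X a : Fin (n + 1) ⊕ Fin (n + 1) → MvPolynomial (Fin w) K)
    ((sub a).restrictScalars ℂ) P
  have h2 : ((sub a).restrictScalars ℂ)
      (aeval (Sum.elim (fun k => C (y k)) fun k => ∑ a, C (D a (y k)) * X a) P) =
      sub a (aeval (Sum.elim (fun k => C (y k)) fun k => ∑ a, C (D a (y k)) * X a) P) := rfl
  have hC : ∀ c : K, sub a (C c) = C c := by
    intro c
    unfold sub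
    rw [aeval_C]
    rfl
  rw [← h2, h1]
  congr 1
  congr 1
  funext k
  rcases k with k | k
  · exact (hC (y k)).symm
  · change ∑ i, C ((∑ j, a i j • D j) (y k)) * X i = sub a (∑ j, C (D j (y k)) * X j)
    rw [map_sum]
    simp only [map_mul, hC, sub_X, comb_apply, map_sum, Finset.sum_mul, Finset.mul_sum]
    rw [Finset.sum_comm]
    refine Finset.sum_congr rfl fun j _ => Finset.sum_congr rfl fun i _ => ?_
    ring

end pol

end Run7.h418.R
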