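import Pool.Agent.Run7.h418.R.Sym
import Pool.Agent.Run7.h418.Geo

/-!
Specialization; the values of symmetric differentials on rational vector fields.
-/

set_option autoImplicit false

open MvPolynomial

namespace Run7.h418.R

open Pool.Agent.W602.GT

section chi

variable {K : Type} [Field K] [Algebra ℂ K]

/-- points of finitely generated algebras -/
theorem exists_chi {B : Subalgebra ℂ K} (hB : B.FG) {b : K} (hb : b ∈ B) (hb0 : b ≠ 0) :
    ∃ χ : B →ₐ[ℂ] ℂ, χ ⟨b, hb⟩ ≠ 0 := by
  have hft : Algebra.FiniteType ℂ B := (Subalgebra.fg_iff_finiteType _).1 hB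
  obtain ⟨k, f, hf⟩ := Algebra.FiniteType.iff_quotient_mvPolynomial''.1 hft
  obtain ⟨P, hP⟩ := hf ⟨b, hb⟩
  set I : Ideal (MvPolynomial (Fin k) ℂ) := RingHom.ker f.toRingHom with hI
  have hprime : I.IsPrime := RingHom.ker_isPrime _
  have hPI : P ∉ I := by
    intro h
    have h1 : f P = 0 := h
    rw [hP] at h1
    exact hb0 (congrArg Subtype.val h1)
  have h1 : ∃ a : Fin k → ℂ, (∀ G ∈ I, eval a G = 0) ∧ eval a P ≠ 0 := by
    by_contra hcon
    push Not at hcon
    apply hPI
    rw [← hprime.radical, ← vanishingIdeal_zeroLocus_eq_radical (K := ℂ) (k := ℂ) I]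
    intro a ha
    have h2 := hcon a fun G hG => by
      have h3 := ha G hG
      rwa [MvPolynomial.aeval_eq_eval] at h3
    rw [MvPolynomial.aeval_eq_eval]
    exact h2
  obtain ⟨a, ha, haP⟩ := h1
  let χ : B →ₐ[ℂ] ℂ := AlgHom.comp (Ideal.Quotient.liftₐ (RingHom.ker f) (aeval a : MvPolynomial (Fin k) ℂ →ₐ[ℂ] ℂ)
    (fun G hG => by
      rw [MvPolynomial.aeval_eq_eval]
      exact ha G hG)) (Ideal.quotientKerAlgEquivOfSurjective hf).symm.toAlgHom
  have hχ : ∀ G, χ (f G) = eval a G := by
    intro G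
    have h1 : (Ideal.quotientKerAlgEquivOfSurjective hf).symm (f G) =
        Ideal.Quotient.mk (RingHom.ker f) G := by
      rw [AlgEquiv.symm_apply_eq]
      rfl
    have h2 : χ (f G) = Ideal.Quotient.liftₐ (RingHom.ker f)
        (aeval a : MvPolynomial (Fin k) ℂ →ₐ[ℂ] ℂ) (fun G hG => by
          rw [MvPolynomial.aeval_eq_eval]
          exact ha G hG) ((Ideal.quotientKerAlgEquivOfSurjective hf).symm (f G)) := rfl
    rw [h2, h1]
    rfl
  refine ⟨χ, ?_⟩
  rw [← hP, hχ]
  exact haP

/-- derivations and polynomials -/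
theorem der_aeval {τ : Type} [Fintype τ] (D : Derivation ℂ K K) (y : τ → K)
    (G : MvPolynomial τ ℂ) : D (aeval y G) = ∑ k, aeval y (pderiv k G) * D (y k) := by
  classical
  induction G using MvPolynomial.induction_on with
  | C c =>
    rw [aeval_C, Derivation.map_algebraMap]
    simp
  | add p q hp hq =>
    rw [map_add, map_add, hp, hq, ← Finset.sum_add_distrib]
    exact Finset.sum_congr rfl fun k _ => by rw [map_add, map_add, add_mul]
  | mul_X p l hp =>
    rw [map_mul, aeval_X, Derivation.leibniz, hp, smul_eq_mul, smul_eq_mul, Finset.mul_sum]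
    have h1 : ∀ k, aeval y (pderiv k (p * X l : MvPolynomial τ ℂ)) * D (y k) =
        y l * (aeval y (pderiv k p) * D (y k)) + (if k = l then aeval y p * D (y l) else 0) := by
      intro k
      rw [pderiv_mul, map_add, map_mul, map_mul, aeval_X, add_mul]
      congr 1
      · ring
      · by_cases hkl : k = l
        · subst hkl
          rw [pderiv_X_self, map_one, mul_one, if_pos rfl]
        · rw [pderiv_X_of_ne (Ne.symm hkl), map_zero, mul_zero, zero_mul, if_neg hkl]
    simp only [h1, Finset.sum_add_distrib, Finset.sum_ite_eq', Finset.mem_univ, if_true]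
    rw [add_comm]

end chi

section rep

variable {n : ℕ} {ι : Type} {F : ι → MvPolynomial (Fin (n + 1)) ℂ} {m : ℕ}
  {s : (Fin (n + 1) → ℂ) → (Fin (n + 1) → ℂ) → ℂ}

/-- local expressions of symmetric differentials -/
def IsRep (F : ι → MvPolynomial (Fin (n + 1)) ℂ) (m : ℕ)
    (s : (Fin (n + 1) → ℂ) → (Fin (n + 1) → ℂ) → ℂ)
    (P : MvPolynomial (Fin (n + 1) ⊕ Fin (n + 1)) ℂ) (H : MvPolynomial (Fin (n + 1)) ℂ) : Prop :=
  IsWeightedHomogeneous (Sum.elim 0 1 : Fin (n + 1) ⊕ Fin (n + 1) → ℕ) P m ∧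
    ∀ x ∈ Cone F, eval x H ≠ 0 → ∀ v, Tan F x v → s x v = eval (Sum.elim x v) P / eval x H

theorem whom_eval {P : MvPolynomial (Fin (n + 1) ⊕ Fin (n + 1)) ℂ} {d : ℕ}
    (hP : IsWeightedHomogeneous (Sum.elim 0 1 : Fin (n + 1) ⊕ Fin (n + 1) → ℕ) P d)
    (x v : Fin (n + 1) → ℂ) (c : ℂ) :
    eval (Sum.elim x (c • v)) P = c ^ d * eval (Sum.elim x v) P := by
  rw [eval_eq', eval_eq', Finset.mul_sum]
  refine Finset.sum_congr rfl fun e he => ?_
  have h1 := hP (mem_support_iff.1 he)
  have h2 : ∑ k, e (Sum.inr k) = d := by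
    rw [← h1, Finsupp.weight_apply, Finsupp.sum_fintype _ _ fun i => by simp,
      Fintype.sum_sum_type]
    simp
  rw [Fintype.prod_sum_type, Fintype.prod_sum_type]
  simp only [Sum.elim_inl, Sum.elim_inr, Pi.smul_apply, smul_eq_mul, mul_pow,
    Finset.prod_mul_distrib]
  rw [Finset.prod_pow_eq_pow_sum, h2]
  ring

/-- homogeneous local expressions -/
theorem exists_rep (hs : SymForm F m s) {x : Fin (n + 1) → ℂ} (hx : x ∈ Cone F) :
    ∃ P H, eval x H ≠ 0 ∧ IsRep F m s P H := by
  classical
  obtain ⟨P, H, hH, hrep⟩ := hs.alg x hx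
  set wt : Fin (n + 1) ⊕ Fin (n + 1) → ℕ := Sum.elim 0 1 with hwt
  refine ⟨weightedHomogeneousComponent wt m P, H, hH,
    weightedHomogeneousComponent_isWeightedHomogeneous m P, fun x' hx' hH' v hv => ?_⟩
  set q : ℕ → ℂ := fun d => eval (Sum.elim x' v) (weightedHomogeneousComponent wt d P) with hq
  obtain ⟨N, hN⟩ : ∃ N, ∀ d, N ≤ d → weightedHomogeneousComponent wt d P = 0 := by
    have hfin := weightedHomogeneousComponent_finsupp (w := wt) P
    obtain ⟨N, hN⟩ := hfin.bddAbove
    refine ⟨N + 1, fun d hd => ?_⟩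
    by_contra h0
    have := hN h0
    omega
  have hsum : ∀ c : ℂ, eval (Sum.elim x' (c • v)) P = ∑ d ∈ Finset.range (N + m + 1),
      c ^ d * q d := by
    intro c
    have h1 := sum_weightedHomogeneousComponent wt P
    have h2 : P = ∑ d ∈ Finset.range (N + m + 1), weightedHomogeneousComponent wt d P := by
      conv_lhs => rw [← h1]
      rw [finsum_eq_sum_of_support_subset]
      intro d hd
      rw [Finset.coe_range, Set.mem_Iio]
      by_contra hcon
      exact hd (hN d (by omega))
    conv_lhs => rw [h2]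
    rw [map_sum]
    exact Finset.sum_congr rfl fun d _ => whom_eval
      (weightedHomogeneousComponent_isWeightedHomogeneous d P) x' v c
  have hpol : ∀ c : ℂ, c ≠ 0 → (∑ d ∈ Finset.range (N + m + 1), Polynomial.C (q d) *
      Polynomial.X ^ d - Polynomial.C (s x' v * eval x' H) * Polynomial.X ^ m :
        Polynomial ℂ).eval c = 0 := by
    intro c hc
    rw [Polynomial.eval_sub, Polynomial.eval_finsetSum]
    simp only [Polynomial.eval_mul, Polynomial.eval_C, Polynomial.eval_pow, Polynomial.eval_X]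
    have h1 := hrep x' hx' hH' (c • v) (fun j => by
      have := hv j
      simp only [Pi.smul_apply, smul_eq_mul]
      calc ∑ k, eval x' (pderiv k (F j)) * (c * v k) = c * ∑ k, eval x' (pderiv k (F j)) * v k := by
            rw [Finset.mul_sum]
            exact Finset.sum_congr rfl fun k _ => by ring
        _ = 0 := by rw [this, mul_zero])
    rw [hs.deg x' hx' v hv, hsum] at h1
    rw [eq_div_iff hH'] at h1
    rw [sub_eq_zero]
    calc ∑ d ∈ Finset.range (N + m + 1), q d * c ^ d = ∑ d ∈ Finset.range (N + m + 1),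
          c ^ d * q d := Finset.sum_congr rfl fun d _ => mul_comm _ _
      _ = s x' v * eval x' H * c ^ m := by rw [← h1]; ring
  have hzero : (∑ d ∈ Finset.range (N + m + 1), Polynomial.C (q d) *
      Polynomial.X ^ d - Polynomial.C (s x' v * eval x' H) * Polynomial.X ^ m :
        Polynomial ℂ) = 0 := by
    refine Polynomial.eq_zero_of_infinite_isRoot _ ?_
    refine Set.Infinite.mono (s := {c : ℂ | c ≠ 0}) (fun c hc => hpol c hc) ?_
    exact (Set.finite_singleton (0 : ℂ)).infinite_compl
  have h1 := congrArg (fun p => Polynomial.coeff p m) hzero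
  simp only [Polynomial.coeff_sub, Polynomial.finsetSum_coeff, Polynomial.coeff_C_mul_X_pow,
    Polynomial.coeff_zero] at h1
  rw [Finset.sum_ite_eq, if_pos (Finset.mem_range.2 (by omega)), if_pos trivial,
    sub_eq_zero] at h1
  rw [eq_div_iff hH']
  exact h1.symm

end rep

end Run7.h418.R
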