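import Mathlib

/-!
The determinant of a symmetric power.
-/

set_option autoImplicit false

open MvPolynomial

namespace Run7.h418.R

section sym

variable {w : ℕ} {K : Type} [Field K]

/-- the exponents of degree `m` -/
abbrev Ex (w m : ℕ) : Type := {μ : Fin w →₀ ℕ // μ.degree = m}

theorem finite_Ex (w m : ℕ) : Finite (Ex w m) := by
  refine Set.Finite.to_subtype ?_
  refine (Finset.finite_toSet (Finset.finsuppAntidiag (Finset.univ : Finset (Fin w)) m)).subset ?_
  intro μ hμ
  rw [Finset.mem_coe, Finset.mem_finsuppAntidiag]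
  refine ⟨?_, Finset.subset_univ _⟩
  have : μ.degree = m := hμ
  rw [← this, Finsupp.degree_eq_sum]

noncomputable instance (w m : ℕ) : Fintype (Ex w m) := @Fintype.ofFinite _ (finite_Ex w m)

noncomputable instance (w m : ℕ) : DecidableEq (Ex w m) := Classical.decEq _

/-- linear substitutions -/
noncomputable def sub (a : Matrix (Fin w) (Fin w) K) :
    MvPolynomial (Fin w) K →ₐ[K] MvPolynomial (Fin w) K :=
  aeval fun b => ∑ c, C (a c b) * X c

theorem sub_X (a : Matrix (Fin w) (Fin w) K) (b : Fin w) :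
    sub a (X b) = ∑ c, C (a c b) * X c := by
  unfold sub
  rw [aeval_X]

theorem sub_hom (a : Matrix (Fin w) (Fin w) K) {m : ℕ} {Q : MvPolynomial (Fin w) K}
    (hQ : Q.IsHomogeneous m) : (sub a Q).IsHomogeneous m := by
  have h1 := hQ.aeval (n := 1) (fun b => ∑ c, C (a c b) * X c) fun b => by
    refine IsHomogeneous.sum _ _ _ fun c _ => ?_
    have h2 := (isHomogeneous_C (Fin w) (a c b)).mul (isHomogeneous_X K c)
    rwa [zero_add] at h2
  rwa [one_mul] at h1

theorem sub_mul (a b : Matrix (Fin w) (Fin w) K) (Q : MvPolynomial (Fin w) K) :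
    sub (a * b) Q = sub a (sub b Q) := by
  have h1 : sub (a * b) = (sub a).comp (sub b) := by
    apply MvPolynomial.algHom_ext
    intro k
    rw [AlgHom.comp_apply, sub_X, sub_X, map_sum]
    simp only [map_mul, sub_X, Matrix.mul_apply, map_sum, Finset.sum_mul]
    rw [Finset.sum_comm]
    refine Finset.sum_congr rfl fun j _ => ?_
    have h2 : sub a (C (b j k)) = C (b j k) := by
      unfold sub
      rw [aeval_C]
      rfl
    rw [h2, Finset.mul_sum]
    refine Finset.sum_congr rfl fun i _ => ?_
    ring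
  rw [h1]
  rfl

theorem sub_one (Q : MvPolynomial (Fin w) K) : sub 1 Q = Q := by
  have h1 : sub (1 : Matrix (Fin w) (Fin w) K) = AlgHom.id K _ := by
    apply MvPolynomial.algHom_ext
    intro k
    rw [sub_X, AlgHom.id_apply, Finset.sum_eq_single k]
    · rw [Matrix.one_apply_eq, C_1, one_mul]
    · intro b _ hb
      rw [Matrix.one_apply_ne hb, C_0, zero_mul]
    · intro h
      exact absurd (Finset.mem_univ k) h
  rw [h1]
  rfl

theorem hom_sum {m : ℕ} {Q : MvPolynomial (Fin w) K} (hQ : Q.IsHomogeneous m) :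
    Q = ∑ ν : Ex w m, monomial ν.1 (coeff ν.1 Q) := by
  classical
  ext μ
  rw [coeff_sum]
  simp only [coeff_monomial]
  by_cases hμ : μ.degree = m
  · rw [Finset.sum_eq_single (⟨μ, hμ⟩ : Ex w m)]
    · rw [if_pos rfl]
    · intro ν _ hν
      rw [if_neg]
      intro h
      exact hν (Subtype.ext h)
    · intro h
      exact absurd (Finset.mem_univ _) h
  · rw [hQ.coeff_eq_zero hμ, Finset.sum_eq_zero]
    intro ν _
    rw [if_neg]
    intro h
    exact hμ (h ▸ ν.2)

/-- the matrix of a symmetric power -/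
noncomputable def SM (m : ℕ) (a : Matrix (Fin w) (Fin w) K) : Matrix (Ex w m) (Ex w m) K :=
  Matrix.of fun ν μ => coeff μ.1 (sub a (monomial ν.1 1))

theorem coeff_sub {m : ℕ} (a : Matrix (Fin w) (Fin w) K) {Q : MvPolynomial (Fin w) K}
    (hQ : Q.IsHomogeneous m) (μ : Ex w m) :
    coeff μ.1 (sub a Q) = ∑ ν : Ex w m, coeff ν.1 Q * SM m a ν μ := by
  conv_lhs => rw [hom_sum hQ]
  rw [map_sum, coeff_sum]
  refine Finset.sum_congr rfl fun ν _ => ?_
  have h1 : monomial ν.1 (coeff ν.1 Q) = C (coeff ν.1 Q) * monomial ν.1 1 := by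
    rw [C_mul_monomial, mul_one]
  have h2 : sub a (C (coeff ν.1 Q)) = C (coeff ν.1 Q) := by
    unfold sub
    rw [aeval_C]
    rfl
  rw [h1, map_mul, h2, coeff_C_mul]
  rfl

theorem SM_mul (m : ℕ) (a b : Matrix (Fin w) (Fin w) K) : SM m (a * b) = SM m b * SM m a := by
  ext ν μ
  rw [Matrix.mul_apply]
  change coeff μ.1 (sub (a * b) (monomial ν.1 1)) = _
  rw [sub_mul, coeff_sub a (sub_hom b (isHomogeneous_monomial 1 ν.2))]
  rfl

theorem SM_one (m : ℕ) : SM m (1 : Matrix (Fin w) (Fin w) K) = 1 := by
  ext ν μ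
  change coeff μ.1 (sub 1 (monomial ν.1 1)) = _
  rw [sub_one, coeff_monomial, Matrix.one_apply]
  by_cases h : ν = μ
  · rw [if_pos h, if_pos (congrArg Subtype.val h)]
  · rw [if_neg h, if_neg fun h' => h (Subtype.ext h')]

theorem sub_diagonal (d : Fin w → K) (ν : Fin w →₀ ℕ) :
    sub (Matrix.diagonal d) (monomial ν 1) = monomial ν (∏ k, d k ^ ν k) := by
  have h1 : ∀ k, sub (Matrix.diagonal d) (X k) = C (d k) * X k := by
    intro k
    rw [sub_X, Finset.sum_eq_single k]
    · rw [Matrix.diagonal_apply_eq]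
    · intro b _ hb
      rw [Matrix.diagonal_apply_ne _ hb, C_0, zero_mul]
    · intro h
      exact absurd (Finset.mem_univ k) h
  rw [monomial_eq, C_1, one_mul, Finsupp.prod_fintype _ _ fun i => pow_zero _, map_prod]
  simp only [map_pow, h1, mul_pow, Finset.prod_mul_distrib]
  rw [monomial_eq, Finsupp.prod_fintype _ _ fun i => pow_zero _, map_prod]
  simp only [map_pow]

theorem det_diagonal (m : ℕ) : ∃ N : ℕ, (0 < w → 0 < m → 0 < N) ∧
    ∀ d : Fin w → K, (SM m (Matrix.diagonal d)).det = (Matrix.diagonal d).det ^ N := by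
  classical
  have h1 : ∀ d : Fin w → K, SM m (Matrix.diagonal d) =
      Matrix.diagonal fun ν : Ex w m => ∏ k, d k ^ ν.1 k := by
    intro d
    ext ν μ
    change coeff μ.1 (sub _ (monomial ν.1 1)) = _
    rw [sub_diagonal, coeff_monomial, Matrix.diagonal_apply]
    by_cases h : ν = μ
    · rw [if_pos h, if_pos (congrArg Subtype.val h)]
    · rw [if_neg h, if_neg fun h' => h (Subtype.ext h')]
  have h2 : ∀ k l : Fin w, ∑ ν : Ex w m, ν.1 k = ∑ ν : Ex w m, ν.1 l := by
    intro k l
    let e : Ex w m ≃ Ex w m :=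
      (Finsupp.domCongr (Equiv.swap k l)).toEquiv.subtypeEquiv fun μ => by
        have : (Finsupp.domCongr (Equiv.swap k l) μ).degree = μ.degree := by
          rw [Finsupp.degree_eq_sum, Finsupp.degree_eq_sum]
          exact Equiv.sum_comp (Equiv.swap k l).symm (fun i => μ i)
        change _ ↔ (Finsupp.domCongr (Equiv.swap k l) μ).degree = m
        rw [this]
    rw [← e.sum_comp]
    refine Finset.sum_congr rfl fun ν _ => ?_
    change ν.1 ((Equiv.swap k l).symm k) = ν.1 l
    rw [Equiv.symm_swap, Equiv.swap_apply_left]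
  rcases Nat.eq_zero_or_pos w with rfl | hw
  · refine ⟨0, fun h => absurd h (lt_irrefl 0), fun d => ?_⟩
    rw [pow_zero, h1, Matrix.det_diagonal]
    simp
  · refine ⟨∑ ν : Ex w m, ν.1 ⟨0, hw⟩, fun _ hm => ?_, fun d => ?_⟩
    · refine lt_of_lt_of_le hm ?_
      have h3 := Finset.single_le_sum (f := fun ν : Ex w m => ν.1 ⟨0, hw⟩)
        (fun _ _ => Nat.zero_le _) (Finset.mem_univ (⟨Finsupp.single ⟨0, hw⟩ m, by simp⟩ : Ex w m))
      simpa using h3
    · rw [h1, Matrix.det_diagonal, Matrix.det_diagonal, Finset.prod_comm, ← Finset.prod_pow]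
      refine Finset.prod_congr rfl fun k _ => ?_
      rw [Finset.prod_pow_eq_pow_sum, h2 k ⟨0, hw⟩]

/-- **The determinant of a symmetric power is a power of the determinant.** -/
theorem exists_det [CharZero K] (m : ℕ) : ∃ N : ℕ, (0 < w → 0 < m → 0 < N) ∧
    ∀ a : Matrix (Fin w) (Fin w) K, (SM m a).det = a.det ^ N := by
  classical
  obtain ⟨N, hN, hd⟩ := det_diagonal (K := K) (w := w) m
  refine ⟨N, hN, fun a => ?_⟩
  refine Matrix.diagonal_transvection_induction (fun a => (SM m a).det = a.det ^ N) a
    (fun d _ => hd d) (fun t => ?_) (fun A B hA hB => ?_)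
  · rw [t.det, one_pow]
    obtain ⟨i, j, hij, c⟩ := t
    rw [Matrix.TransvectionStruct.toMatrix_mk]
    set D : K → K := fun c => (SM m (Matrix.transvection i j c)).det with hD
    have h1 : ∀ c c', D (c + c') = D c * D c' := by
      intro c c'
      rw [hD]
      simp only
      rw [← Matrix.transvection_mul_transvection_same i j hij, SM_mul, Matrix.det_mul, mul_comm]
    have h0 : D 0 = 1 := by
      rw [hD]
      simp only
      rw [Matrix.transvection_zero, SM_one, Matrix.det_one]
    set d : Fin w → K := Function.update 1 i 2 with hd1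
    set d' : Fin w → K := Function.update 1 i 2⁻¹ with hd2
    have hdd : Matrix.diagonal d * Matrix.diagonal d' = (1 : Matrix (Fin w) (Fin w) K) := by
      rw [Matrix.diagonal_mul_diagonal, ← Matrix.diagonal_one]
      congr 1
      funext k
      by_cases hk : k = i
      · subst hk
        rw [hd1, hd2, Function.update_self, Function.update_self]
        exact mul_inv_cancel₀ two_ne_zero
      · rw [hd1, hd2, Function.update_of_ne hk, Function.update_of_ne hk]
        simp
    have h2 : D (c + c) = D c := by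
      have h3 : Matrix.transvection i j (c + c) =
          Matrix.diagonal d * Matrix.transvection i j c * Matrix.diagonal d' := by
        unfold Matrix.transvection
        rw [mul_add, add_mul, mul_one, hdd]
        congr 1
        ext k l
        rw [Matrix.mul_diagonal, Matrix.diagonal_mul]
        simp only [Matrix.single_apply]
        by_cases h : i = k ∧ j = l
        · obtain ⟨rfl, rfl⟩ := h
          rw [if_pos ⟨rfl, rfl⟩, if_pos ⟨rfl, rfl⟩, hd1, hd2, Function.update_self,
            Function.update_of_ne (Ne.symm hij)]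
          simp
          ring
        · rw [if_neg h, if_neg h]
          simp
      rw [hD]
      simp only
      rw [h3, SM_mul, SM_mul, Matrix.det_mul, Matrix.det_mul]
      have h4 : (SM m (Matrix.diagonal d)).det * (SM m (Matrix.diagonal d')).det = 1 := by
        rw [mul_comm, ← Matrix.det_mul, ← SM_mul, hdd, SM_one, Matrix.det_one]
      linear_combination ((SM m (Matrix.transvection i j c)).det) * h4
    have h3 : D c ≠ 0 := by
      intro h4
      have h5 := h1 c (-c)
      rw [add_neg_cancel, h0, h4, zero_mul] at h5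
      exact one_ne_zero h5
    rw [h1] at h2
    exact mul_right_cancel₀ h3 (by rw [h2, one_mul])
  · rw [SM_mul, Matrix.det_mul, Matrix.det_mul, mul_pow, hA, hB, mul_comm]

end sym

end Run7.h418.R
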