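import Pool.Agent.Run7.h418.R.Ver

/-!
Coefficientwise derivations, and the connection given by a generating family.
-/

set_option autoImplicit false

open MvPolynomial

namespace Run7.h418.R

variable {K : Type} [Field K] [Algebra ℂ K] {w : ℕ}

section dc

/-- coefficientwise derivations -/
noncomputable def Dc {τ : Type} (δ : Derivation ℂ K K) :
    Derivation ℂ (MvPolynomial τ K) (MvPolynomial τ K) :=
  let f : MvPolynomial τ K → MvPolynomial τ K := fun p =>
    ∑ μ ∈ p.support, monomial μ (δ (coeff μ p))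
  have hf : ∀ p μ, coeff μ (f p) = δ (coeff μ p) := by
    classical
    intro p μ
    change coeff μ (∑ μ ∈ p.support, monomial μ (δ (coeff μ p))) = _
    rw [coeff_sum]
    simp only [coeff_monomial]
    rw [Finset.sum_ite_eq']
    split_ifs with h
    · rfl
    · rw [notMem_support_iff.1 h, map_zero]
  { toFun := f
    map_add' := fun p q => by
      ext μ
      rw [coeff_add, hf, hf, hf, coeff_add, map_add]
    map_smul' := fun c p => by
      ext μ
      rw [RingHom.id_apply, hf, coeff_smul, coeff_smul, Derivation.map_smul, hf]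
    map_one_eq_zero' := by
      classical
      ext μ
      rw [coeff_zero]
      refine (hf 1 μ).trans ?_
      rw [coeff_one]
      split_ifs
      · rw [Derivation.map_one_eq_zero]
      · rw [map_zero]
    leibniz' := fun p q => by
      classical
      ext μ
      rw [smul_eq_mul, smul_eq_mul, mul_comm q, coeff_add, coeff_mul, coeff_mul]
      refine (hf (p * q) μ).trans ?_
      rw [coeff_mul, map_sum, ← Finset.sum_add_distrib]
      refine Finset.sum_congr rfl fun x _ => ?_
      rw [Derivation.leibniz, smul_eq_mul, smul_eq_mul, mul_comm (coeff x.2 q)]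
      congr 1
      · congr 1
        exact (hf q x.2).symm
      · congr 1
        exact (hf p x.1).symm }

theorem coeff_Dc {τ : Type} (δ : Derivation ℂ K K) (p : MvPolynomial τ K) (μ : τ →₀ ℕ) :
    coeff μ (Dc δ p) = δ (coeff μ p) := by
  classical
  change coeff μ (∑ μ ∈ p.support, monomial μ (δ (coeff μ p))) = _
  rw [coeff_sum]
  simp only [coeff_monomial]
  rw [Finset.sum_ite_eq']
  split_ifs with h
  · rfl
  · rw [notMem_support_iff.1 h, map_zero]

theorem Dc_C {τ : Type} (δ : Derivation ℂ K K) (c : K) :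
    Dc δ (C c : MvPolynomial τ K) = C (δ c) := by
  classical
  ext μ
  rw [coeff_Dc, coeff_C, coeff_C]
  split_ifs
  · rfl
  · rw [map_zero]

theorem Dc_X {τ : Type} (δ : Derivation ℂ K K) (a : τ) :
    Dc δ (X a : MvPolynomial τ K) = 0 := by
  classical
  ext μ
  rw [coeff_Dc, coeff_zero, coeff_X]
  split_ifs
  · rw [Derivation.map_one_eq_zero]
  · rw [map_zero]

theorem Dc_hom {τ : Type} (δ : Derivation ℂ K K) {p : MvPolynomial τ K} {m : ℕ}
    (hp : p.IsHomogeneous m) : (Dc δ p).IsHomogeneous m := by
  intro μ hμ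
  rw [coeff_Dc] at hμ
  refine hp fun h => hμ ?_
  rw [h, map_zero]

theorem Dc_C_mul {τ : Type} (δ : Derivation ℂ K K) {c : K} (hc : δ c = 0)
    (p : MvPolynomial τ K) : Dc δ (C c * p) = C c * Dc δ p := by
  rw [Derivation.leibniz, Dc_C, hc, C_0, smul_zero, add_zero, smul_eq_mul]

end dc

section lin

/-- linear maps with given values on independent polynomials -/
theorem exists_lin {ε : Type} {e : ε → MvPolynomial (Fin w) K} (he : LinearIndependent K e)
    (δ : Derivation ℂ K K) : ∃ Θ : MvPolynomial (Fin w) K →ₗ[K] MvPolynomial (Fin w) K,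
      ∀ b, Θ (e b) = Dc δ (e b) := by
  have hli := he.linearIndepOn_id
  let b := Module.Basis.extend hli
  refine ⟨b.constr K fun x => Dc δ (x : MvPolynomial (Fin w) K), fun c => ?_⟩
  have h1 : e c ∈ hli.extend (Set.subset_univ (Set.range e)) := hli.subset_extend _ ⟨c, rfl⟩
  have h2 : b ⟨e c, h1⟩ = e c := Module.Basis.extend_apply_self hli _
  have h3 := b.constr_basis K (fun x => Dc δ (x : MvPolynomial (Fin w) K)) ⟨e c, h1⟩
  rw [h2] at h3
  exact h3

/-- polynomials with a nonzero determinant are independent -/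
theorem indep_of_det {M : ℕ} {e : Ex w M → MvPolynomial (Fin w) K}
    (he : (Matrix.of fun b (μ : Ex w M) => coeff μ.1 (e b)).det ≠ 0) :
    LinearIndependent K e := by
  classical
  have h1 : LinearIndependent K (Matrix.of fun b (μ : Ex w M) => coeff μ.1 (e b)).row :=
    Matrix.linearIndependent_rows_of_det_ne_zero he
  let φ : MvPolynomial (Fin w) K →ₗ[K] (Ex w M → K) :=
    LinearMap.pi fun μ => lcoeff K μ.1
  refine LinearIndependent.of_comp φ ?_
  have h2 : φ ∘ e = (Matrix.of fun b (μ : Ex w M) => coeff μ.1 (e b)).row := by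
    funext b μ
    rfl
  rw [h2]
  exact h1

/-- they span the homogeneous polynomials -/
theorem span_of_det {M : ℕ} {e : Ex w M → MvPolynomial (Fin w) K}
    (hh : ∀ b, (e b).IsHomogeneous M)
    (he : (Matrix.of fun b (μ : Ex w M) => coeff μ.1 (e b)).det ≠ 0)
    {Q : MvPolynomial (Fin w) K} (hQ : Q.IsHomogeneous M) :
    ∃ r : Ex w M → K, Q = ∑ b, C (r b) * e b := by
  classical
  set A := Matrix.of fun b (μ : Ex w M) => coeff μ.1 (e b) with hA
  set q : Ex w M → K := fun μ => coeff μ.1 Q with hq
  refine ⟨(A⁻¹).vecMul q, ?_⟩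
  have h1 : A.vecMul ((A⁻¹).vecMul q) = q := by
    rw [Matrix.vecMul_vecMul, Matrix.nonsing_inv_mul _ (isUnit_iff_ne_zero.2 he),
      Matrix.vecMul_one]
  ext μ
  by_cases hμ : μ.degree = M
  · have h2 := congrFun h1 ⟨μ, hμ⟩
    rw [coeff_sum]
    simp only [coeff_C_mul]
    exact h2.symm
  · rw [hQ.coeff_eq_zero hμ, coeff_sum]
    refine (Finset.sum_eq_zero fun b _ => ?_).symm
    rw [coeff_C_mul, (hh b).coeff_eq_zero hμ, mul_zero]

end lin

end Run7.h418.R
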