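import Pool.Agent.Run7.h418.R.Sym

/-!
Infinitesimal automorphisms of the Veronese variety.
-/

set_option autoImplicit false

open MvPolynomial

namespace Run7.h418.R

section ver

variable {w m : ℕ} {K : Type} [Field K]

/-- linear extension -/
noncomputable def hs {L : Type} [AddCommGroup L] (h : Fin w → L) (μ : Fin w →₀ ℕ) : L :=
  ∑ b, μ b • h b

theorem hs_add {L : Type} [AddCommGroup L] (h : Fin w → L) (μ ν : Fin w →₀ ℕ) :
    hs h (μ + ν) = hs h μ + hs h ν := by
  unfold hs
  rw [← Finset.sum_add_distrib]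
  exact Finset.sum_congr rfl fun b _ => by rw [Finsupp.add_apply, add_smul]

theorem hs_single {L : Type} [AddCommGroup L] (h : Fin w → L) (a : Fin w) (k : ℕ) :
    hs h (Finsupp.single a k) = k • h a := by
  classical
  unfold hs
  rw [Finset.sum_eq_single a]
  · rw [Finsupp.single_eq_same]
  · intro b _ hb
    rw [Finsupp.single_eq_of_ne hb, zero_smul]
  · intro h
    exact absurd (Finset.mem_univ a) h

/-- functions on the exponents which satisfy the exchange relations are affine -/
theorem exch {L : Type} [AddCommGroup L] (g : (Fin w →₀ ℕ) → L)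
    (hg : ∀ μ ν μ' ν' : Fin w →₀ ℕ, μ.degree = m + 1 → ν.degree = m + 1 → μ'.degree = m + 1 →
      ν'.degree = m + 1 → μ + ν = μ' + ν' → g μ + g ν = g μ' + g ν') (o : Fin w) :
    ∃ h : Fin w → L, ∀ μ : Fin w →₀ ℕ, μ.degree = m + 1 →
      g μ = g (Finsupp.single o (m + 1)) + hs h μ := by
  classical
  set h : Fin w → L := fun a => g (Finsupp.single o m + Finsupp.single a 1) -
    g (Finsupp.single o (m + 1)) with hh
  have hoo : Finsupp.single o m + Finsupp.single o 1 = Finsupp.single o (m + 1) := by
    rw [← Finsupp.single_add]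
  have ho : h o = 0 := by
    rw [hh]
    simp only
    rw [hoo, sub_self]
  refine ⟨h, ?_⟩
  have hdo : (Finsupp.single o (m + 1)).degree = m + 1 := Finsupp.degree_single _ _
  have key : ∀ (k : ℕ) (μ : Fin w →₀ ℕ), μ.degree = m + 1 → m + 1 - μ o = k →
      g μ = g (Finsupp.single o (m + 1)) + hs h μ := by
    intro k
    induction k with
    | zero =>
      intro μ hμ hk
      have h1 : μ = Finsupp.single o (m + 1) := by
        have h2 : μ o ≤ μ.degree := Finsupp.le_degree o μ
        have h3 : μ o = m + 1 := by omega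
        rw [Finsupp.degree_eq_sum] at hμ
        have h4 : ∑ b ∈ Finset.univ.erase o, μ b = 0 := by
          have := Finset.add_sum_erase Finset.univ (fun b => μ b) (Finset.mem_univ o)
          omega
        ext b
        by_cases hb : b = o
        · rw [hb, Finsupp.single_eq_same, h3]
        · rw [Finsupp.single_eq_of_ne hb]
          exact (Finset.sum_eq_zero_iff.1 h4) b (Finset.mem_erase.2 ⟨hb, Finset.mem_univ b⟩)
      rw [h1, hs_single, ho, smul_zero, add_zero]
    | succ k ih =>
      intro μ hμ hk
      have h2 : ∃ a, a ≠ o ∧ μ a ≠ 0 := by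
        by_contra hcon
        push Not at hcon
        rw [Finsupp.degree_eq_sum, Finset.sum_eq_single o (fun b _ hb => hcon b hb)
          (fun h => absurd (Finset.mem_univ o) h)] at hμ
        omega
      obtain ⟨a, hao, ha⟩ := h2
      set μ0 : Fin w →₀ ℕ := μ - Finsupp.single a 1 with hμ0
      have hμ1 : μ = μ0 + Finsupp.single a 1 := by
        rw [hμ0, tsub_add_cancel_of_le]
        rw [Finsupp.single_le_iff]
        omega
      have hd0 : μ0.degree = m := by
        have := congrArg Finsupp.degree hμ1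
        rw [map_add, Finsupp.degree_single, hμ] at this
        omega
      set μ' : Fin w →₀ ℕ := μ0 + Finsupp.single o 1 with hμ'
      have hd' : μ'.degree = m + 1 := by rw [hμ', map_add, Finsupp.degree_single, hd0]
      have h3 : μ' o = μ o + 1 := by
        rw [hμ', hμ1, Finsupp.add_apply, Finsupp.add_apply, Finsupp.single_eq_same,
          Finsupp.single_eq_of_ne (Ne.symm hao), add_zero]
      have h4 := ih μ' hd' (by rw [h3]; omega)
      have h5 := hg μ (Finsupp.single o (m + 1)) μ' (Finsupp.single o m + Finsupp.single a 1) hμ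
        hdo hd' (by rw [map_add, Finsupp.degree_single, Finsupp.degree_single]) (by
          rw [hμ', hμ1, ← hoo]
          abel)
      have h6 : h a = g (Finsupp.single o m + Finsupp.single a 1) -
          g (Finsupp.single o (m + 1)) := rfl
      have h7 : hs h μ = hs h μ0 + h a := by rw [hμ1, hs_add, hs_single, one_smul]
      have h8 : hs h μ' = hs h μ0 := by
        rw [hμ', hs_add, hs_single, one_smul, ho, add_zero]
      rw [h7]
      rw [h8] at h4
      have h9 : g μ = g μ' + (g (Finsupp.single o m + Finsupp.single a 1) -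
          g (Finsupp.single o (m + 1))) := by
        rw [← add_sub_assoc, ← h5, add_sub_cancel_right]
      rw [h9, h4, ← h6, add_assoc]
  exact fun μ hμ => key _ μ hμ rfl

theorem X_dvd {a c : Fin w} (hac : a ≠ c) {A : MvPolynomial (Fin w) K} {k l : ℕ}
    (h : X a ^ k ∣ X c ^ l * A) : (X a : MvPolynomial (Fin w) K) ^ k ∣ A := by
  have hp : Prime (X a : MvPolynomial (Fin w) K) := X_prime
  have hn : ¬ X a ∣ (X c ^ l : MvPolynomial (Fin w) K) := by
    intro h1
    have h2 := hp.dvd_of_dvd_pow h1
    rw [X_dvd_X] at h2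
    rcases h2 with h2
    exact hac h2
  exact hp.pow_dvd_of_dvd_mul_left k hn h

/-- **Infinitesimal automorphisms of the Veronese variety are linear.** -/
theorem veronese [CharZero K] (T : (Fin w →₀ ℕ) → MvPolynomial (Fin w) K)
    (hT : ∀ μ : Fin w →₀ ℕ, μ.degree = m + 1 → (T μ).IsHomogeneous (m + 1))
    (hex : ∀ μ ν μ' ν' : Fin w →₀ ℕ, μ.degree = m + 1 → ν.degree = m + 1 → μ'.degree = m + 1 →
      ν'.degree = m + 1 → μ + ν = μ' + ν' →
      monomial μ 1 * T ν + monomial ν 1 * T μ = monomial μ' 1 * T ν' + monomial ν' 1 * T μ') :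
    ∃ b : Fin w → MvPolynomial (Fin w) K, (∀ a, (b a).IsHomogeneous 1) ∧
      ∀ μ : Fin w →₀ ℕ, μ.degree = m + 1 → T μ = ∑ a, pderiv a (monomial μ 1) * b a := by
  classical
  rcases Nat.eq_zero_or_pos w with rfl | hw
  · refine ⟨fun a => 0, fun a => isHomogeneous_zero _ _ _, fun μ hμ => ?_⟩
    have h1 : μ = 0 := Subsingleton.elim _ _
    rw [h1] at hμ
    simp at hμ
  let o : Fin w := ⟨0, hw⟩
  let L := FractionRing (MvPolynomial (Fin w) K)
  let φ : MvPolynomial (Fin w) K →+* L := algebraMap _ L
  have hφ : Function.Injective φ := IsFractionRing.injective _ L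
  have hM : ∀ μ : Fin w →₀ ℕ, φ (monomial μ 1) ≠ 0 := by
    intro μ h0
    have h1 := hφ (h0.trans (map_zero φ).symm)
    rw [monomial_eq_zero] at h1
    exact one_ne_zero h1
  have hMM : ∀ μ ν : Fin w →₀ ℕ, (monomial μ (1 : K)) * monomial ν 1 = monomial (μ + ν) 1 :=
    fun μ ν => by rw [monomial_mul, one_mul]
  set g : (Fin w →₀ ℕ) → L := fun μ => φ (T μ) / φ (monomial μ 1) with hg
  have hTg : ∀ μ, φ (T μ) = φ (monomial μ 1) * g μ := fun μ =>
    (mul_div_cancel₀ _ (hM μ)).symm
  obtain ⟨h, hh⟩ := exch g (m := m) (fun μ ν μ' ν' h1 h2 h3 h4 he => by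
    have h5 := congrArg φ (hex μ ν μ' ν' h1 h2 h3 h4 he)
    rw [map_add, map_add, map_mul, map_mul, map_mul, map_mul, hTg, hTg, hTg, hTg] at h5
    have h6 : φ (monomial μ 1) * φ (monomial ν 1) = φ (monomial (μ + ν) 1) := by
      rw [← map_mul, hMM]
    have h7 : φ (monomial μ' 1) * φ (monomial ν' 1) = φ (monomial (μ + ν) 1) := by
      rw [← map_mul, hMM, he]
    have h8 : φ (monomial (μ + ν) 1) * (g μ + g ν) = φ (monomial (μ + ν) 1) * (g μ' + g ν') := by
      linear_combination h5 - (g μ + g ν) * h6 + (g μ' + g ν') * h7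
    exact mul_left_cancel₀ (hM _) h8) o
  have hm0 : ((m + 1 : ℕ) : L) ≠ 0 := by
    have h1 : ((m + 1 : ℕ) : L) = φ (C ((m + 1 : ℕ) : K)) := by
      rw [map_natCast, map_natCast]
    rw [h1]
    intro h2
    have h3 := hφ (h2.trans (map_zero φ).symm)
    rw [C_eq_zero] at h3
    exact absurd h3 (Nat.cast_ne_zero.2 (Nat.succ_ne_zero m))
  set A : Fin w → MvPolynomial (Fin w) K := fun a => T (Finsupp.single a (m + 1)) with hA
  have hda : ∀ a : Fin w, (Finsupp.single a (m + 1)).degree = m + 1 := fun a =>
    Finsupp.degree_single _ _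
  -- the main formula
  have hmain : ∀ μ : Fin w →₀ ℕ, μ.degree = m + 1 →
      ((m + 1 : ℕ) : L) * g μ = ∑ a, (μ a : L) * g (Finsupp.single a (m + 1)) := by
    intro μ hμ
    have h1 : ∀ a, g (Finsupp.single a (m + 1)) = g (Finsupp.single o (m + 1)) +
        ((m + 1 : ℕ) : L) * h a := by
      intro a
      rw [hh _ (hda a), hs_single, nsmul_eq_mul]
    have h2 : (∑ a, (μ a : L)) = ((m + 1 : ℕ) : L) := by
      rw [← Nat.cast_sum, ← Finsupp.degree_eq_sum, hμ]
    have h3 : hs h μ = ∑ a, (μ a : L) * h a := by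
      unfold hs
      exact Finset.sum_congr rfl fun a _ => by rw [nsmul_eq_mul]
    have h4 : ∑ a, (μ a : L) * g (Finsupp.single a (m + 1)) =
        (∑ a, (μ a : L)) * g (Finsupp.single o (m + 1)) +
          ((m + 1 : ℕ) : L) * ∑ a, (μ a : L) * h a := by
      rw [Finset.sum_mul, Finset.mul_sum, ← Finset.sum_add_distrib]
      refine Finset.sum_congr rfl fun a _ => ?_
      rw [h1 a]
      ring
    rw [h4, h2, hh μ hμ, h3, mul_add]
  -- divisibility
  have hdvd : ∀ a : Fin w, (X a : MvPolynomial (Fin w) K) ^ m ∣ A a := by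
    intro a
    by_cases hc : ∃ c : Fin w, a ≠ c
    · obtain ⟨c, hac⟩ := hc
      set μ : Fin w →₀ ℕ := Finsupp.single c m + Finsupp.single a 1 with hμ
      have hμd : μ.degree = m + 1 := by
        rw [hμ, map_add, Finsupp.degree_single, Finsupp.degree_single]
      have h1 := hmain μ hμd
      have h2 : ∑ b, (μ b : L) * g (Finsupp.single b (m + 1)) =
          (m : L) * g (Finsupp.single c (m + 1)) + g (Finsupp.single a (m + 1)) := by
        have h3 := hs_add (w := w) (fun b => g (Finsupp.single b (m + 1))) (Finsupp.single c m)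
          (Finsupp.single a 1)
        rw [hs_single, hs_single, one_smul, nsmul_eq_mul] at h3
        rw [← h3]
        unfold hs
        exact Finset.sum_congr rfl fun b _ => by rw [nsmul_eq_mul, hμ]
      rw [h2] at h1
      have hXp : ∀ (b : Fin w) (k : ℕ), (monomial (Finsupp.single b k) (1 : K)) = X b ^ k :=
        fun b k => (X_pow_eq_monomial).symm
      have h3 : φ (X a) ≠ 0 := by
        have := hM (Finsupp.single a 1)
        rwa [hXp, pow_one] at this
      have h4 : φ (X c) ≠ 0 := by
        have := hM (Finsupp.single c 1)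
        rwa [hXp, pow_one] at this
      have h5 : φ (A a) = φ (X a) ^ (m + 1) * g (Finsupp.single a (m + 1)) := by
        rw [← map_pow, ← hXp]
        exact hTg _
      have h6 : φ (A c) = φ (X c) ^ (m + 1) * g (Finsupp.single c (m + 1)) := by
        rw [← map_pow, ← hXp]
        exact hTg _
      have h7 : φ (T μ) = φ (X c) ^ m * φ (X a) * g μ := by
        have h8 : (monomial μ (1 : K)) = X c ^ m * X a := by
          rw [hμ, ← hMM, hXp, hXp, pow_one]
        rw [← map_pow, ← map_mul, ← h8]
        exact hTg _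
      have h8 : φ (X c ^ (m + 1) * A a) = φ (X a ^ m *
          (((m + 1 : ℕ) : MvPolynomial (Fin w) K) * X c * T μ -
          (m : MvPolynomial (Fin w) K) * X a * A c)) := by
        rw [map_mul, map_mul, map_pow, map_pow, map_sub, map_mul, map_mul, map_mul, map_mul,
          map_natCast, map_natCast, h5, h6, h7]
        linear_combination (-(φ (X c)) ^ (m + 1) * φ (X a) ^ (m + 1)) * h1
      have h9 : X a ^ m ∣ X c ^ (m + 1) * A a := ⟨_, hφ h8⟩
      exact X_dvd hac h9
    · push Not at hc
      have h1 := hom_sum (hT _ (hda a))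
      rw [hA]
      simp only
      rw [h1]
      refine Finset.dvd_sum fun ν _ => ?_
      have h2 : ν.1 = Finsupp.single a (m + 1) := by
        have h3 := ν.2
        rw [Finsupp.degree_eq_sum] at h3
        ext b
        rw [← hc b, Finsupp.single_eq_same]
        rw [Finset.sum_eq_single a (fun b _ hb => absurd (hc b).symm hb)
          (fun h => absurd (Finset.mem_univ a) h)] at h3
        exact h3
      rw [h2, X_pow_eq_monomial]
      refine ⟨monomial (Finsupp.single a 1) (coeff (Finsupp.single a (m + 1))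
        (T (Finsupp.single a (m + 1)))), ?_⟩
      rw [monomial_mul, one_mul, ← Finsupp.single_add]
  choose B hB using hdvd
  refine ⟨fun a => C (((m + 1 : ℕ) : K)⁻¹) * B a, fun a => ?_, fun μ hμ => ?_⟩
  · have h1 : (B a).IsHomogeneous 1 := by
      intro ν hν
      have h2 : coeff (Finsupp.single a m + ν) (A a) ≠ 0 := by
        rw [hB, X_pow_eq_monomial, coeff_monomial_mul, one_mul]
        exact hν
      have h3 := (hT _ (hda a)) h2
      rw [map_add] at h3
      have h4 : Finsupp.weight (1 : Fin w → ℕ) (Finsupp.single a m) = m := by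
        rw [Finsupp.weight_single]
        simp
      omega
    have h2 := (isHomogeneous_C (Fin w) (((m + 1 : ℕ) : K)⁻¹)).mul h1
    rwa [zero_add] at h2
  · apply hφ
    rw [map_sum]
    have h1 := hmain μ hμ
    have h2 : ∀ a, g (Finsupp.single a (m + 1)) * φ (X a) = φ (B a) := by
      intro a
      have h3 : φ (A a) = φ (X a) ^ (m + 1) * g (Finsupp.single a (m + 1)) := by
        rw [← map_pow, X_pow_eq_monomial]
        exact hTg _
      rw [hB, map_mul, map_pow] at h3
      have h4 : φ (X a) ≠ 0 := hM (Finsupp.single a 1)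
      have h5 : φ (X a) ^ m * (g (Finsupp.single a (m + 1)) * φ (X a)) =
          φ (X a) ^ m * φ (B a) := by
        rw [h3]
        ring
      exact mul_left_cancel₀ (pow_ne_zero _ h4) h5
    have h3 : ∀ a, φ (pderiv a (monomial μ 1)) * φ (B a) =
        φ (monomial μ 1) * ((μ a : L) * g (Finsupp.single a (m + 1))) := by
      intro a
      rw [pderiv_monomial, one_mul, ← h2]
      rcases Nat.eq_zero_or_pos (μ a) with h4 | h4
      · rw [h4, Nat.cast_zero, monomial_zero, map_zero, Nat.cast_zero]
        ring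
      · have h5 : (monomial (μ - Finsupp.single a 1) ((μ a : ℕ) : K)) * X a =
            (μ a : MvPolynomial (Fin w) K) * monomial μ 1 := by
          have h6 : (X a : MvPolynomial (Fin w) K) = monomial (Finsupp.single a 1) 1 := rfl
          have h7 : (μ a : MvPolynomial (Fin w) K) = C ((μ a : ℕ) : K) := by rw [map_natCast]
          rw [h6, monomial_mul, mul_one, h7, C_mul_monomial, mul_one, tsub_add_cancel_of_le]
          rw [Finsupp.single_le_iff]
          exact h4
        have h6 := congrArg φ h5
        have h7 : φ (μ a : MvPolynomial (Fin w) K) = (μ a : L) := map_natCast φ _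
        rw [map_mul, map_mul, h7] at h6
        linear_combination g (Finsupp.single a (m + 1)) * h6
    have h4 : ((m + 1 : ℕ) : L) * φ (C (((m + 1 : ℕ) : K)⁻¹)) = 1 := by
      have h5 : ((m + 1 : ℕ) : L) = φ (C ((m + 1 : ℕ) : K)) := by
        rw [map_natCast, map_natCast]
      rw [h5, ← map_mul, ← C_mul, mul_inv_cancel₀ (Nat.cast_ne_zero.2 (Nat.succ_ne_zero m)), C_1,
        map_one]
    have h5 : ∑ a, φ (pderiv a (monomial μ 1) * (C (((m + 1 : ℕ) : K)⁻¹) * B a)) =
        φ (C (((m + 1 : ℕ) : K)⁻¹)) * (φ (monomial μ 1) *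
          ∑ a, (μ a : L) * g (Finsupp.single a (m + 1))) := by
      rw [Finset.mul_sum, Finset.mul_sum]
      refine Finset.sum_congr rfl fun a _ => ?_
      rw [map_mul, map_mul]
      linear_combination (φ (C (((m + 1 : ℕ) : K)⁻¹))) * h3 a
    rw [h5, ← h1, hTg]
    linear_combination (-(φ (monomial μ 1)) * g μ) * h4

end ver

end Run7.h418.R
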